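import Pool.Agent.SZA.Defs
import Pool.Agent.SSX.St
import Pool.Agent.SSZ.St

/-!
# SZA: the groups `Z_2^a × Z_p` (MP_ec93d3_co, near-full case in rank at least three)

Architect helper97.  Aim (`St_FinA`): `G = Z_2^a × Z_p`, `a ≥ 3`, `p ≥ 5` prime, `h = 2^(a-1) ≤ 2 p`; a generating family of `t ≥ max (10, 2^a + 1)` nonzero
elements, at most two of them equal to `± x` for each `x`, with aperiodic set of sums, has at least `cf 2 t + h - 1` sums.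

Definitions: `FA`, `PP`, `Cov`, `Gro`, `CtxA` (SZA/Defs.lean), `FS`, `lam` (Helper64.Rho), `Aper`, `Cap`, `gen`, `cf`, `it`, `st` (SDG.St), `AS`, `sym`, `ins`, `outs` (MDR.St),
`AE`, `NF`, `APK`, `Sep` (SSE.St), `KAU.DCX`, `SSX.DC`, `SSX.C1N`, `SSX.Spl`, `SSX.Clp`.
Every `St_X` is a statement, its proof is in the docstring.  A module `Pool/Agent/SZA/X.lean` proves `thm_X : St_A → ... → St_X` with exactly the hypotheses listed as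
`from A, ...` in the docstring, in this order.  ALL OLDER FACTS ARE THEOREMS NOW: `import Pool.Agent.SSX.Main` and use `SSX.PAG_all` (the lower bound `cf 2 t`), `SSX.PR_all`,
`SSX.all_X`, `SSE.all_X`, `SSC.all_X`, `SSC.mdr_X`, `SDG.all_X` directly (they are not hypotheses); `SZA.all_GRB` (Pool/Agent/SZA/GRB.lean) is the growth theorem.
Notation in the docstrings: `N = |G|`, `h = 2^(a-1)`, `l = |u|`, `X = FS u f`, `T = FS s f`, `P = PP G`, `q` = index.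
No double quotes and do not use the tactic `convert`.
-/

set_option autoImplicit false

noncomputable section

open Finset Pool.Agent.Helper64.Rho Pool.Agent.SDG Pool.Agent.MDR Pool.Agent.SSC Pool.Agent.SSE Pool.Agent.SSF
open scoped Classical Pointwise

namespace Pool.Agent.SZA

/-! ## The groups -/

/-- **Gf1** (1.3 h).  Facts about `G` with `FA a p G`: `N = 2^a p`, `(2 p) x = 0` for all `x`.
Proof.  `P = {x + x}`.  `p (x + x) = 0`, so `P` is killed by `p` and its order divides the `p`-part of `N`: it is 1 or `p`; there is an element `y` of order `p` (Cauchy), `y = (p + 1) y = ((p+1)/2) y + ((p+1)/2) y ∈ P`, so `|P| = p`.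
(3) if some `x ∈ K` has `x + x ≠ 0` then `x + x ∈ K ⊓ P` is not 0, and `P` has prime order: `P ≤ K`.  (4) `M.index = 2`: `x + x ∈ M`; `|M| = N / 2` (if `a = 0` then `N = p` is odd and there is no such `M`).
(5) `G / K` is killed by 2 and not trivial (`K ≠ ⊤`): it has a subgroup of index 2 (a nonzero functional to `ZMod 2`; or take a maximal subgroup `M` containing `K`: `G / M` is simple and killed by 2).
(6) `G / K` is killed by 2, not trivial and generated by the class of `c`: order 2.  (7) `(2 p) c = 0`, so `K.index ≤ 2 p` and `2^a p = |K| K.index ≤ 2 p |K|`.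
(8) otherwise `P ≤ K` by (3), `|K| ≥ p ≥ 5`.  (9) `3` does not divide `2^a p`.  (10) a generator would have order `2^a p ≤ 2 p`. -/
def St_Gf1 : Prop :=
  ∀ (G : Type) [AddCommGroup G] [Finite G] (a p : ℕ), FA a p G →
    Nat.card (PP G) = p ∧
    (∀ x : G, x + x ∈ PP G) ∧
    (∀ K : AddSubgroup G, PP G ≤ K ∨ ∀ x ∈ K, x + x = 0) ∧
    (∀ M : AddSubgroup G, M.index = 2 → PP G ≤ M ∧ FA (a - 1) p M) ∧
    (∀ K : AddSubgroup G, K ≠ ⊤ → PP G ≤ K → ∃ M : AddSubgroup G, M.index = 2 ∧ K ≤ M) ∧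
    (∀ (K : AddSubgroup G) (c : G), PP G ≤ K → K ≠ ⊤ → (∀ x : G, ∃ k : ℕ, x - k • c ∈ K) → K.index = 2) ∧
    (∀ (K : AddSubgroup G) (c : G), (∀ x : G, ∃ k : ℕ, x - k • c ∈ K) → 2 ^ (a - 1) ≤ Nat.card K) ∧
    (∀ K : AddSubgroup G, Nat.card K ≤ 4 → ∀ x ∈ K, x + x = 0) ∧
    (∀ K : AddSubgroup G, Nat.card K ≠ 3) ∧
    (2 ≤ a → ¬ IsAddCyclic G)

/-- **Gf2** (1 h, from Gf1).  Facts about families in `G`.
Proof.  (1), (2) `K ≠ ⊥`, `c + c ∉ K`: `P ≤ K` is impossible (`c + c ∈ P`), so `K` is killed by 2 (Gf1 (3)).  (3) `KAP` has a subgroup of order 3.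
(4) `M ≠ ⊤`, `M.index ≠ 2`; suppose `|outs u f M| ≤ 1`.  Some member `i` is in `M` (`|u| ≥ 2`), `f i + f i ≠ 0`, so `P ≤ M` (Gf1 (3)).  Some member `x` is not in `M` (`gen u f = ⊤`), all others are in `M`; so every element of `G = gen u f` is `k f x` modulo `M`: Gf1 (6): index 2: contradiction.
(5) `P ≤ gen u f` by Gf1 (3) (a member is not killed by 2), then Gf1 (5).  (6) `u.erase i` is not empty, `P ≤ gen (u.erase i) f`, and every element of `G` is `k f i` modulo this subgroup: Gf1 (6). -/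
def St_Gf2 : Prop :=
  ∀ (G ι : Type) [AddCommGroup G] [Finite G] (a p : ℕ) (u : Finset ι) (f : ι → G), FA a p G →
    Pool.Agent.KAU.DCX u f ∧ Pool.Agent.SSX.DC u f ∧ ¬ Exc f u ∧
    (AE u f → 2 ≤ u.card → gen u f = ⊤ → Sep u f) ∧
    ((∀ i ∈ u, f i + f i ≠ 0) → u.Nonempty → gen u f ≠ ⊤ → ∃ M : AddSubgroup G, M.index = 2 ∧ ∀ i ∈ u, f i ∈ M) ∧
    (AE u f → 2 ≤ u.card → gen u f = ⊤ → ∀ i ∈ u, gen (u.erase i) f ≠ ⊤ → (gen (u.erase i) f).index = 2)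

/-! ## Families nearly filled by a group killed by 2 -/

/-- **KhG** (1.5 h, adapt Pool/Agent/SSX/KhW.lean; uses SSX.all_LcW, SSX.all_FU, SSX.all_FW, SSE.all_Cn, SSC.mdr_Sg, SDG.all_Ba1).  `K` killed by 2, `k = |K| ≥ 4` (a power of 2, so `4 ∣ k`), any finite `G`.
Proof.  LcW: `l = a k`, all levels `1, ..., a` have `k` members, `2 a + 1 ≤ q = K.index`.  Pass to `f'` (MDR.Sg), `N = k q`.
`a ≥ 2`: FW: `Per X K d m`, `m = k a (a+1) / 2`.  `m < q`: SSE.Cn (3): `|X| ≥ k (m-1) + 2`, `2 |X| ≥ k^2 a (a+1) - 2 k + 4 ≥ a k (a k + 1) + 2 k` (`(k - 1)(a k - 4) ≥ 0`).  `m ≥ q + 1`: `X = G`, not aperiodic.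
`m = q`: `|X| ≥ N - k + 1`, `2 |X| ≥ 2 l (l-1) + 4 - 2 k + 2 ≥ l (l+1) + 2 k` (`l^2 - 3 l + 6 ≥ 4 k`: `l ≥ 2 k`, `l^2 - 5 l + 6 ≥ 0`).
`a = 1`: `l = k ≥ 5`, so `k ≥ 8`.  `q ≥ k`: as in KhW: `2 |X| ≥ 3 k^2 / 2 ≥ k (k+1) + 2 k`.  `q ≤ k - 1`: `N = k q ≤ k (k-1) < l (l-1) + 2`: impossible. -/
def St_KhG : Prop :=
  ∀ (G ι : Type) [AddCommGroup G] [Finite G] (u : Finset ι) (f : ι → G) (K : AddSubgroup G), AE u f → Aper (FS u f) → 5 ≤ u.card →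
    (∀ x ∈ K, x + x = 0) → 4 ≤ Nat.card K → NF (sym u f) K → APK (sym u f) K → u.card * (u.card - 1) + 2 ≤ Nat.card G →
      u.card * (u.card + 1) + 2 * Nat.card K ≤ 2 * (FS u f).card

/-- **Gt** (0.8 h, from Gf1, Gf2, KhG).  The growth alternatives.
Proof.  `SZA.all_GRB` (not cyclic by Gf1 (10), `DCX` by Gf2).  First alternative: `K` is killed by 2 in both cases (Gf1 (8)), `APK` gives `d` with `x ≡ k d` modulo `K` for all `x`, so `|K| ≥ 2^(a-1) ≥ 4` (Gf1 (7)): KhG. -/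
def St_Gt : Prop :=
  ∀ (G ι : Type) [AddCommGroup G] [Finite G] (a p : ℕ) (u : Finset ι) (f : ι → G), FA a p G → 3 ≤ a → AE u f → Aper (FS u f) → gen u f = ⊤ →
    5 ≤ u.card → u.card * (u.card - 1) + 2 ≤ Nat.card G →
      u.card * (u.card + 1) + 2 * 2 ^ (a - 1) ≤ 2 * (FS u f).card ∨ Gro u.card (sym u f)

/-! ## Few members more than the rank -/

/-- **Bs** (1.2 h, from Gf1).  Covering the classes modulo `P`.
Proof.  (1) clear.  (2) `G / P` has order `2^a` and is killed by 2: a vector space over `ZMod 2` of dimension `a` (`AddCommGroup.zmodModule`), spanned by the classes of the members; choose a basis among them (`exists_linearIndependent`, `Basis.extend`, ...), `b` = one member for each basis vector.  Every `x : G` is modulo `P` a sum of a subset of `b`.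
(3) the classes of the elements of `FS w f` are all `2^a` classes. -/
def St_Bs : Prop :=
  (∀ (G ι : Type) [AddCommGroup G] (b w : Finset ι) (f : ι → G), Cov b f → b ⊆ w → Cov w f) ∧
  (∀ (G ι : Type) [AddCommGroup G] [Finite G] (a p : ℕ) (u : Finset ι) (f : ι → G), FA a p G → gen u f = ⊤ →
    ∃ b : Finset ι, b ⊆ u ∧ b.card = a ∧ Cov b f) ∧
  (∀ (G ι : Type) [AddCommGroup G] [Finite G] (a p : ℕ) (w : Finset ι) (f : ι → G), FA a p G → Cov w f → 2 ^ a ≤ (FS w f).card)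

/-- **Sg** (1.5 h, from Gf1, Bs).  One more member `y`, `f y + f y ≠ 0`, `a ≥ 1`.
Proof.  `X = FS w f ≠ G`, `|FS (insert y w) f| = |X| + lam X (f y)` (`lam X z = #{x ∈ X | x + z ∉ X}`).  The order of `f y` divides `2 p` and is not 1, 2: it is `p` or `2 p`.  A coset `C` of `⟨f y⟩` with `∅ ≠ X ∩ C ≠ C` contributes at least 1 to `lam X (f y)`; `P ≤ ⟨f y⟩`, so every coset of `⟨f y⟩` meets `X` (`Cov`), in at least `|⟨f y⟩| / p` elements.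
Order `2 p`: `h` cosets, let `F` of them be contained in `X`: `2 p F + 2 (h - F) ≤ |X|`, i.e. `F ≤ (|X| - 2^a) / (2 p - 2)`, and `lam X (f y) ≥ h - F`.
Order `p`: `2 h` cosets: `p F + (2 h - F) ≤ |X|`, `F ≤ (|X| - 2 h) / (p - 1)`, `lam ≥ 2 h - F`.  With `E = |X| - 2 h` and `r = E / (2 p - 2)` (integer part) `F ≤ 2 r + 1`, and `r ≤ h - 1` because `E < 2 h p - 2 h = h (2 p - 2)` (`X ≠ G`): `2 h - F ≥ 2 h - 2 r - 1 ≥ h - r`. -/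
def St_Sg : Prop :=
  ∀ (G ι : Type) [AddCommGroup G] [Finite G] (a p : ℕ) (w : Finset ι) (y : ι) (f : ι → G), FA a p G → 1 ≤ a → Cov w f → y ∉ w → f y + f y ≠ 0 →
    (∃ x : G, x ∉ FS w f) →
      (FS w f).card + 2 ^ (a - 1) ≤ (FS (insert y w) f).card + ((FS w f).card - 2 ^ a) / (2 * p - 2)

/-- **Sgn** (1.2 h, from Gf1, Bs, Sg).  `s` members more than the rank.
Proof.  `h = 2^(a-1)` is even, `h ≤ 2 p`, `h ≠ 2 p` (`p` is an odd prime), so `h ≤ 2 p - 2`.  `b ⊆ u` from Bs.  Claim for `b ⊆ w ⊆ u`, `|w| = a + r`: `4 h + 2 h r ≤ 2 |FS w f| + r (r - 1)`.  Induction on `r`; `r = 0`: Bs (3).  Step: `y ∈ u \ w`, `F = |FS w f|`, `E = F - 2 h`, `e = E / (2 p - 2)`, Sg (`FS w f` is aperiodic, so `≠ G`): `F' ≥ F + h - e`.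
If `e ≤ r`: `2 F' ≥ 4 h + 2 h r - r (r-1) + 2 h - 2 r = 4 h + 2 h (r+1) - r (r+1)`.  If `e ≥ r + 1`: `E ≥ e (2 p - 2) ≥ e h`, `2 F' ≥ 4 h + 2 e h + 2 h - 2 e`, and `2 h (e - r) - 2 e + r (r+1) ≥ (2 h - 2)(e - r) + r^2 - r ≥ 0`. -/
def St_Sgn : Prop :=
  ∀ (G ι : Type) [AddCommGroup G] [Finite G] (a p s : ℕ) (u : Finset ι) (f : ι → G), FA a p G → 2 ≤ a → 2 ^ (a - 1) ≤ 2 * p →
    (∀ i ∈ u, f i + f i ≠ 0) → Aper (FS u f) → gen u f = ⊤ → u.card = a + s →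
      2 * 2 ^ a + 2 ^ a * s ≤ 2 * (FS u f).card + s * (s - 1)

/-- **B5** (2 h, from Gf1, Bs, Sg).  Five members in `Z_2^3 × Z_p`: at least 18 sums.
Proof.  `b = {1, 2, 3} ⊆ u` with `Cov b f` (Bs): the 8 subsets `A` of `b` have sums `f_A` in the 8 different classes modulo `P`.  The other members are `4, 5`.  CLAIM: there is `w ⊆ u` with four members, `Cov w f`, `|FS w f| ≥ 14`.  Then Sg for `w` and the fifth member (`h = 4`, `2^a = 8`, `2 p - 2 ≥ 8`): with `x = |FS w f| ≤ 16`: `x + 4 - (x - 8) / 8 ≥ 18`.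
For `w = insert j b`, `f j ≡ f_C` modulo `P` (`C ⊆ b`): `FS w f = FS b f ∪ (FS b f + f j)`, `|FS w f| = 8 + #{A | f_A + f j ≠ f_(A Δ C)}`.  `A` is bad if `f_A + f j = f_(A Δ C)`, i.e. `f j = ∑_{c ∈ C} ± f c` with sign `-` for `c ∈ A ∩ C`, `+` for `c ∈ C \ A`.
`C = ∅`: `f j = 0`, never.  `C = {c}`: `f j = ± f c`, never (`AE`).  `C = {c, d}`: for the 4 sign patterns; two patterns that differ in one sign are not both possible (`2 f c = 0`), and `(+,+)`, `(-,-)` not both (`2 f j = 0`), `(+,-)`, `(-,+)` not both.  So at most one pattern, at most 2 bad `A`: `|FS w f| ≥ 14`.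
So the claim holds with `w = {1, 2, 3, 4}` or `w = {1, 2, 3, 5}` unless `f 4 ≡ f 5 ≡ f_b` modulo `P`.  In this case take `w = {1, 2, 4, 5}`: `b' = {1, 2, 4}` has `Cov b' f` (`f 3 ≡ f 1 + f 2 + f 4`), and `f 5 ≡ f 4`: type `C = {4}` with respect to `b'`: `|FS w f| = 16`. -/
def St_B5 : Prop :=
  ∀ (G ι : Type) [AddCommGroup G] [Finite G] (p : ℕ) (u : Finset ι) (f : ι → G), FA 3 p G → AE u f → Aper (FS u f) → gen u f = ⊤ →
    u.card = 5 → 18 ≤ (FS u f).card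

/-! ## Bounds for a half -/

/-- **Bt** (0.5 h, from Gf1, Gf2).  Proof.  `SSX.C1N l` is a theorem: `(SSX.all_CCF (fun l hl => (SSE.all_CC l hl fun n _ => SSE.all_PFE n).1) l hl (fun n _ => SSX.PR_all n)).1`.  `DC`, `Sep`, not `Exc` by Gf2, not cyclic by Gf1. -/
def St_Bt : Prop :=
  ∀ (G ι : Type) [AddCommGroup G] [Finite G] (a p : ℕ) (u : Finset ι) (f : ι → G), FA a p G → 2 ≤ a → 4 ≤ u.card → AE u f → Aper (FS u f) →
    gen u f = ⊤ → 2 * (FS u f).card ≤ Nat.card G → 2 + u.card * (u.card + 1) ≤ 2 * (FS u f).card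

/-- **Dp** (0.8 h, from Gf1, Gf2, Bt).  A member `i` with `gen (u.erase i) f ≠ ⊤`.
Proof.  `f i ∉ M = gen (u.erase i) f` (SDG.Ba1 (6)), so `|X| = 2 |X'|`, `X' = FS (u.erase i) f` (SDG.Ba1 (4)); `M.index = 2` (Gf2 (6)), `FA (a-1) p M` (Gf1 (4)).  SSX.all_TfF for `u.erase i`: a family `f'` in `M` that generates `M`, `AE`, `Aper`, `|FS (u.erase i) f'| = |X'|`.  `2 |X'| = |X| ≤ N / 2 = |M|`.  Bt for `M` (`a - 1 ≥ 2`, `l - 1 ≥ 4`): `2 + (l-1) l ≤ 2 |X'| = |X|`. -/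
def St_Dp : Prop :=
  ∀ (G ι : Type) [AddCommGroup G] [Finite G] (a p : ℕ) (u : Finset ι) (f : ι → G) (i : ι), FA a p G → 3 ≤ a → 5 ≤ u.card → AE u f →
    Aper (FS u f) → gen u f = ⊤ → 2 * (FS u f).card ≤ Nat.card G → i ∈ u → gen (u.erase i) f ≠ ⊤ →
      4 + 2 * (u.card * (u.card - 1)) ≤ 2 * (FS u f).card

/-- **Av1** (1.5 h, uses SSC.mdr_Av0; compare Pool/Agent/SSX/A1X.lean).  `j = l - 1`, `x = |X| = 1 + l (l+1)/2 + e`, `0 ≤ 2 e ≤ l - 3`, `N ≥ l^2 + 2 l`.  (Formulas checked by computer.)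
Proof.  `MDR.Av0`: `j ∑_{i < k} |i D| + (x - k j) |k D| ≤ x^2`, `|0 D| = 1`, `|1 D| = 2 l + 1`.
First alternative of `Gro`: for `i ≥ 1` `|i D| ≥ min (N - τ, i (2l+2) - 1)`, one less for `i = 2`, with `τ = max (4, (l+1)/2)` (integer part).
`l = 2 m` (`m ≥ 3`): `k = m + 1`, `x - k j = 2 + e`, `e ≤ m - 2`; `|i D| ≥ i (4m+2) - 1` for `1 ≤ i ≤ m` (one less for `i = 2`), `|(m+1) D| ≥ 4m^2 + 4m - τ`.  Left side minus `x^2`: `6m - 1 + e (2m - 2) - e^2 - τ (e + 2) > 0` (`τ = max (4, m)`; for `τ = m` it is `4 m - 1 + e (m - 2 - e)`).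
`l = 2 m + 1` (`m ≥ 3`): `k = m + 1`, `x - k j = m + 2 + e`, `e ≤ m - 1`; `|i D| ≥ i (4m+4) - 1` for `1 ≤ i ≤ m` (one less for `i = 2`), `|(m+1) D| ≥ 4m^2 + 8m + 3 - τ`.  Difference `m^2 + 7m + 2 + e (2m-1) - e^2 - τ (m + 2 + e)`, `τ = m + 1`: it is `4 m + e (m - 2 - e) > 0`.
Second alternative: `l = 3 κ`, `κ ≥ 4` even, `|i D| ≥ min (N - 2 κ, 8 κ i)` for `i ≥ 2`.  `k = κ + 1`: `|i D| ≥ 8 κ i` for `2 ≤ i ≤ κ + 1` (`N - 2 κ ≥ 9 κ^2 + 4 κ ≥ 8 κ (κ+1)`).  Difference `x (8κ^2 + 8κ - x) - 12κ^4 - 32κ^3 - 18κ^2 + 16κ - 2 > 0` for `9κ^2 + 3κ + 2 ≤ 2 x ≤ 9κ^2 + 6κ - 1`. -/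
def St_Av1 : Prop :=
  ∀ (G : Type) [AddCommGroup G] [Finite G] (X D : Finset G) (l e : ℕ), (0 : G) ∈ D → 6 ≤ l → (∀ y ∈ D, lam X y + 1 ≤ l) → D.card = 2 * l + 1 →
    2 * X.card = 2 + l * (l + 1) + 2 * e → 2 * e + 3 ≤ l → l * l + 2 * l ≤ Nat.card G → Gro l D → False

/-- **Av2** (2 h, uses SSC.mdr_Av0; compare Pool/Agent/SSX/A1X.lean).  `j = l - 2`, `2 + l (l-1) ≤ 2 x ≤ l^2 + 2 l - 1`, `N ≥ max (2 x, l^2 + 2)`.  Write `x = 1 + l (l+1)/2 + e`, `e` an integer, `- l ≤ e`, `2 e ≤ l - 3`.  (Formulas checked by computer; do the algebra in `ℤ`.)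
Proof.  As in Av1, with `k = m`, `m = l / 2` (integer part), `τ = max (4, (l+1)/2)` (integer part).
`l = 2 m` (`m ≥ 3`): `x - k j = 3 m + 1 + e`; `|i D| ≥ i (4m+2) - 1` for `1 ≤ i ≤ m - 1` (one less for `i = 2`).  `∑` part: `(2m-2)(m-1)(2m^2 + m - 1)`.  `|m D| ≥ m (4m+2) - 1`: difference `2m^3 + 3m^2 + 3m - 4 - 3e - e^2 > 0`.
`|m D| ≥ N - τ`: `e ≤ - m` (`N ≥ 4m^2 + 2`): `2m^3 - 3m^2 + 10m - 1 - 2me - e^2 - τ (3m + 1 + e) > 0`; `e ≥ - m` (`N ≥ 2 x`): `2m^3 + 3m^2 + 12m - 1 + 2e (3m+1) + e^2 - τ (3m + 1 + e) > 0`.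
`l = 2 m + 1` (`m ≥ 3`): `x - k j = 4 m + 2 + e`; `|i D| ≥ i (4m+4) - 1` for `1 ≤ i ≤ m - 1` (one less for `i = 2`).  `|m D| ≥ m (4m+4) - 1`: difference `2m^3 + m^2 - 3m - 7 - e (2m+5) - e^2 > 0`.
`|m D| ≥ N - τ`: `e ≤ - m` (`N ≥ 4m^2 + 4m + 3`): `2m^3 + m^2 + 13m + 1 - e (2m+1) - e^2 - τ (4m + 2 + e) > 0`; `e ≥ - m` (`N ≥ 2 x`): `2m^3 + 9m^2 + 21m + 3 + e (8m+4) + e^2 - τ (4m + 2 + e) > 0`.
Second alternative of `Gro` (`l = 3 κ`): `k = κ`, `|i D| ≥ 8 κ i` for `2 ≤ i ≤ κ` (`N - 2 κ ≥ 9κ^2 + 2 - 2κ ≥ 8κ^2`): difference `- 12κ^4 - 4κ^3 + 2κ^2 + 10κ - 4 + x (8κ^2 - x) > 0` for `9κ^2 - 3κ + 2 ≤ 2 x ≤ 9κ^2 + 6κ - 1`. -/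
def St_Av2 : Prop :=
  ∀ (G : Type) [AddCommGroup G] [Finite G] (X D : Finset G) (l : ℕ), (0 : G) ∈ D → 6 ≤ l → (∀ y ∈ D, lam X y + 2 ≤ l) → D.card = 2 * l + 1 →
    2 + l * (l - 1) ≤ 2 * X.card → 2 * X.card + 1 ≤ l * l + 2 * l → l * l + 2 ≤ Nat.card G → 2 * X.card ≤ Nat.card G → Gro l D → False

/-- **Av3** (1.5 h, uses SSC.mdr_Av0; compare Pool/Agent/SSX/A1X.lean).  `D` comes from `l + 1` members: `|D| = 2 l + 3`, `j = l - 1`, `x = 1 + l (l+1)/2 + e`, `0 ≤ 2 e ≤ l - 3`, `N ≥ 2 x`.  (Formulas checked by computer.)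
Proof.  First alternative of `Gro (l+1) D`: `|i D| ≥ min (N - τ, i (2l+4) - 1)` (one less for `i = 2`), `τ ≤ 4` or `2 τ ≤ l + 2`.  `k = m`, `m = l / 2` (integer part).
`l = 2 m` (`m ≥ 3`): `x - k j = 2m + 1 + e`, `e ≤ m - 2`; `|m D| ≥ m (4m+4) - 1`: difference `2m^3 + m^2 + 5m - 3 + e (2m-3) - e^2 > 0`; `|m D| ≥ N - τ`: `2m^3 - 3m^2 + 9m + e (4m+2) + e^2 - τ (2m + 1 + e) > 0` (`τ ≤ m + 1`).
`l = 2 m + 1` (`m ≥ 3`): `x - k j = 3m + 2 + e`, `e ≤ m - 1`; `|m D| ≥ m (4m+6) - 1`: difference `2m^3 + m^2 - m - 6 - 5e - e^2 > 0`; `|m D| ≥ N - τ`: `2m^3 + m^2 + 14m + 4 + e (6m+4) + e^2 - τ (3m + 2 + e) > 0` (`τ ≤ m + 1`).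
Second alternative: `l + 1 = 3 κ`, `κ ≥ 4` even, `k = κ`, `|0 D| = 1`, `|1 D| = 6 κ + 1`, `|i D| ≥ 8 κ i` for `2 ≤ i ≤ κ - 1`.  `κ ≥ 6`: `|κ D| ≥ 8 κ^2` (`N - 2 κ ≥ 9κ^2 - 5κ + 2`): difference `- 12κ^4 - 4κ^3 + 2κ^2 + 10κ - 4 + x (8κ^2 - x) > 0` for `9κ^2 - 3κ + 2 ≤ 2 x ≤ 9κ^2 - 2`.
`κ = 4` (`l = 11`, `x = 67 + e`, `e ≤ 4`): `|4 D| ≥ 126`: `10 (1 + 25 + 64 + 96) + (x - 40) 126 - x^2 = 126 x - 3180 - x^2 > 0`. -/
def St_Av3 : Prop :=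
  ∀ (G : Type) [AddCommGroup G] [Finite G] (X D : Finset G) (l e : ℕ), (0 : G) ∈ D → 6 ≤ l → (∀ y ∈ D, lam X y + 1 ≤ l) → D.card = 2 * l + 3 →
    2 * X.card = 2 + l * (l + 1) + 2 * e → 2 * e + 3 ≤ l → 2 * X.card ≤ Nat.card G → Gro (l + 1) D → False

/-- **Al** (1.5 h, from Gf1, Gf2, Bs, Sgn, B5, Bt, Dp, Gt, Av1).  The gain `h` for a half.
Proof.  `G`, `a`, `p` fixed, induction on `l = |u| ≥ 5`.  Suppose `2 |X| < l (l+1) + 2 + h`; both sides are even (`h` is even), so `2 |X| ≤ l (l+1) + h`.  `a ≤ l` (Bs), `s = l - a`.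
(1) `a ≥ 4`, `l ≤ h`: Sgn: `2 |X| ≥ 4 h + 2 h s - s (s - 1)`, and `4 h + 2 h s - s (s-1) - l (l+1) - 2 - h = 3 h - 2 - a (a+1) + 2 s (h - l) ≥ 0` (`3 h ≥ a (a+1) + 2` for `a ≥ 4`).
(2) `a = 3`, `l = 5`: B5: `2 |X| ≥ 36 = 30 + 2 + 4`.  (3) the remaining cases have `l ≥ h + 1` and `l ≥ 6` (if `a = 3` then `h = 4`).
For `i ∈ u`: `gen (u.erase i) f = ⊤`: otherwise Dp: `2 |X| ≥ 4 + 2 l (l-1) > l (l+1) + h` (`l^2 - 3 l + 4 > h`, `l ≥ 6`, `l ≥ h + 1`).  `X' = FS (u.erase i) f`, `2 |X'| ≤ 2 |X| ≤ N`, `(l-1)^2 + 2 (l-1) ≤ N`, induction: `2 |X'| ≥ (l-1) l + 2 + h`; `|X'| + lam X (f i) ≤ |X|` (SDG.Ba1 (3)): `2 lam X (f i) ≤ 2 l - 2`.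
So `lam X y + 1 ≤ l` on `D = sym u f` (SSE.all_SyE).  Bt: `2 |X| = 2 + l (l+1) + 2 e`, `2 e ≤ h - 2 ≤ l - 3`.  Gt: first alternative contradicts `2 |X| ≤ l (l+1) + h`; second: Av1. -/
def St_Al : Prop :=
  ∀ (G ι : Type) [AddCommGroup G] [Finite G] (a p : ℕ) (u : Finset ι) (f : ι → G), FA a p G → 3 ≤ a → 2 ^ (a - 1) ≤ 2 * p → 5 ≤ u.card → AE u f →
    Aper (FS u f) → gen u f = ⊤ → 2 * (FS u f).card ≤ Nat.card G → u.card * u.card + 2 * u.card ≤ Nat.card G →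
      u.card * (u.card + 1) + 2 + 2 ^ (a - 1) ≤ 2 * (FS u f).card

/-- **La** (0.5 h, from Dp, Al).  Every member changes few sums.
Proof.  `gen (u.erase i) f = ⊤`: `2 |X'| ≤ 2 |X| ≤ N`, `(l-1)^2 + 2 (l-1) = l^2 - 1 ≤ N`, Al for `u.erase i` (`l - 1 ≥ 5`), `|X'| + lam X (f i) ≤ |X|` (SDG.Ba1 (3)).  Otherwise Dp. -/
def St_La : Prop :=
  ∀ (G ι : Type) [AddCommGroup G] [Finite G] (a p : ℕ) (u : Finset ι) (f : ι → G) (i : ι), FA a p G → 3 ≤ a → 2 ^ (a - 1) ≤ 2 * p → 6 ≤ u.card →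
    AE u f → Aper (FS u f) → gen u f = ⊤ → 2 * (FS u f).card ≤ Nat.card G → u.card * u.card ≤ Nat.card G + 1 → i ∈ u →
      (u.card * (u.card - 1) + 2 + 2 ^ (a - 1) ≤ 2 * (FS (u.erase i) f).card ∧
        2 * lam (FS u f) (f i) + (u.card * (u.card - 1) + 2 + 2 ^ (a - 1)) ≤ 2 * (FS u f).card) ∨
      4 + 2 * (u.card * (u.card - 1)) ≤ 2 * (FS u f).card

/-! ## The halves -/

/-- **Clc** (1 h, from Gf1).  The number of coloops.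
Proof.  For `A ⊆ Q` let `σ_A = ∑_{i ∈ A} f i`.  The classes of `σ_A` modulo `P` are different: let `x ∈ A`, `x ∉ B`, `M_x` from `Clp q f x`: `σ_A - σ_B` is `f x` plus an element of `M_x` (all other members of `Q ⊆ q` are in `M_x`), so it is not in `M_x ⊇ P` (Gf1 (4)).  `G / P` has order `2^a`: `2^|Q| ≤ 2^a`.
If all members of `q` are in `M`, `M.index = 2`: the `σ_A` are in `M`, and `M` contains `2^(a-1)` cosets of `P ≤ M` (`a ≥ 1` since `N` is even). -/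
def St_Clc : Prop :=
  ∀ (G ι : Type) [AddCommGroup G] [Finite G] (a p : ℕ) (q Q : Finset ι) (f : ι → G), FA a p G → Q ⊆ q → (∀ x ∈ Q, Pool.Agent.SSX.Clp q f x) →
    Q.card ≤ a ∧ ∀ M : AddSubgroup G, M.index = 2 → (∀ i ∈ q, f i ∈ M) → Q.card + 1 ≤ a

/-- **Wb** (1.2 h, uses SSX.PAG_all).  At least `a + 1` members outside every subgroup of index 2.
Proof.  `e = |outs s f M|`, `e ≥ 1` (`gen s f = ⊤`).  `I = FS (ins s f M) f ⊆ M`, `|I| ≥ cf 2 (t - e)` (PAG_all: `Cap`, `Aper` for subfamilies, SDG.Ba1 (2)); `y` a member outside `M`: `T ⊇ I ∪ (I + f y)`, disjoint: `|T| ≥ 2 cf 2 (t - e)`.  If `e ≤ a`: `2 cf 2 (t - a) ≤ |T| ≤ cf 2 t + h - 2`.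
Numbers: `cf 2 n = 1 + (n+1)^2/4` (SDG.Nm1), so `2 (z - a)^2 + 10 ≤ z^2 + 4 h` with `z = t + 1` (floors), i.e. `(z - 2 a)^2 + 10 ≤ 2 a^2 + 4 h`.  `a = 3`, `h = 4`, `z ≥ 11`: `25 + 10 > 34`.  `a ≥ 4`: `z - 2 a ≥ 2^a + 2 - 2 a ≥ 2 a + 2` and `≥ 2^(a-1) + 2` (`2^a ≥ 4 a`), the product is `> 2 a^2 + 2^(a+1) - 10`. -/
def St_Wb : Prop :=
  ∀ (G ι : Type) [AddCommGroup G] [Finite G] (a p t : ℕ) (s : Finset ι) (f : ι → G) (M : AddSubgroup G), CtxA a p t s f → 10 ≤ t → 2 ^ a + 1 ≤ t →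
    M.index = 2 → a + 1 ≤ (outs s f M).card

/-- **P1A** (1 h, from Clc; adapt Pool/Agent/SSX/P1s.lean).  A part `q` contained in a subgroup `M` of index 2: exchange possible.
Proof.  All members of `outs s f M` (at least `a + 1`) are in `r`.  A partner `j ∈ r` (`f j = ± f x`) of a member `x ∈ q` is in `r ∩ M`, and different `x` have different partners (`AS q f`): at most `|r| - (a + 1) ≤ |q| - a` members of `q` have a partner, so at least `a` members have none; at most `a - 1` members of `q` are coloops (Clc): `x`.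
`r` has at least `a + 1` members outside `M`, at most `a` of them are coloops of `r` (Clc): `y`; a partner of `y` would be outside `M`, but `q ⊆ M`. -/
def St_P1A : Prop :=
  ∀ (G ι : Type) [AddCommGroup G] [Finite G] (a p : ℕ) (s q r : Finset ι) (f : ι → G) (M : AddSubgroup G), FA a p G →
    (∀ M' : AddSubgroup G, M'.index = 2 → a + 1 ≤ (outs s f M').card) → Pool.Agent.SSX.Spl s q r f → M.index = 2 → (∀ i ∈ q, f i ∈ M) →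
      ∃ x ∈ q, ∃ y ∈ r, f y ∉ M ∧ ¬ Pool.Agent.SSX.Clp q f x ∧ ¬ Pool.Agent.SSX.Clp r f y ∧ (∀ j ∈ r, f j ≠ f x ∧ f j ≠ - f x) ∧
        (∀ j ∈ q, f j ≠ f y ∧ f j ≠ - f y)

/-- **Hf** (1.2 h, from Gf1, Gf2, P1A; adapt Pool/Agent/SSX/P1X.lean; uses SSX.all_SwX, SDG.all_Ba1).  The halves.
Proof.  As P1X (induction on the number of subgroups of index 2 that contain one of the parts, P1A instead of P1s) there is `Spl s s1 s2 f`, `|s1| = (t+1)/2`, with no part contained in a subgroup of index 2.  `AE` since no member is killed by 2 (SDG.Ba1 (5)); `gen s_j f = ⊤` by Gf2 (5) (the parts are not empty: `t ≥ 2`). -/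
def St_Hf : Prop :=
  ∀ (G ι : Type) [AddCommGroup G] [Finite G] (a p : ℕ) (s : Finset ι) (f : ι → G), FA a p G → 2 ≤ s.card → (∀ i ∈ s, f i ≠ 0) → Cap 2 s f →
    Aper (FS s f) → (∀ M' : AddSubgroup G, M'.index = 2 → a + 1 ≤ (outs s f M').card) →
      ∃ s1 s2 : Finset ι, Disjoint s1 s2 ∧ s1 ∪ s2 = s ∧ AE s1 f ∧ AE s2 f ∧ s1.card = (s.card + 1) / 2 ∧ s2.card = s.card / 2 ∧
        gen s1 f = ⊤ ∧ gen s2 f = ⊤

/-! ## The end -/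

/-- **B2** (1.5 h, uses SSZ.thm_Dz, SSE.all_SyE; compare Pool/Agent/SSZ/Bz.lean).  Two halves with the same members.
Proof.  `X = FS s1 f`, `D = sym s1 f`, `|D| = 2 l + 1`, `lam X y ≤ l - 1` on `D` (SyE).  SSZ.Dz: `c` with `x ∈ FS s2 f` iff `x - c ∈ X`.  `X = w - X`, `w = ∑_{i ∈ s1} f i`.  `z ∉ X + FS s2 f`: for `x ∈ X`: `z - x ∉ FS s2 f`, `z - x - c ∉ X`, so `x + g ∉ X` with `g = w - z + c`.  Hence `lam X g = |X|`.
`m = l / 2 ≥ 3` (integer part).  `(m+1) D = G`: it is enough that `|m D| + |D| > N` (every `g - D` meets `m D`).  `Gro` with `i = m`: `N ≤ |m D| + τ`, `τ ≤ 2 l`: clear.  `m (2l+2) ≤ |m D| + 1`: `|m D| + |D| ≥ (m+1)(2l+2) - 2`, which is `4m^2 + 6m > 4m^2 + 4m - 1 ≥ N` for `l = 2 m` and `4m^2 + 8m + 2 > N` for `l = 2 m + 1` (`N + 2 ≤ l^2 + 2 l`).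
Second alternative of `Gro` (`l = 3 κ`, `κ` even, `m = 3κ/2`): `N ≤ |m D| + 2 κ`: clear; `8 κ m = 12 κ^2`: `12κ^2 + 6κ + 1 > N`.
So `g` is a sum of `m + 1` elements of `D`, `lam X g ≤ (m+1)(l-1)` (`lam` is subadditive: Helper64.Rho.lam_add), but `(m+1)(l-1) < 1 + l (l+1)/2 ≤ |X|`: contradiction. -/
def St_B2 : Prop :=
  ∀ (G ι : Type) [AddCommGroup G] [Finite G] (l : ℕ) (s1 s2 : Finset ι) (f : ι → G), 6 ≤ l → AE s1 f → AE s2 f → s1.card = l → s2.card = l →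
    (∀ y ∈ s2, ∃ x ∈ s1, f y = f x ∨ f y = - f x) → (∃ z : G, z ∉ FS s1 f + FS s2 f) → (∀ i ∈ s1, lam (FS s1 f) (f i) + 1 ≤ l) →
    2 + l * (l + 1) ≤ 2 * (FS s1 f).card → Nat.card G + 1 ≤ l * l + 2 * l → (l % 2 = 1 → Nat.card G + 2 ≤ l * l + 2 * l) →
      Gro l (sym s1 f) → False

/-- **EvB** (1.5 h, from Gf1, Gt, Av3, La, B2; uses SDG.all_Kn, SDG.all_Ba1, SSE.all_SyE).  Both halves have `1 + l (l+1)/2 + h/2 - 1` sums.
Proof.  `X_j = FS s_j f`.  `N ≥ |X_1| + |X_2| = l (l+1) + h` (`|X_1| + |X_2| ≤ N` since `T` is aperiodic, SDG.Kn (2) with `M = ⊤`), so `2 |X_j| ≤ N`, `l^2 ≤ N`.  La for both: the second alternative is impossible (`4 + 2 l (l-1) > l (l+1) + h`), so for `i ∈ s_j`: `l (l-1) + 2 + h ≤ 2 |FS (s_j.erase i) f|` and `lam X_j (f i) ≤ l - 1`.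
For `y ∈ s2`: `FS (insert y s1) f = X_1 ∪ (X_1 + f y)` has `|X_1| + lam X_1 (f y)` elements, SDG.Kn (1) for `insert y s1` and `s2.erase y`: `|X_1| + lam X_1 (f y) + |FS (s2.erase y) f| ≤ |T| + 1 ≤ l (l+1) + h`, so `2 lam X_1 (f y) ≤ 2 l (l+1) + 2 h - (l (l-1) + 2 + h) - (l (l+1) + h) = 2 l - 2`.
(a) some `y ∈ s2` has `f y ≠ ± f x` for all `x ∈ s1`: `u = insert y s1`, `l + 1` members, `AE`, `Aper`, `gen = ⊤`, `(l+1) l + 2 ≤ N`.  Gt: `(l+1)(l+2) + 2 h ≤ 2 |FS u f| = 2 |X_1| + 2 lam X_1 (f y) ≤ l (l+1) + h + 2 l - 2`: false; so `Gro (l+1) (sym u f)`, `lam X_1 z + 1 ≤ l` on `sym u f` (SyE): Av3 with `2 e = h - 2` (`h` even, `h + 1 ≤ l`).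
(b) otherwise B2: `z ∉ T` exists (`T` aperiodic), `T = X_1 + X_2` (SDG.Ba1 (1)); Gt for `s1` (first alternative impossible) gives `Gro l (sym s1 f)`.  `l` odd: `8 ∣ N` (`a ≥ 3`), but `l^2 + 2 l - 1 = (l+1)^2 - 2` is `2` modulo 4, so `N + 2 ≤ l^2 + 2 l`. -/
def St_EvB : Prop :=
  ∀ (G ι : Type) [AddCommGroup G] [Finite G] (a p l : ℕ) (s1 s2 : Finset ι) (f : ι → G), FA a p G → 3 ≤ a → 2 ^ (a - 1) ≤ 2 * p → 6 ≤ l →
    2 ^ (a - 1) + 1 ≤ l → Disjoint s1 s2 → AE s1 f → AE s2 f → s1.card = l → s2.card = l → Aper (FS (s1 ∪ s2) f) → gen s1 f = ⊤ → gen s2 f = ⊤ →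
    2 * (FS s1 f).card = l * (l + 1) + 2 ^ (a - 1) → 2 * (FS s2 f).card = l * (l + 1) + 2 ^ (a - 1) →
    (FS (s1 ∪ s2) f).card + 1 ≤ l * (l + 1) + 2 ^ (a - 1) → Nat.card G + 1 ≤ l * l + 2 * l → False

/-- **Ev** (1.5 h, from Gf1, Bt, Gt, Av2, Al, La, Wb, Hf, EvB; uses SDG.all_Kn, SDG.all_Nm1, SSX.PAG_all, SSE.all_SyE).  `t = 2 l`, `l ≥ 5`, `l ≥ h + 1`.
Proof.  `cf 2 (2 l) = 1 + l + l^2`, `|T| + 1 ≤ l (l+1) + h`, `N ≥ |T| + 1 ≥ l^2 + l + 2` (PAG_all, `T ≠ G`).  Wb, Hf: halves `s1, s2` with `l` members, `|X_1| + |X_2| ≤ |T| + 1 ≤ l (l+1) + h` and `≤ N` (SDG.Kn).  Let `|X_1| ≤ |X_2|` (otherwise exchange the parts): `2 |X_1| ≤ N`, `2 |X_1| ≤ l (l+1) + h`.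
(i) `N ≥ l^2 + 2 l`: Al for `s1`: contradiction.  (ii) `N + 1 ≤ l^2 + 2 l`: `l ≥ 6` (`N = 2^a p ≥ 40`).  Bt: `2 + l (l+1) ≤ 2 |X_1|`.  La for `s1` (second alternative impossible: `4 + 2 l (l-1) > l (l+1) + h`).
`2 |X_1| ≤ l (l+1) + h - 2`: `2 lam X_1 (f i) ≤ 2 l - 4`, `lam X_1 z + 2 ≤ l` on `D = sym s1 f` (SyE); Gt: first alternative impossible; Av2: contradiction.
Otherwise `2 |X_1| = l (l+1) + h` (both even), so `2 |X_2| ≥ l (l+1) + h` and the sum is at most `l (l+1) + h`: equality: EvB. -/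
def St_Ev : Prop :=
  ∀ (G ι : Type) [AddCommGroup G] [Finite G] (a p l : ℕ) (s : Finset ι) (f : ι → G), 5 ≤ l → 2 ^ (a - 1) + 1 ≤ l → ¬ CtxA a p (2 * l) s f

/-- **DrA** (0.7 h; copy of Pool/Agent/SSX/DrO.lean).  SSX.DrO with the weaker hypothesis `2 |X| ≤ l^2 + 2 l` instead of `2 |X| ≤ l (l+1)`.
Proof.  The hypothesis is only used in step (1): `2 |X| = 8 |FS ((u.erase i0).erase i) f| ≥ 8 cf 2 (l - 2)`, `cf 2 (l - 2) = 1 + (l-1)^2/4` and `4 ((l-1)^2/4) ≥ (l-1)^2 - 1`, so `2 |X| ≥ 2 (l-1)^2 + 6 > l^2 + 2 l` (`l^2 - 6 l + 8 > 0` for `l ≥ 5`); `PR` is SSX.PR_all. -/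
def St_DrA : Prop :=
  ∀ (G ι : Type) [AddCommGroup G] [Finite G] (u : Finset ι) (f : ι → G) (i0 : ι), AE u f → Aper (FS u f) → gen u f = ⊤ →
    5 ≤ u.card → i0 ∈ u → (gen (u.erase i0) f).index = 2 → (∀ i ∈ u, gen (u.erase i) f = ⊤ → lam (FS u f) (f i) + 2 ≤ u.card) →
    2 * (FS u f).card ≤ u.card * u.card + 2 * u.card → 2 + u.card * (u.card - 1) ≤ 2 * (FS u f).card →
    2 + u.card * (u.card - 1) + 2 * (FS u f).card ≤ 2 * Nat.card G → False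

/-- **Od** (1.8 h, from Gf1, Gf2, Bt, Gt, Av2, Al, Wb, Hf, DrA; uses SDG.all_Kn, SDG.all_Nm1, SDG.all_Ba1, SSX.PAG_all, SSE.all_SyE; compare Pool/Agent/SSX/OdF.lean).  `t = 2 l - 1`, `l ≥ 6`, `l ≥ h + 1`.
Proof.  `cf 2 (2 l - 1) = 1 + l^2`, `|T| + 1 ≤ l^2 + h`, `N ≥ |T| + 1 ≥ l^2 + 2` (PAG_all).  Wb, Hf: `|s1| = l`, `|s2| = l - 1`, `|X_1| + |X_2| ≤ l^2 + h` and `≤ N`.
(i) `2 |X_2| ≥ l (l-1) + 2 + h`: if `2 |X_2| ≤ N`: Al (`l - 1 ≥ 5`, `(l-1)^2 + 2 (l-1) = l^2 - 1 ≤ N`); otherwise `2 |X_2| ≥ l^2 + 3`, `h ≤ l - 1`.  (ii) so `2 |X_1| ≤ 2 (l^2 + h) - (l (l-1) + 2 + h) = l^2 + l + h - 2`.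
(iii) `N + 1 ≤ l^2 + 2 l`: otherwise Al for `s1` if `2 |X_1| ≤ N`, contradiction with (ii); if `2 |X_1| > N ≥ l^2 + 2 l` also.  (iv) `2 + l (l-1) ≤ 2 |X_1|`: Bt if `2 |X_1| ≤ N`, otherwise `N ≥ l^2 + 2`.
(v) `i ∈ s1`, `gen (s1.erase i) f = ⊤`, `X' = FS (s1.erase i) f`: `lam X_1 (f i) + 2 ≤ l`: `|X'| + lam X_1 (f i) ≤ |X_1|` (SDG.Ba1 (3)); `2 |X'| ≤ N`: Al: `2 |X'| ≥ l (l-1) + 2 + h`, `2 lam ≤ 2 l - 4`; `2 |X'| > N`: `2 lam ≤ l^2 + l + h - 2 - (l^2 + 3) ≤ 2 l - 4`.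
(vi) `gen (s1.erase i) f = ⊤` for all `i ∈ s1`: otherwise it has index 2 (Gf2 (6)), DrA: contradiction (its last hypothesis from `|X_1| + |X_2| ≤ N` and (i)).  So `lam X_1 y + 2 ≤ l` on `D = sym s1 f` (SyE).
(vii) Gt for `s1`: first alternative contradicts (ii): `Gro l D`.  `2 |X_1| ≤ N`: Av2 (`2 |X_1| + 1 ≤ l^2 + 2 l` by (ii), `h ≤ l - 1`).  `2 |X_1| > N`: Av2 for the complement `X_c` (`Helper64.Rho.lam_compl`): `2 |X_c| < N < l^2 + 2 l`, `2 |X_c| = 2 N - 2 |X_1| ≥ 2 |X_2| ≥ l (l-1) + 2`. -/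
def St_Od : Prop :=
  ∀ (G ι : Type) [AddCommGroup G] [Finite G] (a p l : ℕ) (s : Finset ι) (f : ι → G), 6 ≤ l → 2 ^ (a - 1) + 1 ≤ l → ¬ CtxA a p (2 * l - 1) s f

/-- **FinA** (0.3 h, from Ev, Od).  `t = 2 l` (`l ≥ 5`, `2 l ≥ 2 h + 1`, so `l ≥ h + 1`) or `t = 2 l - 1` (`l ≥ 6`, `l ≥ h + 1`), `2 h = 2^a`. -/
def St_FinA : Prop :=
  ∀ (G ι : Type) [AddCommGroup G] [Finite G] (a p : ℕ) (s : Finset ι) (f : ι → G), FA a p G → 3 ≤ a → 2 ^ (a - 1) ≤ 2 * p → 10 ≤ s.card →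
    2 ^ a + 1 ≤ s.card → (∀ i ∈ s, f i ≠ 0) → Cap 2 s f → Aper (FS s f) → gen s f = ⊤ → cf 2 s.card + 2 ^ (a - 1) ≤ (FS s f).card + 1

end Pool.Agent.SZA
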