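import Pool.Agent.SZA.St
import Pool.Agent.SSE.SyE

/-!
# SZA, module Al (helper97): the gain `h` for a half
-/

set_option autoImplicit false

noncomputable section

open Finset Pool.Agent.Helper64.Rho Pool.Agent.SDG Pool.Agent.MDR Pool.Agent.SSC Pool.Agent.SSE Pool.Agent.SSF
open scoped Classical Pointwise

namespace Pool.Agent.SZA

private theorem Al_pow (a : ℕ) (ha : 4 ≤ a) : a * (a + 1) + 2 ≤ 3 * 2 ^ (a - 1) := by
  induction a, ha using Nat.le_induction with
  | base => norm_num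
  | succ n hn ih =>
    obtain ⟨m, rfl⟩ : ∃ m, n = m + 1 := ⟨n - 1, by omega⟩
    rw [Nat.add_sub_cancel] at ih ⊢
    rw [pow_succ]
    nlinarith

private theorem Al_AE {G ι : Type} [AddCommGroup G] {u v : Finset ι} {f : ι → G} (h : AE u f)
    (hv : v ⊆ u) : AE v f := by
  obtain ⟨⟨h1, h2⟩, h3⟩ := h
  exact ⟨⟨fun i hi => h1 i (hv hi), fun x =>
    (card_le_card (filter_subset_filter _ hv)).trans (h2 x)⟩, fun i hi => h3 i (hv hi)⟩

theorem thm_Al : St_Gf1 → St_Gf2 → St_Bs → St_Sgn → St_B5 → St_Bt → St_Dp → St_Gt → St_Av1 → St_Al := by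
  intro _ _ hBs hSgn hB5 hBt hDp hGt hAv1 G ι _ _ a p u f hF ha hh
  obtain ⟨l, hl⟩ : ∃ l, l = u.card := ⟨_, rfl⟩
  induction l using Nat.strong_induction_on generalizing u with
  | _ l ih =>
  intro hl5 hAE hA hg hN hN2
  obtain ⟨b1, b2, b3, b4, b5, b6, b7⟩ := all_Ba1 G ι f
  obtain ⟨h, hhd⟩ : ∃ h, h = 2 ^ (a - 1) := ⟨_, rfl⟩
  have hpa : 2 ^ a = 2 * h := by
    rw [hhd]
    obtain ⟨b, rfl⟩ : ∃ b, a = b + 1 := ⟨a - 1, by omega⟩
    rw [Nat.add_sub_cancel, pow_succ]
    ring
  have hev : ∃ h2, h = 2 * h2 := by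
    refine ⟨2 ^ (a - 2), ?_⟩
    rw [hhd]
    obtain ⟨b, rfl⟩ : ∃ b, a = b + 2 := ⟨a - 2, by omega⟩
    have h1 : b + 2 - 1 = b + 1 := by omega
    have h2 : b + 2 - 2 = b := by omega
    rw [h1, h2, pow_succ]
    ring
  obtain ⟨h2, hh2⟩ := hev
  obtain ⟨q, hq⟩ : ∃ q, l * (l + 1) = 2 * q := by
    obtain ⟨q, hq⟩ := Nat.even_mul_succ_self l
    exact ⟨q, by omega⟩
  obtain ⟨x, hx⟩ : ∃ x, x = (FS u f).card := ⟨_, rfl⟩
  rw [← hl, ← hhd, ← hx]
  rw [← hl] at hl5 hN2
  rw [← hx] at hN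
  by_contra hcon
  push Not at hcon
  have hX : 2 * x ≤ l * (l + 1) + h := by omega
  by_cases hc1 : 4 ≤ a ∧ l ≤ h
  · obtain ⟨ha4, hlh⟩ := hc1
    obtain ⟨b, hbu, hbc, -⟩ := hBs.2.1 G ι a p u f hF hg
    have hal : a ≤ l := by
      rw [hl, ← hbc]
      exact card_le_card hbu
    obtain ⟨s, hs⟩ : ∃ s, l = a + s := ⟨l - a, by omega⟩
    have h3 := hSgn G ι a p s u f hF (by omega) hh (fun i hi => hAE.2 i hi) hA hg (by omega)
    rw [← hx, hpa] at h3
    have h4 := Al_pow a ha4
    rw [← hhd] at h4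
    have h5 : s * (s - 1) + s = s * s := by
      rcases s with _ | s
      · rfl
      · rw [Nat.add_sub_cancel]; ring
    obtain ⟨r, hr⟩ : ∃ r, h = l + r := ⟨h - l, by omega⟩
    subst hs
    nlinarith [Nat.zero_le (s * r)]
  · by_cases hc2 : a = 3 ∧ l = 5
    · obtain ⟨rfl, rfl⟩ := hc2
      have h3 := hB5 G ι p u f hF hAE hA hg hl.symm
      rw [← hx] at h3
      have h4 : h = 4 := by rw [hhd]; norm_num
      omega
    · have hlh : h + 1 ≤ l := by
        by_contra h3
        apply hc1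
        refine ⟨?_, by omega⟩
        by_contra h4
        have h5 : a = 3 := by omega
        rw [h5] at hhd
        norm_num at hhd
        omega
      have hl6 : 6 ≤ l := by
        by_contra h3
        have h4 : l = 5 := by omega
        apply hc2
        refine ⟨?_, h4⟩
        by_contra h5
        have h6 : 2 ^ 3 ≤ 2 ^ (a - 1) := Nat.pow_le_pow_right (by norm_num) (by omega)
        rw [← hhd] at h6
        omega
      have hdr : ∀ i ∈ u, gen (u.erase i) f = ⊤ := by
        intro i hi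
        by_contra h3
        have h4 := hDp G ι a p u f i hF ha (by omega) hAE hA hg (by rw [← hx]; exact hN) hi h3
        rw [← hl, ← hx] at h4
        obtain ⟨m, rfl⟩ : ∃ m, l = m + 1 := ⟨l - 1, by omega⟩
        rw [Nat.add_sub_cancel] at h4
        nlinarith
      have hlam : ∀ i ∈ u, lam (FS u f) (f i) ≤ l - 1 := by
        intro i hi
        have h1 : (u.erase i).card = l - 1 := by rw [card_erase_of_mem hi, hl]
        have h2' := b3 u i hi
        rw [← hx] at h2'
        have h3 := ih (l - 1) (by omega) (u.erase i) h1.symm (by omega) (Al_AE hAE (erase_subset _ _))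
          (b2 u (u.erase i) (erase_subset _ _) hA) (hdr i hi) (by omega) (by
            rw [h1]
            obtain ⟨m, rfl⟩ : ∃ m, l = m + 1 := ⟨l - 1, by omega⟩
            rw [Nat.add_sub_cancel]
            nlinarith)
        rw [h1, ← hhd] at h3
        obtain ⟨m, rfl⟩ : ∃ m, l = m + 1 := ⟨l - 1, by omega⟩
        rw [Nat.add_sub_cancel] at h3 ⊢
        have h5 : (m + 1) * (m + 1 + 1) = m * (m + 1) + 2 * m + 2 := by ring
        omega
      obtain ⟨s1, s2, s3, s4, s5, s6, s7⟩ := thm_SyE G ι u f hAE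
      have hD := s5 (FS u f) (l - 1) hlam
      have hB := hBt G ι a p u f hF (by omega) (by omega) hAE hA hg (by rw [← hx]; exact hN)
      rw [← hl, ← hx] at hB
      obtain ⟨e, he⟩ : ∃ e, 2 * x = 2 + l * (l + 1) + 2 * e := ⟨x - 1 - q, by omega⟩
      rcases hGt G ι a p u f hF ha hAE hA hg (by omega) (by
        rw [← hl]
        obtain ⟨m, rfl⟩ : ∃ m, l = m + 1 := ⟨l - 1, by omega⟩
        rw [Nat.add_sub_cancel]
        nlinarith) with h3 | h3
      · rw [← hl, ← hx, ← hhd] at h3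
        have h4 : 0 < h := by rw [hhd]; positivity
        omega
      · rw [← hl] at h3
        refine hAv1 G (FS u f) (sym u f) l e s2 hl6 (fun y hy => ?_) (by rw [s1, hl]) (by rw [← hx]; exact he) (by omega)
          hN2 h3
        have := hD y hy
        omega

end Pool.Agent.SZA
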