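import Pool.Agent.SZA.Pre
import Pool.Agent.SZA.Al

/-!
# SZA, assembly (helper97): the groups `Z_2^a × Z_p`
-/

set_option autoImplicit false

noncomputable section

open Finset Pool.Agent.Helper64.Rho Pool.Agent.SDG
open scoped Classical Pointwise

namespace Pool.Agent.SZA

theorem all_Al : St_Al := thm_Al all_Gf1 all_Gf2 all_Bs all_Sgn all_B5 all_Bt all_Dp all_Gt thm_Av1

theorem all_FinA : St_FinA := fin_of_Al all_Al

end Pool.Agent.SZA
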