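import Mathlib
import Pool.Agent.SZA.St
import Pool.Agent.SSC.Main

/-!
# SZA, module Av1: uses SSC.mdr_Av0; compare Pool/Agent/SSX/A1X.lean
-/

set_option autoImplicit false

noncomputable section

open Finset Pool.Agent.Helper64.Rho Pool.Agent.SDG Pool.Agent.MDR Pool.Agent.SSC Pool.Agent.SSE Pool.Agent.SSF
open scoped Classical Pointwise

namespace Pool.Agent.SZA

/-- lower bound for the sum of the levels, first alternative -/
private lemma Av1_sum (K a : ℕ) (g : ℕ → ℕ) (h0 : 1 ≤ g 0) (h : ∀ i, 1 ≤ i → i ≤ a → i * K ≤ g i + 1 ∨ (i = 2 ∧ 2 * K ≤ g i + 2)) :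
    K * a * (a + 1) + 2 ≤ 2 * ∑ i ∈ range (a + 1), g i + 2 * a + (if 2 ≤ a then 2 else 0) := by
  induction a with
  | zero => simp; omega
  | succ a ih =>
    rw [sum_range_succ]
    have h1 := ih (fun i hi hi2 => h i hi (by omega))
    have h2 := h (a + 1) (by omega) le_rfl
    have e : K * (a + 1) * (a + 1 + 1) = K * a * (a + 1) + 2 * ((a + 1) * K) := by ring
    rw [e]
    generalize K * a * (a + 1) = P at *
    generalize (∑ x ∈ range (a + 1), g x) = S at *
    rcases h2 with h2 | ⟨h2, h3⟩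
    · generalize (a + 1) * K = Q at *
      split_ifs at * <;> omega
    · obtain rfl : a = 1 := by omega
      have e2 : g (1 + 1) = g 2 := rfl
      generalize g (1 + 1) = y at *
      have e3 : (1 + 1) * K = 2 * K := by ring
      simp only [e3] at *
      split_ifs at * <;> omega

/-- lower bound for the sum of the levels, second alternative -/
private lemma Av1_sum2 (K a L : ℕ) (g : ℕ → ℕ) (ha : 1 ≤ a) (h0 : 1 ≤ g 0) (h1 : L ≤ g 1) (h : ∀ i, 2 ≤ i → i ≤ a → i * K ≤ g i) :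
    K * a * (a + 1) + 2 * L + 2 ≤ 2 * ∑ i ∈ range (a + 1), g i + 2 * K := by
  induction a, ha using Nat.le_induction with
  | base => simp [sum_range_succ]; omega
  | succ a ha ih =>
    rw [sum_range_succ]
    have h1 := ih (fun i hi hi2 => h i hi (by omega))
    have h2 := h (a + 1) (by omega) le_rfl
    have e : K * (a + 1) * (a + 1 + 1) = K * a * (a + 1) + 2 * ((a + 1) * K) := by ring
    rw [e]
    generalize K * a * (a + 1) = P at *
    generalize (∑ x ∈ range (a + 1), g x) = S at *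
    generalize (a + 1) * K = Q at *
    omega

private lemma Av1_it1 {G : Type} [AddCommGroup G] (D : Finset G) : it D 1 = D := by
  show ({0} : Finset G) + D = D
  rw [Finset.singleton_add]
  simp

/-- the even case -/
private lemma Av1_even (m e T S g : ℤ) (hm : 3 ≤ m) (he : 0 ≤ e) (he2 : e + 2 ≤ m) (hT : T = 4 ∧ m ≤ 4 ∨ T = m)
    (hS : (2 * m + 1) * m * (m + 1) - m ≤ S) (hg : 4 * m ^ 2 + 4 * m - T ≤ g)
    (hAv : (2 * m - 1) * S + (2 + e) * g ≤ (2 * m ^ 2 + m + 1 + e) ^ 2) : False := by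
  have h1 : (2 * m - 1) * ((2 * m + 1) * m * (m + 1) - m) ≤ (2 * m - 1) * S :=
    mul_le_mul_of_nonneg_left hS (by linarith)
  have h2 : (2 + e) * (4 * m ^ 2 + 4 * m - T) ≤ (2 + e) * g := mul_le_mul_of_nonneg_left hg (by linarith)
  have key : 6 * m - 1 + e * (2 * m - 2) - e ^ 2 - T * (e + 2) ≤ 0 := by nlinarith
  have h3 : 0 ≤ e * (m - 2 - e) := mul_nonneg he (by linarith)
  rcases hT with ⟨rfl, hm4⟩ | rfl
  · have hme : 0 ≤ e * (m - 3) := mul_nonneg he (by linarith)
    nlinarith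
  · nlinarith

/-- the odd case -/
private lemma Av1_odd (m e T S g : ℤ) (hm : 3 ≤ m) (he : 0 ≤ e) (he2 : e + 1 ≤ m) (hT : T = m + 1)
    (hS : (2 * m + 2) * m * (m + 1) - m ≤ S) (hg : 4 * m ^ 2 + 8 * m + 3 - T ≤ g)
    (hAv : (2 * m) * S + (m + 2 + e) * g ≤ (2 * m ^ 2 + 3 * m + 2 + e) ^ 2) : False := by
  have h1 : (2 * m) * ((2 * m + 2) * m * (m + 1) - m) ≤ (2 * m) * S :=
    mul_le_mul_of_nonneg_left hS (by linarith)
  have h2 : (m + 2 + e) * (4 * m ^ 2 + 8 * m + 3 - T) ≤ (m + 2 + e) * g := mul_le_mul_of_nonneg_left hg (by linarith)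
  have key : m ^ 2 + 7 * m + 2 + e * (2 * m - 1) - e ^ 2 - T * (m + 2 + e) ≤ 0 := by nlinarith
  subst hT
  have h3 : 0 ≤ e * (m - 1 - e) := mul_nonneg he (by linarith)
  nlinarith

/-- the second alternative -/
private lemma Av1_kap (c x S g : ℤ) (hc : 4 ≤ c) (hx1 : 9 * c ^ 2 + 3 * c + 2 ≤ 2 * x) (hx2 : 2 * x + 1 ≤ 9 * c ^ 2 + 6 * c)
    (hS : 4 * c * c * (c + 1) + 6 * c + 2 - 8 * c ≤ S) (hg : 8 * c * (c + 1) ≤ g)
    (hAv : (3 * c - 1) * S + (x - (c + 1) * (3 * c - 1)) * g ≤ x ^ 2) : False := by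
  have h1 : (3 * c - 1) * (4 * c * c * (c + 1) + 6 * c + 2 - 8 * c) ≤ (3 * c - 1) * S :=
    mul_le_mul_of_nonneg_left hS (by linarith)
  have h2 : (x - (c + 1) * (3 * c - 1)) * (8 * c * (c + 1)) ≤ (x - (c + 1) * (3 * c - 1)) * g :=
    mul_le_mul_of_nonneg_left hg (by nlinarith)
  have key : x * (8 * c ^ 2 + 8 * c - x) - 12 * c ^ 4 - 32 * c ^ 3 - 18 * c ^ 2 + 16 * c - 2 ≤ 0 := by nlinarith
  -- concave in `x`
  have h3 : 0 ≤ (2 * x - (9 * c ^ 2 + 3 * c + 2)) * (9 * c ^ 2 + 6 * c - 1 - 2 * x) :=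
    mul_nonneg (by linarith) (by linarith)
  obtain ⟨d, rfl⟩ : ∃ d, c = 4 + d := ⟨c - 4, by ring⟩
  obtain ⟨y, rfl⟩ : ∃ y, x = y := ⟨x, rfl⟩
  have hd : 0 ≤ d := by linarith
  have hd2 : 0 ≤ d ^ 2 := by positivity
  have hd3 : 0 ≤ d ^ 3 := by positivity
  have hd4 : 0 ≤ d ^ 4 := by positivity
  have hp1 : 0 ≤ (2 * x - (9 * (4 + d) ^ 2 + 3 * (4 + d) + 2)) * d := mul_nonneg (by linarith) hd
  have hp2 : 0 ≤ (2 * x - (9 * (4 + d) ^ 2 + 3 * (4 + d) + 2)) * d ^ 2 := mul_nonneg (by linarith) hd2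
  have hp3 : 0 ≤ (9 * (4 + d) ^ 2 + 6 * (4 + d) - 1 - 2 * x) * d := mul_nonneg (by linarith) hd
  have hp4 : 0 ≤ (9 * (4 + d) ^ 2 + 6 * (4 + d) - 1 - 2 * x) * d ^ 2 := mul_nonneg (by linarith) hd2
  nlinarith

/-- **Av1** -/
theorem thm_Av1 : St_Av1 := by
  intro G _ _ X D l e h0 hl hlam hD hX he hN hG
  obtain ⟨j, rfl⟩ : ∃ j, l = j + 1 := ⟨l - 1, by omega⟩
  have hlam' : ∀ y ∈ D, lam X y ≤ j := fun y hy => by have := hlam y hy; omega
  have h00 : 1 ≤ (it D 0).card := by simp [it]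
  have hAv' := fun k => Pool.Agent.SSC.mdr_Av0 G X D j k h0 hlam'
  have h11 : (it D 1).card = 2 * (j + 1) + 1 := by rw [Av1_it1]; exact hD
  generalize hx : X.card = x at *
  generalize hNN : Nat.card G = N at *
  rcases hG with hG | ⟨c, hc4, hc2, hlc, hG⟩
  · rcases Nat.even_or_odd' (j + 1) with ⟨m, hm | hm⟩
    · -- `l = 2 m`
      obtain ⟨n, rfl⟩ : ∃ n, m = n + 1 := ⟨m - 1, by omega⟩
      obtain rfl : j = 2 * n + 1 := by omega
      obtain ⟨T, hT4, hT3, hTT⟩ : ∃ T, 4 ≤ T ∧ ((T = 4 ∧ n + 1 ≤ 4) ∨ T = n + 1) ∧ ∀ τ, (τ ≤ 4 ∨ 2 * τ ≤ 2 * n + 1 + 1 + 1) → τ ≤ T := by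
        by_cases hn : n + 1 ≤ 4
        · exact ⟨4, le_rfl, Or.inl ⟨rfl, hn⟩, fun τ hτ => by omega⟩
        · exact ⟨n + 1, by omega, Or.inr rfl, fun τ hτ => by omega⟩
      have hT5 : T ≤ n + 2 := by omega
      have eN : (2 * n + 1 + 1) * (2 * n + 1 + 1) + 2 * (2 * n + 1 + 1) = 2 * (2 * n * n) + 12 * n + 8 := by ring
      rw [eN] at hN
      have eX : 2 + (2 * n + 1 + 1) * (2 * n + 1 + 1 + 1) + 2 * e = 2 * (2 * n * n + 5 * n + 4 + e) := by ring
      rw [eX] at hX
      have hx' : x = 2 * n * n + 5 * n + 4 + e := by omega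
      have hlev : ∀ i, 1 ≤ i → i ≤ n + 1 → i * (4 * n + 6) ≤ (it D i).card + 1 ∨ (i = 2 ∧ 2 * (4 * n + 6) ≤ (it D i).card + 2) := by
        intro i hi hin
        rcases hG i hi with ⟨τ, h1, h2⟩ | h1 | ⟨h1, h2⟩
        · have h3 := hTT τ h1
          left
          have h4 : i * (4 * n + 6) ≤ (n + 1) * (4 * n + 6) := Nat.mul_le_mul_right _ hin
          have h5 : (n + 1) * (4 * n + 6) = 2 * (2 * n * n) + 10 * n + 6 := by ring
          omega
        · left
          have e : 2 * (2 * n + 1 + 1) + 2 = 4 * n + 6 := by ring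
          rw [e] at h1
          exact h1
        · right
          exact ⟨h1, by omega⟩
      have hS := Av1_sum (4 * n + 6) (n + 1) (fun i => (it D i).card) h00 hlev
      have htop : 2 * (2 * n * n) + 12 * n + 8 ≤ (it D (n + 1 + 1)).card + T := by
        rcases hG (n + 1 + 1) (by omega) with ⟨τ, h1, h2⟩ | h1 | ⟨h1, h2⟩
        · have h3 := hTT τ h1
          omega
        · have h5 : (n + 1 + 1) * (2 * (2 * n + 1 + 1) + 2) = 2 * (2 * n * n) + 14 * n + 12 := by ring
          omega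
        · omega
      have e0 : (n + 1 + 1) * (2 * n + 1) = 2 * n * n + 5 * n + 2 := by ring
      have hk := hAv' (n + 1 + 1) (by omega)
      have e4 : x - (n + 1 + 1) * (2 * n + 1) = 2 + e := by omega
      rw [e4] at hk
      have hif : (if 2 ≤ n + 1 then 2 else 0 : ℕ) ≤ 2 := by split_ifs <;> omega
      generalize (if 2 ≤ n + 1 then 2 else 0 : ℕ) = w at *
      have hn2 : 2 ≤ n := by omega
      have heb : e + 2 ≤ n + 1 := by omega
      generalize (∑ i ∈ range (n + 1 + 1), (it D i).card) = S0 at *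
      generalize (it D (n + 1 + 1)).card = g2 at *
      clear hlev hG hAv' hTT hlam hlam' h11
      have hTz : ((T : ℤ) = 4 ∧ ((n : ℤ) + 1) ≤ 4) ∨ (T : ℤ) = (n : ℤ) + 1 := by
        rcases hT3 with ⟨h1, h2⟩ | h1
        · left
          exact ⟨by exact_mod_cast h1, by exact_mod_cast h2⟩
        · right
          exact_mod_cast h1
      zify at hk hS htop hT4 hx' hif hn2 heb
      have he0 : (0 : ℤ) ≤ e := by positivity
      refine Av1_even (n + 1) e T S0 g2 (by linarith) he0 (by linarith) hTz (by nlinarith) (by nlinarith) ?_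
      have e5 : (2 * ((n : ℤ) + 1) ^ 2 + (n + 1) + 1 + e) = x := by rw [hx']; ring
      rw [e5]
      nlinarith
    · -- `l = 2 m + 1`
      obtain rfl : j = 2 * m := by omega
      have hm3 : 3 ≤ m := by omega
      have hTT : ∀ τ, (τ ≤ 4 ∨ 2 * τ ≤ 2 * m + 1 + 1) → τ ≤ m + 1 := fun τ hτ => by omega
      have eN : (2 * m + 1) * (2 * m + 1) + 2 * (2 * m + 1) = 2 * (2 * m * m) + 8 * m + 3 := by ring
      rw [eN] at hN
      have eX : 2 + (2 * m + 1) * (2 * m + 1 + 1) + 2 * e = 2 * (2 * m * m + 3 * m + 2 + e) := by ring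
      rw [eX] at hX
      have hx' : x = 2 * m * m + 3 * m + 2 + e := by omega
      have hlev : ∀ i, 1 ≤ i → i ≤ m → i * (4 * m + 4) ≤ (it D i).card + 1 ∨ (i = 2 ∧ 2 * (4 * m + 4) ≤ (it D i).card + 2) := by
        intro i hi hin
        rcases hG i hi with ⟨τ, h1, h2⟩ | h1 | ⟨h1, h2⟩
        · have h3 := hTT τ h1
          left
          have h4 : i * (4 * m + 4) ≤ m * (4 * m + 4) := Nat.mul_le_mul_right _ hin
          have h5 : m * (4 * m + 4) = 2 * (2 * m * m) + 4 * m := by ring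
          omega
        · left
          have e : 2 * (2 * m + 1) + 2 = 4 * m + 4 := by ring
          rw [e] at h1
          exact h1
        · right
          exact ⟨h1, by omega⟩
      have hS := Av1_sum (4 * m + 4) m (fun i => (it D i).card) h00 hlev
      have htop : 2 * (2 * m * m) + 8 * m + 3 ≤ (it D (m + 1)).card + (m + 1) := by
        rcases hG (m + 1) (by omega) with ⟨τ, h1, h2⟩ | h1 | ⟨h1, h2⟩
        · have h3 := hTT τ h1
          omega
        · have h5 : (m + 1) * (2 * (2 * m + 1) + 2) = 2 * (2 * m * m) + 8 * m + 4 := by ring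
          omega
        · omega
      have e0 : (m + 1) * (2 * m) = 2 * m * m + 2 * m := by ring
      have hk := hAv' (m + 1) (by omega)
      have e4 : x - (m + 1) * (2 * m) = m + 2 + e := by omega
      rw [e4] at hk
      have hif : (if 2 ≤ m then 2 else 0 : ℕ) ≤ 2 := by split_ifs <;> omega
      generalize (if 2 ≤ m then 2 else 0 : ℕ) = w at *
      have heb : e + 1 ≤ m := by omega
      generalize (∑ i ∈ range (m + 1), (it D i).card) = S0 at *
      generalize (it D (m + 1)).card = g2 at *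
      clear hlev hG hAv' hTT hlam hlam' h11
      zify at hk hS htop hx' hif hm3 heb
      have he0 : (0 : ℤ) ≤ e := by positivity
      refine Av1_odd m e (m + 1) S0 g2 (by linarith) he0 (by linarith) rfl (by nlinarith) (by nlinarith) ?_
      have e5 : (2 * (m : ℤ) ^ 2 + 3 * m + 2 + e) = x := by rw [hx']; ring
      rw [e5]
      nlinarith
  · -- second alternative
    obtain ⟨b, rfl⟩ : ∃ b, c = b + 1 := ⟨c - 1, by omega⟩
    obtain rfl : j = 3 * b + 2 := by omega
    have eN : (3 * b + 2 + 1) * (3 * b + 2 + 1) + 2 * (3 * b + 2 + 1) = 9 * (b * b) + 24 * b + 15 := by ring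
    rw [eN] at hN
    have eX : 2 + (3 * b + 2 + 1) * (3 * b + 2 + 1 + 1) + 2 * e = 9 * (b * b) + 21 * b + 14 + 2 * e := by ring
    rw [eX] at hX
    have hbb : 3 * b ≤ b * b := Nat.mul_le_mul_right _ (by omega)
    have hlev : ∀ i, 2 ≤ i → i ≤ b + 1 + 1 → i * (8 * (b + 1)) ≤ (it D i).card := by
      intro i hi hin
      rcases hG i hi with h1 | h1
      · have h4 : i * (8 * (b + 1)) ≤ (b + 1 + 1) * (8 * (b + 1)) := Nat.mul_le_mul_right _ hin
        have h5 : (b + 1 + 1) * (8 * (b + 1)) = 8 * (b * b) + 24 * b + 16 := by ring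
        omega
      · have h5 : 8 * (b + 1) * i = i * (8 * (b + 1)) := by ring
        rw [h5] at h1
        exact h1
    have hS := Av1_sum2 (8 * (b + 1)) (b + 1) (2 * (3 * b + 2 + 1) + 1) (fun i => (it D i).card) (by omega) h00 (le_of_eq h11.symm)
      (fun i hi hin => hlev i hi (by omega))
    have htop := hlev (b + 1 + 1) (by omega) le_rfl
    have e0 : (b + 1 + 1) * (3 * b + 2) = 3 * (b * b) + 8 * b + 4 := by ring
    have hle : (b + 1 + 1) * (3 * b + 2) ≤ x := by omega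
    have hk := hAv' (b + 1 + 1) hle
    have hb3 : 3 ≤ b := by omega
    generalize (∑ i ∈ range (b + 1 + 1), (it D i).card) = S0 at *
    generalize (it D (b + 1 + 1)).card = g2 at *
    clear hlev hG hAv' hlam hlam' h11
    zify [hle] at hk hS htop hb3 hX he
    have he0 : (0 : ℤ) ≤ e := by positivity
    refine Av1_kap (b + 1) x S0 g2 (by linarith) (by nlinarith) (by nlinarith) (by nlinarith) (by nlinarith) ?_
    nlinarith

end Pool.Agent.SZA
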