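import Mathlib
import Pool.Agent.SSC.Main
import Pool.Agent.SZA.St

set_option autoImplicit false

noncomputable section

open Finset Pool.Agent.Helper64.Rho Pool.Agent.SDG Pool.Agent.MDR Pool.Agent.SSC Pool.Agent.SSE Pool.Agent.SSF
open scoped Classical Pointwise

namespace Pool.Agent.SZA

private lemma Av2_sum (K a : ℕ) (g : ℕ → ℕ) (h0 : 1 ≤ g 0)
    (h : ∀ i, 1 ≤ i → i ≤ a → i * K ≤ g i + 1 ∨ (i = 2 ∧ i * K ≤ g i + 2)) :
    K * a * (a + 1) + 2 ≤ 2 * ∑ i ∈ range (a + 1), g i + 2 * a + (if 2 ≤ a then 2 else 0) := by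
  induction a with
  | zero => simp; omega
  | succ a ih =>
    rw [sum_range_succ]
    have h1 := ih (fun i hi hi2 => h i hi (by omega))
    have h2 := h (a + 1) (by omega) le_rfl
    have e1 : K * (a + 1) * (a + 1 + 1) = K * a * (a + 1) + 2 * ((a + 1) * K) := by ring
    rw [e1]
    rcases h2 with h2 | ⟨h3, h2⟩
    · split_ifs at h1 ⊢ <;> omega
    · have ha : a = 1 := by omega
      subst ha
      simp at h1 h2 ⊢
      omega

private lemma Av2_evenZ (m e S g N T : ℤ) (hm : 3 ≤ m) (he1 : -(2 * m) ≤ e) (he2 : e ≤ m - 2)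
    (hT : (T = m ∧ 4 ≤ m) ∨ (T = 4 ∧ m = 3))
    (hS : (m - 1) * (2 * m ^ 2 + m - 1) ≤ S) (hg : 4 * m ^ 2 + 2 * m - 1 ≤ g ∨ N ≤ g + T)
    (hN1 : 4 * m ^ 2 + 2 ≤ N) (hN2 : 2 * (2 * m ^ 2 + m + 1 + e) ≤ N)
    (hAv : (2 * m - 2) * S + (3 * m + 1 + e) * g ≤ (2 * m ^ 2 + m + 1 + e) ^ 2) : False := by
  have h1 : (2 * m - 2) * ((m - 1) * (2 * m ^ 2 + m - 1)) ≤ (2 * m - 2) * S :=
    mul_le_mul_of_nonneg_left hS (by linarith)
  have hp : 0 ≤ 3 * m + 1 + e := by linarith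
  obtain ⟨n, rfl⟩ : ∃ n, m = 3 + n := ⟨m - 3, by ring⟩
  have hn : 0 ≤ n := by linarith
  have hn2 : 0 ≤ n ^ 2 := by positivity
  have hn3 : 0 ≤ n ^ 3 := by positivity
  rcases hg with hg | hg
  · have h2 : (3 * (3 + n) + 1 + e) * (4 * (3 + n) ^ 2 + 2 * (3 + n) - 1) ≤ (3 * (3 + n) + 1 + e) * g :=
      mul_le_mul_of_nonneg_left hg hp
    have h3 : 0 ≤ (e + 2 * (3 + n)) * ((3 + n) - 2 - e) := mul_nonneg (by linarith) (by linarith)
    nlinarith
  · by_cases hc : e ≤ - (3 + n)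
    · have h2 : (3 * (3 + n) + 1 + e) * (4 * (3 + n) ^ 2 + 2 - T) ≤ (3 * (3 + n) + 1 + e) * g :=
        mul_le_mul_of_nonneg_left (by linarith) hp
      have h3 : 0 ≤ (e + 2 * (3 + n)) * (- (3 + n) - e) := mul_nonneg (by linarith) (by linarith)
      rcases hT with ⟨rfl, h4⟩ | ⟨rfl, h4⟩
      · nlinarith
      · have : n = 0 := by linarith
        subst this
        nlinarith
    · rw [not_le] at hc
      have h2 : (3 * (3 + n) + 1 + e) * (2 * (2 * (3 + n) ^ 2 + (3 + n) + 1 + e) - T) ≤ (3 * (3 + n) + 1 + e) * g :=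
        mul_le_mul_of_nonneg_left (by linarith) hp
      rcases hT with ⟨rfl, h4⟩ | ⟨rfl, h4⟩
      · have h3 : 0 ≤ (e + (3 + n)) * (e + (3 + n)) := mul_nonneg (by linarith) (by linarith)
        have h5 : 0 ≤ (e + (3 + n)) * n := mul_nonneg (by linarith) (by linarith)
        nlinarith
      · have : n = 0 := by linarith
        subst this
        nlinarith

private lemma Av2_oddZ (m e S g N T : ℤ) (hm : 3 ≤ m) (he1 : -(2 * m + 1) ≤ e) (he2 : e ≤ m - 1)
    (hT : T = m + 1)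
    (hS : (m - 1) * (2 * m ^ 2 + 2 * m - 1) ≤ S) (hg : 4 * m ^ 2 + 4 * m - 1 ≤ g ∨ N ≤ g + T)
    (hN1 : 4 * m ^ 2 + 4 * m + 3 ≤ N) (hN2 : 2 * (2 * m ^ 2 + 3 * m + 2 + e) ≤ N)
    (hAv : (2 * m - 1) * S + (4 * m + 2 + e) * g ≤ (2 * m ^ 2 + 3 * m + 2 + e) ^ 2) : False := by
  subst hT
  have h1 : (2 * m - 1) * ((m - 1) * (2 * m ^ 2 + 2 * m - 1)) ≤ (2 * m - 1) * S :=
    mul_le_mul_of_nonneg_left hS (by linarith)
  have hp : 0 ≤ 4 * m + 2 + e := by linarith
  obtain ⟨n, rfl⟩ : ∃ n, m = 3 + n := ⟨m - 3, by ring⟩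
  have hn : 0 ≤ n := by linarith
  have hn2 : 0 ≤ n ^ 2 := by positivity
  have hn3 : 0 ≤ n ^ 3 := by positivity
  rcases hg with hg | hg
  · have h2 : (4 * (3 + n) + 2 + e) * (4 * (3 + n) ^ 2 + 4 * (3 + n) - 1) ≤ (4 * (3 + n) + 2 + e) * g :=
      mul_le_mul_of_nonneg_left hg hp
    have h3 : 0 ≤ (e + 2 * (3 + n) + 1) * ((3 + n) - 1 - e) := mul_nonneg (by linarith) (by linarith)
    nlinarith
  · by_cases hc : e ≤ - (3 + n)
    · have h2 : (4 * (3 + n) + 2 + e) * (4 * (3 + n) ^ 2 + 4 * (3 + n) + 3 - ((3 + n) + 1)) ≤ (4 * (3 + n) + 2 + e) * g :=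
        mul_le_mul_of_nonneg_left (by linarith) hp
      have h3 : 0 ≤ (e + 2 * (3 + n) + 1) * (- (3 + n) - e) := mul_nonneg (by linarith) (by linarith)
      nlinarith
    · rw [not_le] at hc
      have h2 : (4 * (3 + n) + 2 + e) * (2 * (2 * (3 + n) ^ 2 + 3 * (3 + n) + 2 + e) - ((3 + n) + 1)) ≤ (4 * (3 + n) + 2 + e) * g :=
        mul_le_mul_of_nonneg_left (by linarith) hp
      have h3 : 0 ≤ (e + (3 + n)) * (e + (3 + n)) := mul_nonneg (by linarith) (by linarith)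
      have h5 : 0 ≤ (e + (3 + n)) * n := mul_nonneg (by linarith) (by linarith)
      nlinarith

private lemma Av2_kapZ (κ x S g : ℤ) (hm : 4 ≤ κ) (hx1 : 9 * κ ^ 2 - 3 * κ + 2 ≤ 2 * x) (hx2 : 2 * x + 1 ≤ 9 * κ ^ 2 + 6 * κ)
    (hS : 2 - 2 * κ + 4 * κ ^ 3 - 4 * κ ^ 2 ≤ S) (hg : 8 * κ ^ 2 ≤ g)
    (hAv : (3 * κ - 2) * S + (x - κ * (3 * κ - 2)) * g ≤ x ^ 2) : False := by
  have h1 : (3 * κ - 2) * (2 - 2 * κ + 4 * κ ^ 3 - 4 * κ ^ 2) ≤ (3 * κ - 2) * S :=
    mul_le_mul_of_nonneg_left hS (by linarith)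
  have hp : 0 ≤ x - κ * (3 * κ - 2) := by nlinarith
  have h2 : (x - κ * (3 * κ - 2)) * (8 * κ ^ 2) ≤ (x - κ * (3 * κ - 2)) * g :=
    mul_le_mul_of_nonneg_left hg hp
  have h3 : 0 ≤ (2 * x - (9 * κ ^ 2 - 3 * κ + 2)) * (9 * κ ^ 2 + 6 * κ - 1 - 2 * x) :=
    mul_nonneg (by linarith) (by linarith)
  have h4 : 0 ≤ (9 * κ ^ 2 + 6 * κ - 1 - 2 * x) * κ := mul_nonneg (by linarith) (by linarith)
  obtain ⟨n, rfl⟩ : ∃ n, κ = 4 + n := ⟨κ - 4, by ring⟩
  have hn : 0 ≤ n := by linarith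
  have hn2 : 0 ≤ n ^ 2 := by positivity
  have hn3 : 0 ≤ n ^ 3 := by positivity
  have hn4 : 0 ≤ n ^ 4 := by positivity
  nlinarith

/-- second alternative: the sum of the levels -/
private lemma Av2_sum2 (κ a : ℕ) (g : ℕ → ℕ) (h0 : 1 ≤ g 0) (h1 : 6 * κ + 1 ≤ g 1)
    (h : ∀ i, 2 ≤ i → i ≤ a + 1 → 8 * κ * i ≤ g i) :
    4 * κ * ((a + 1) * (a + 2)) + 2 ≤ ∑ i ∈ range (a + 2), g i + 2 * κ := by
  induction a with
  | zero =>
    rw [sum_range_succ, sum_range_succ, sum_range_zero]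
    omega
  | succ a ih =>
    rw [sum_range_succ]
    have h2 := ih (fun i hi hi2 => h i hi (by omega))
    have h3 := h (a + 2) (by omega) (by omega)
    have e1 : 4 * κ * ((a + 1 + 1) * (a + 1 + 2)) = 4 * κ * ((a + 1) * (a + 2)) + 8 * κ * (a + 2) := by ring
    rw [e1]
    omega

/-- **Av2** -/
theorem thm_Av2 : St_Av2 := by
  intro G _ _ X D l h0 hl hlam hD hX1 hX2 hN1 hN2 hG
  have hlam' : ∀ y ∈ D, lam X y ≤ l - 2 := fun y hy => by have := hlam y hy; omega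
  have h00 : (it D 0).card = 1 := by simp [it]
  have h01 : (it D 1).card = 2 * l + 1 := by
    rw [← hD]
    simp [it]
  have hAv' := fun k => SSC.mdr_Av0 G X D (l - 2) k h0 hlam'
  unfold Gro at hG
  generalize X.card = x at *
  generalize Nat.card G = N at *
  rcases hG with hG | ⟨κ, hκ4, -, rfl, hG⟩
  · rcases Nat.even_or_odd' l with ⟨m, rfl | rfl⟩
    · have hm : 3 ≤ m := by omega
      obtain ⟨T, hT1, hT2, hTT⟩ : ∃ T : ℕ, 4 ≤ T ∧ ((T = m ∧ 4 ≤ m) ∨ (T = 4 ∧ m = 3)) ∧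
          ∀ τ : ℕ, (τ ≤ 4 ∨ 2 * τ ≤ 2 * m + 1) → τ ≤ T := by
        by_cases h4 : 4 ≤ m
        · exact ⟨m, h4, Or.inl ⟨rfl, h4⟩, fun τ hτ => by omega⟩
        · exact ⟨4, le_rfl, Or.inr ⟨rfl, by omega⟩, fun τ hτ => by omega⟩
      have hTm : T ≤ 2 * m := by omega
      obtain ⟨n, rfl⟩ : ∃ n, m = n + 1 := ⟨m - 1, by omega⟩
      have hg' : ∀ i, 1 ≤ i → N ≤ (it D i).card + T ∨ i * (4 * n + 6) ≤ (it D i).card + 1 ∨
          (i = 2 ∧ i * (4 * n + 6) ≤ (it D i).card + 2) := by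
        intro i hi
        rcases hG i hi with ⟨τ, h1, h2⟩ | h1 | ⟨rfl, h1⟩
        · have := hTT τ h1
          left; omega
        · right; left
          have e : 2 * (2 * (n + 1)) + 2 = 4 * n + 6 := by ring
          rw [e] at h1
          exact h1
        · right; right
          exact ⟨rfl, by omega⟩
      have eN : 2 * (n + 1) * (2 * (n + 1)) + 2 = 4 * (n * n) + 8 * n + 6 := by ring
      rw [eN] at hN1
      have hlev : ∀ i, 1 ≤ i → i ≤ n → i * (4 * n + 6) ≤ (it D i).card + 1 ∨ (i = 2 ∧ i * (4 * n + 6) ≤ (it D i).card + 2) := by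
        intro i hi hin
        rcases hg' i hi with h | h
        · left
          have h1 : i * (4 * n + 6) ≤ n * (4 * n + 6) := Nat.mul_le_mul_right _ hin
          have h2 : n * (4 * n + 6) = 4 * (n * n) + 6 * n := by ring
          omega
        · exact h
      have hS := Av2_sum (4 * n + 6) n (fun i => (it D i).card) h00.ge hlev
      rw [if_pos (by omega)] at hS
      have htop : N ≤ (it D (n + 1)).card + T ∨ (n + 1) * (4 * n + 6) ≤ (it D (n + 1)).card + 1 := by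
        rcases hg' (n + 1) (by omega) with h | h | ⟨h, -⟩
        · exact Or.inl h
        · exact Or.inr h
        · omega
      have ej : 2 * (n + 1) - 2 = 2 * n := by omega
      have e1 : 2 * (n + 1) * (2 * (n + 1) - 1) = 2 * (2 * (n * n) + 3 * n + 1) := by
        have : 2 * (n + 1) - 1 = 2 * n + 1 := by omega
        rw [this]; ring
      rw [e1] at hX1
      have e2 : (n + 1) * (2 * n) = 2 * (n * n) + 2 * n := by ring
      have hk := hAv' (n + 1) (by rw [ej, e2]; omega)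
      rw [ej, e2] at hk
      obtain ⟨c, hc⟩ : ∃ c, x = 2 * (n * n) + 2 * n + c := ⟨x - (2 * (n * n) + 2 * n), by omega⟩
      have e3 : x - (2 * (n * n) + 2 * n) = c := by omega
      rw [e3] at hk
      generalize (∑ i ∈ range (n + 1), (it D i).card) = S at *
      generalize (it D (n + 1)).card = g at *
      clear hlev hg' hG hAv' hTT hlam hlam' h00 h01
      have hm' : 3 ≤ n + 1 := hm
      zify at hk hS htop hT2 hc hN1 hN2 hX1 hX2 hm'
      refine Av2_evenZ ((n : ℤ) + 1) ((x : ℤ) - (2 * ((n : ℤ) + 1) ^ 2 + (n + 1) + 1)) S g N T hm' (by nlinarith) ?_ ?_ ?_ ?_ ?_ ?_ ?_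
      · have : (2 : ℤ) * x + 1 ≤ 2 * (2 * n ^ 2 + 6 * n + 4) := by nlinarith
        have : (x : ℤ) + 1 ≤ 2 * n ^ 2 + 6 * n + 4 := by omega
        nlinarith
      · rcases hT2 with ⟨a, b⟩ | ⟨a, b⟩
        · exact Or.inl ⟨by exact_mod_cast a, by exact_mod_cast b⟩
        · exact Or.inr ⟨by exact_mod_cast a, by exact_mod_cast b⟩
      · nlinarith
      · rcases htop with h | h
        · right; linarith
        · left; nlinarith
      · nlinarith
      · nlinarith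
      · have e5 : (2 * ((n : ℤ) + 1) ^ 2 + (n + 1) + 1 + ((x : ℤ) - (2 * ((n : ℤ) + 1) ^ 2 + (n + 1) + 1))) = x := by ring
        have e6 : (3 * ((n : ℤ) + 1) + 1 + ((x : ℤ) - (2 * ((n : ℤ) + 1) ^ 2 + (n + 1) + 1))) = c := by rw [hc]; ring
        rw [e5, e6]
        nlinarith
    · have hm : 3 ≤ m := by omega
      obtain ⟨n, rfl⟩ : ∃ n, m = n + 1 := ⟨m - 1, by omega⟩
      have hg' : ∀ i, 1 ≤ i → N ≤ (it D i).card + (n + 2) ∨ i * (4 * n + 8) ≤ (it D i).card + 1 ∨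
          (i = 2 ∧ i * (4 * n + 8) ≤ (it D i).card + 2) := by
        intro i hi
        rcases hG i hi with ⟨τ, h1, h2⟩ | h1 | ⟨rfl, h1⟩
        · left; omega
        · right; left
          have e : 2 * (2 * (n + 1) + 1) + 2 = 4 * n + 8 := by ring
          rw [e] at h1
          exact h1
        · right; right
          exact ⟨rfl, by omega⟩
      have eN : (2 * (n + 1) + 1) * (2 * (n + 1) + 1) + 2 = 4 * (n * n) + 12 * n + 11 := by ring
      rw [eN] at hN1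
      have hlev : ∀ i, 1 ≤ i → i ≤ n → i * (4 * n + 8) ≤ (it D i).card + 1 ∨ (i = 2 ∧ i * (4 * n + 8) ≤ (it D i).card + 2) := by
        intro i hi hin
        rcases hg' i hi with h | h
        · left
          have h1 : i * (4 * n + 8) ≤ n * (4 * n + 8) := Nat.mul_le_mul_right _ hin
          have h2 : n * (4 * n + 8) = 4 * (n * n) + 8 * n := by ring
          omega
        · exact h
      have hS := Av2_sum (4 * n + 8) n (fun i => (it D i).card) h00.ge hlev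
      rw [if_pos (by omega)] at hS
      have htop : N ≤ (it D (n + 1)).card + (n + 2) ∨ (n + 1) * (4 * n + 8) ≤ (it D (n + 1)).card + 1 := by
        rcases hg' (n + 1) (by omega) with h | h | ⟨h, -⟩
        · exact Or.inl h
        · exact Or.inr h
        · omega
      have ej : 2 * (n + 1) + 1 - 2 = 2 * n + 1 := by omega
      have e1 : (2 * (n + 1) + 1) * (2 * (n + 1) + 1 - 1) = 2 * (2 * (n * n) + 5 * n + 3) := by
        have : 2 * (n + 1) + 1 - 1 = 2 * n + 2 := by omega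
        rw [this]; ring
      rw [e1] at hX1
      have e2 : (n + 1) * (2 * n + 1) = 2 * (n * n) + 3 * n + 1 := by ring
      have hk := hAv' (n + 1) (by rw [ej, e2]; omega)
      rw [ej, e2] at hk
      obtain ⟨c, hc⟩ : ∃ c, x = 2 * (n * n) + 3 * n + 1 + c := ⟨x - (2 * (n * n) + 3 * n + 1), by omega⟩
      have e3 : x - (2 * (n * n) + 3 * n + 1) = c := by omega
      rw [e3] at hk
      generalize (∑ i ∈ range (n + 1), (it D i).card) = S at *
      generalize (it D (n + 1)).card = g at *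
      clear hlev hg' hG hAv' hlam hlam' h00 h01
      have hm' : 3 ≤ n + 1 := hm
      zify at hk hS htop hc hN1 hN2 hX1 hX2 hm'
      refine Av2_oddZ ((n : ℤ) + 1) ((x : ℤ) - (2 * ((n : ℤ) + 1) ^ 2 + 3 * (n + 1) + 2)) S g N ((n : ℤ) + 1 + 1) hm' (by nlinarith) ?_ rfl ?_ ?_ ?_ ?_ ?_
      · nlinarith
      · nlinarith
      · rcases htop with h | h
        · right; linarith
        · left; nlinarith
      · nlinarith
      · nlinarith
      · have e5 : (2 * ((n : ℤ) + 1) ^ 2 + 3 * (n + 1) + 2 + ((x : ℤ) - (2 * ((n : ℤ) + 1) ^ 2 + 3 * (n + 1) + 2))) = x := by ring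
        have e6 : (4 * ((n : ℤ) + 1) + 2 + ((x : ℤ) - (2 * ((n : ℤ) + 1) ^ 2 + 3 * (n + 1) + 2))) = c := by rw [hc]; ring
        rw [e5, e6]
        nlinarith
  · obtain ⟨n, rfl⟩ : ∃ n, κ = n + 2 := ⟨κ - 2, by omega⟩
    have eN : 3 * (n + 2) * (3 * (n + 2)) + 2 = 9 * (n * n) + 36 * n + 38 := by ring
    rw [eN] at hN1
    have hlev : ∀ i, 2 ≤ i → i ≤ n + 2 → 8 * (n + 2) * i ≤ (it D i).card := by
      intro i hi hin
      rcases hG i hi with h | h
      · have h1 : 8 * (n + 2) * i ≤ 8 * (n + 2) * (n + 2) := Nat.mul_le_mul_left _ hin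
        have h2 : 8 * (n + 2) * (n + 2) = 8 * (n * n) + 32 * n + 32 := by ring
        omega
      · exact h
    have hS := Av2_sum2 (n + 2) n (fun i => (it D i).card) h00.ge (by rw [h01]; omega)
      (fun i hi hi2 => hlev i hi (by omega))
    have htop := hlev (n + 2) (by omega) le_rfl
    have ej : 3 * (n + 2) - 2 = 3 * n + 4 := by omega
    have e1 : 3 * (n + 2) * (3 * (n + 2) - 1) = 9 * (n * n) + 33 * n + 30 := by
      have : 3 * (n + 2) - 1 = 3 * n + 5 := by omega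
      rw [this]; ring
    rw [e1] at hX1
    have e2 : (n + 2) * (3 * n + 4) = 3 * (n * n) + 10 * n + 8 := by ring
    have hk := hAv' (n + 2) (by rw [ej, e2]; omega)
    rw [ej, e2] at hk
    obtain ⟨c, hc⟩ : ∃ c, x = 3 * (n * n) + 10 * n + 8 + c := ⟨x - (3 * (n * n) + 10 * n + 8), by omega⟩
    have e3 : x - (3 * (n * n) + 10 * n + 8) = c := by omega
    rw [e3] at hk
    generalize (∑ i ∈ range (n + 2), (it D i).card) = S at *
    generalize (it D (n + 2)).card = g at *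
    clear hlev hG hAv' hlam hlam' h00 h01
    zify at hk hS htop hc hN1 hN2 hX1 hX2 hκ4
    refine Av2_kapZ ((n : ℤ) + 2) x S g hκ4 (by nlinarith) (by nlinarith) (by nlinarith) (by nlinarith) ?_
    have e6 : ((x : ℤ) - ((n : ℤ) + 2) * (3 * ((n : ℤ) + 2) - 2)) = c := by rw [hc]; ring
    rw [e6]
    nlinarith

end Pool.Agent.SZA
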