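import Pool.Agent.SZA.St
import Pool.Agent.SSX.Main

/-!
# SZA Av3: averaging for families with `l + 1` members (MP_ec93d3_co, helper89)
-/

set_option autoImplicit false

noncomputable section

open Finset Pool.Agent.Helper64.Rho Pool.Agent.SDG Pool.Agent.MDR Pool.Agent.SSC Pool.Agent.SSE Pool.Agent.SSF
open scoped Classical Pointwise

namespace Pool.Agent.SZA

/-- lower bound for the sum of the levels -/
private lemma Av3_sum (K a : ℕ) (g : ℕ → ℕ) (h0 : 1 ≤ g 0)
    (h : ∀ i, 1 ≤ i → i ≤ a → i * K ≤ g i + 1 ∨ (i = 2 ∧ i * K ≤ g i + 2)) :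
    K * a * (a + 1) ≤ 2 * ∑ i ∈ range (a + 1), g i + 2 * a ∧
      (a < 2 → K * a * (a + 1) + 2 ≤ 2 * ∑ i ∈ range (a + 1), g i + 2 * a) := by
  induction a with
  | zero => simp; omega
  | succ a ih =>
    rw [sum_range_succ]
    obtain ⟨h1, h1'⟩ := ih (fun i hi hi2 => h i hi (by omega))
    have e : K * (a + 1) * (a + 1 + 1) = K * a * (a + 1) + 2 * ((a + 1) * K) := by ring
    rw [e]
    rcases h (a + 1) (by omega) le_rfl with h2 | ⟨h2, h3⟩
    · constructor
      · omega
      · intro h4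
        have := h1' (by omega)
        omega
    · have := h1' (by omega)
      constructor
      · omega
      · intro h4
        omega

/-- lower bound for the sum of the levels, second case -/
private lemma Av3_sum2 (c a : ℕ) (g : ℕ → ℕ) (h0 : 1 ≤ g 0) (h1 : 6 * c + 1 ≤ g 1)
    (h : ∀ i, 2 ≤ i → i ≤ a + 1 → 8 * c * i ≤ g i) :
    4 * c * (a + 1) * (a + 2) + 2 ≤ ∑ i ∈ range (a + 2), g i + 2 * c := by
  induction a with
  | zero =>
    simp only [sum_range_succ, range_zero, sum_empty]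
    omega
  | succ a ih =>
    rw [sum_range_succ]
    have h2 := ih (fun i hi hi2 => h i hi (by omega))
    have h3 := h (a + 2) (by omega) (by omega)
    have e : 4 * c * (a + 1 + 1) * (a + 1 + 2) = 4 * c * (a + 1) * (a + 2) + 8 * c * (a + 2) := by ring
    rw [e]
    omega

private lemma Av3_even (m e S g : ℤ) (hm : 3 ≤ m) (he : 0 ≤ e) (he2 : e ≤ m - 2)
    (hS : 2 * m ^ 3 - 3 * m + 1 ≤ S) (hg : 4 * m ^ 2 + 4 * m - 1 ≤ g ∨ 4 * m ^ 2 + m + 1 + 2 * e ≤ g)
    (hAv : (2 * m - 1) * S + (2 * m + 1 + e) * g ≤ (2 * m ^ 2 + m + 1 + e) ^ 2) : False := by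
  have h1 : (2 * m - 1) * (2 * m ^ 3 - 3 * m + 1) ≤ (2 * m - 1) * S :=
    mul_le_mul_of_nonneg_left hS (by linarith)
  obtain ⟨n, rfl⟩ : ∃ n, m = 3 + n := ⟨m - 3, by ring⟩
  obtain ⟨d, hd⟩ : ∃ d, d = 1 + n - e := ⟨_, rfl⟩
  have hn : 0 ≤ n := by linarith
  have hd0 : 0 ≤ d := by linarith
  have hne : 0 ≤ n * e := mul_nonneg hn he
  have hde : 0 ≤ d * e := mul_nonneg hd0 he
  have hn2 : 0 ≤ n ^ 2 := by positivity
  have hn3 : 0 ≤ n ^ 3 := by positivity
  have he2' : 0 ≤ e ^ 2 := by positivity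
  rcases hg with hg | hg
  · have h2 : (2 * (3 + n) + 1 + e) * (4 * (3 + n) ^ 2 + 4 * (3 + n) - 1) ≤ (2 * (3 + n) + 1 + e) * g :=
      mul_le_mul_of_nonneg_left hg (by linarith)
    have h3 : 0 < 2 * (3 + n) ^ 3 + (3 + n) ^ 2 + 5 * (3 + n) - 3 + e * (2 * (3 + n) - 3) - e ^ 2 := by
      have : e * (2 * (3 + n) - 3) - e ^ 2 = d * e + n * e + 2 * e := by rw [hd]; ring
      nlinarith
    nlinarith
  · have h2 : (2 * (3 + n) + 1 + e) * (4 * (3 + n) ^ 2 + (3 + n) + 1 + 2 * e) ≤ (2 * (3 + n) + 1 + e) * g :=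
      mul_le_mul_of_nonneg_left hg (by linarith)
    have h3 : 0 < 2 * (3 + n) ^ 3 - 5 * (3 + n) ^ 2 + 6 * (3 + n) - 1 + e * (3 * (3 + n) + 1) + e ^ 2 := by
      nlinarith
    nlinarith

private lemma Av3_odd (m e S g : ℤ) (hm : 3 ≤ m) (he : 0 ≤ e) (he2 : e ≤ m - 1)
    (hS : 2 * m ^ 3 + m ^ 2 - 4 * m + 1 ≤ S) (hg : 4 * m ^ 2 + 6 * m - 1 ≤ g ∨ 4 * m ^ 2 + 5 * m + 3 + 2 * e ≤ g)
    (hAv : 2 * m * S + (3 * m + 2 + e) * g ≤ (2 * m ^ 2 + 3 * m + 2 + e) ^ 2) : False := by
  have h1 : 2 * m * (2 * m ^ 3 + m ^ 2 - 4 * m + 1) ≤ 2 * m * S :=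
    mul_le_mul_of_nonneg_left hS (by linarith)
  obtain ⟨n, rfl⟩ : ∃ n, m = 3 + n := ⟨m - 3, by ring⟩
  obtain ⟨d, hd⟩ : ∃ d, d = 2 + n - e := ⟨_, rfl⟩
  have hn : 0 ≤ n := by linarith
  have hd0 : 0 ≤ d := by linarith
  have hne : 0 ≤ n * e := mul_nonneg hn he
  have hde : 0 ≤ d * e := mul_nonneg hd0 he
  have hnd : 0 ≤ n * d := mul_nonneg hn hd0
  have hn2 : 0 ≤ n ^ 2 := by positivity
  have hn3 : 0 ≤ n ^ 3 := by positivity
  have he2' : 0 ≤ e ^ 2 := by positivity
  rcases hg with hg | hg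
  · have h2 : (3 * (3 + n) + 2 + e) * (4 * (3 + n) ^ 2 + 6 * (3 + n) - 1) ≤ (3 * (3 + n) + 2 + e) * g :=
      mul_le_mul_of_nonneg_left hg (by linarith)
    have h3 : 0 < 2 * (3 + n) ^ 3 + (3 + n) ^ 2 - (3 + n) - 6 - 5 * e - e ^ 2 := by
      have : e = 2 + n - d := by linarith
      have h4 : 5 * e + e ^ 2 ≤ 5 * (2 + n) + (2 + n) ^ 2 := by nlinarith
      nlinarith
    nlinarith
  · have h2 : (3 * (3 + n) + 2 + e) * (4 * (3 + n) ^ 2 + 5 * (3 + n) + 3 + 2 * e) ≤ (3 * (3 + n) + 2 + e) * g :=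
      mul_le_mul_of_nonneg_left hg (by linarith)
    have h3 : 0 < 2 * (3 + n) ^ 3 - 2 * (3 + n) ^ 2 + 9 * (3 + n) + 2 + e * (5 * (3 + n) + 3) + e ^ 2 := by
      nlinarith
    nlinarith

private lemma Av3_kap (κ x S g : ℤ) (hκ : 6 ≤ κ) (h1 : 9 * κ ^ 2 - 3 * κ + 2 ≤ 2 * x) (h2 : 2 * x ≤ 9 * κ ^ 2 - 2)
    (hS : 4 * κ ^ 3 - 4 * κ ^ 2 - 2 * κ + 2 ≤ S) (hg : 8 * κ ^ 2 ≤ g)
    (hAv : (3 * κ - 2) * S + (x - 3 * κ ^ 2 + 2 * κ) * g ≤ x ^ 2) : False := by
  have h3 : (3 * κ - 2) * (4 * κ ^ 3 - 4 * κ ^ 2 - 2 * κ + 2) ≤ (3 * κ - 2) * S :=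
    mul_le_mul_of_nonneg_left hS (by linarith)
  have h4 : (x - 3 * κ ^ 2 + 2 * κ) * (8 * κ ^ 2) ≤ (x - 3 * κ ^ 2 + 2 * κ) * g :=
    mul_le_mul_of_nonneg_left hg (by nlinarith)
  -- `x (8 κ² - x)` is at least its value at the upper end
  have h5 : (9 * κ ^ 2 - 2) * (7 * κ ^ 2 + 2) ≤ 4 * (x * (8 * κ ^ 2 - x)) := by
    have h6 : 0 ≤ (9 * κ ^ 2 - 2 - 2 * x) * (2 * x - (7 * κ ^ 2 + 2)) :=
      mul_nonneg (by linarith) (by nlinarith)
    nlinarith
  obtain ⟨n, rfl⟩ : ∃ n, κ = 6 + n := ⟨κ - 6, by ring⟩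
  have hn : 0 ≤ n := by linarith
  have hn2 : 0 ≤ n ^ 2 := by positivity
  have hn3 : 0 ≤ n ^ 3 := by positivity
  have hn4 : 0 ≤ n ^ 4 := by positivity
  nlinarith

/-- **Av3** -/
theorem thm_Av3 : St_Av3 := by
  intro G _ _ X D l e h0 hl hlam hD hX he hN hGro
  have hAv := Pool.Agent.SSC.mdr_Av0
  have h00 : 1 ≤ (it D 0).card := by simp [it]
  have h01 : (it D 1).card = 2 * l + 3 := by
    have : it D 1 = D := by
      ext y
      simp [it, Finset.mem_add]
    rw [this, hD]
  have hAv' : ∀ k, k * (l - 1) ≤ X.card →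
      (l - 1) * (∑ i ∈ range k, (it D i).card) + (X.card - k * (l - 1)) * (it D k).card ≤ X.card ^ 2 :=
    fun k hk => hAv G X D (l - 1) k h0 (fun y hy => by have := hlam y hy; omega) hk
  clear hlam hAv hD
  unfold Gro at hGro
  generalize X.card = x at *
  generalize Nat.card G = N at *
  rcases hGro with hg | ⟨κ, hκ4, hκ2, hκl, hg⟩
  · rcases Nat.even_or_odd' l with ⟨m, rfl | rfl⟩
    · obtain ⟨n, rfl⟩ : ∃ n, m = n + 1 := ⟨m - 1, by omega⟩
      have hn : 2 ≤ n := by omega
      have ej : 2 * (n + 1) - 1 = 2 * n + 1 := by omega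
      rw [ej] at hAv'
      have ex : x = 2 * n * n + 5 * n + 4 + e := by
        have : 2 * (n + 1) * (2 * (n + 1) + 1) = 2 * (2 * n * n + 5 * n + 3) := by ring
        omega
      have hg' : ∀ i, 1 ≤ i → 2 * x ≤ (it D i).card + (n + 2) ∨ i * (4 * n + 8) ≤ (it D i).card + 1 ∨
          (i = 2 ∧ i * (4 * n + 8) ≤ (it D i).card + 2) := by
        intro i hi
        rcases hg i hi with ⟨τ, h1, h2⟩ | h1 | ⟨h1, h2⟩
        · left
          omega
        · right; left
          have e1 : 2 * (2 * (n + 1) + 1) + 2 = 4 * n + 8 := by ring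
          rw [e1] at h1
          exact h1
        · right; right
          refine ⟨h1, ?_⟩
          subst h1
          omega
      have hlev : ∀ i, 1 ≤ i → i ≤ n → i * (4 * n + 8) ≤ (it D i).card + 1 ∨
          (i = 2 ∧ i * (4 * n + 8) ≤ (it D i).card + 2) := by
        intro i hi hin
        rcases hg' i hi with h | h
        · left
          have h1 : i * (4 * n + 8) ≤ n * (4 * n + 8) := Nat.mul_le_mul_right _ hin
          have h2 : n * (4 * n + 8) = 2 * (2 * n * n) + 8 * n := by ring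
          omega
        · exact h
      have hS := (Av3_sum (4 * n + 8) n (fun i => (it D i).card) h00 hlev).1
      have htop : 2 * x ≤ (it D (n + 1)).card + (n + 2) ∨ (n + 1) * (4 * n + 8) ≤ (it D (n + 1)).card + 1 := by
        rcases hg' (n + 1) (by omega) with h | h | ⟨h, _⟩
        · exact Or.inl h
        · exact Or.inr h
        · omega
      have hk := hAv' (n + 1) (by
        have e1 : (n + 1) * (2 * n + 1) = 2 * n * n + 3 * n + 1 := by ring
        omega)
      have e4 : x - (n + 1) * (2 * n + 1) = 2 * n + 3 + e := by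
        have e1 : (n + 1) * (2 * n + 1) = 2 * n * n + 3 * n + 1 := by ring
        omega
      rw [e4] at hk
      generalize (∑ i ∈ range (n + 1), (it D i).card) = S at *
      generalize (it D (n + 1)).card = g at *
      clear hlev hg' hg hAv'
      have he2 : e + 1 ≤ n := by omega
      zify at hk hS htop ex he2 hn
      have he0 : (0 : ℤ) ≤ e := by positivity
      refine Av3_even (n + 1) e S g (by linarith) he0 (by linarith) (by nlinarith) ?_ ?_
      · rcases htop with h | h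
        · right; nlinarith
        · left; nlinarith
      · have e5 : (2 * ((n : ℤ) + 1) ^ 2 + (n + 1) + 1 + e) = x := by rw [ex]; ring
        rw [e5]
        nlinarith
    · obtain ⟨n, rfl⟩ : ∃ n, m = n + 1 := ⟨m - 1, by omega⟩
      have hn : 2 ≤ n := by omega
      have ej : 2 * (n + 1) + 1 - 1 = 2 * n + 2 := by omega
      rw [ej] at hAv'
      have ex : x = 2 * n * n + 7 * n + 7 + e := by
        have : (2 * (n + 1) + 1) * (2 * (n + 1) + 1 + 1) = 2 * (2 * n * n + 7 * n + 6) := by ring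
        omega
      have hg' : ∀ i, 1 ≤ i → 2 * x ≤ (it D i).card + (n + 2) ∨ i * (4 * n + 10) ≤ (it D i).card + 1 ∨
          (i = 2 ∧ i * (4 * n + 10) ≤ (it D i).card + 2) := by
        intro i hi
        rcases hg i hi with ⟨τ, h1, h2⟩ | h1 | ⟨h1, h2⟩
        · left
          omega
        · right; left
          have e1 : 2 * (2 * (n + 1) + 1 + 1) + 2 = 4 * n + 10 := by ring
          rw [e1] at h1
          exact h1
        · right; right
          refine ⟨h1, ?_⟩
          subst h1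
          omega
      have hlev : ∀ i, 1 ≤ i → i ≤ n → i * (4 * n + 10) ≤ (it D i).card + 1 ∨
          (i = 2 ∧ i * (4 * n + 10) ≤ (it D i).card + 2) := by
        intro i hi hin
        rcases hg' i hi with h | h
        · left
          have h1 : i * (4 * n + 10) ≤ n * (4 * n + 10) := Nat.mul_le_mul_right _ hin
          have h2 : n * (4 * n + 10) = 2 * (2 * n * n) + 10 * n := by ring
          omega
        · exact h
      have hS := (Av3_sum (4 * n + 10) n (fun i => (it D i).card) h00 hlev).1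
      have htop : 2 * x ≤ (it D (n + 1)).card + (n + 2) ∨ (n + 1) * (4 * n + 10) ≤ (it D (n + 1)).card + 1 := by
        rcases hg' (n + 1) (by omega) with h | h | ⟨h, _⟩
        · exact Or.inl h
        · exact Or.inr h
        · omega
      have hk := hAv' (n + 1) (by
        have e1 : (n + 1) * (2 * n + 2) = 2 * n * n + 4 * n + 2 := by ring
        omega)
      have e4 : x - (n + 1) * (2 * n + 2) = 3 * n + 5 + e := by
        have e1 : (n + 1) * (2 * n + 2) = 2 * n * n + 4 * n + 2 := by ring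
        omega
      rw [e4] at hk
      generalize (∑ i ∈ range (n + 1), (it D i).card) = S at *
      generalize (it D (n + 1)).card = g at *
      clear hlev hg' hg hAv'
      have he2 : e ≤ n := by omega
      zify at hk hS htop ex he2 hn
      have he0 : (0 : ℤ) ≤ e := by positivity
      refine Av3_odd (n + 1) e S g (by linarith) he0 (by linarith) (by nlinarith) ?_ ?_
      · rcases htop with h | h
        · right; nlinarith
        · left; nlinarith
      · have e5 : (2 * ((n : ℤ) + 1) ^ 2 + 3 * (n + 1) + 2 + e) = x := by rw [ex]; ring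
        rw [e5]
        nlinarith
  · obtain ⟨n, rfl⟩ : ∃ n, κ = n + 2 := ⟨κ - 2, by omega⟩
    obtain rfl : l = 3 * n + 5 := by omega
    have ej : 3 * n + 5 - 1 = 3 * n + 4 := by omega
    rw [ej] at hAv'
    have ex : 2 * x = 9 * n * n + 33 * n + 32 + 2 * e := by
      have : (3 * n + 5) * (3 * n + 5 + 1) = 9 * n * n + 33 * n + 30 := by ring
      omega
    have hlev : ∀ i, 2 ≤ i → i ≤ n + 1 → 8 * (n + 2) * i ≤ (it D i).card := by
      intro i hi hin
      rcases hg i hi with h | h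
      · have h1 : 8 * (n + 2) * i ≤ 8 * (n + 2) * (n + 1) := Nat.mul_le_mul_left _ hin
        have h2 : 8 * (n + 2) * (n + 1) = 8 * n * n + 24 * n + 16 := by ring
        have h3 : 8 * n * n ≤ 9 * n * n := by nlinarith
        omega
      · exact h
    have hS := Av3_sum2 (n + 2) n (fun i => (it D i).card) h00 (by
      show 6 * (n + 2) + 1 ≤ (it D 1).card
      omega) hlev
    have hk := hAv' (n + 2) (by
      have e1 : 2 * ((n + 2) * (3 * n + 4)) = 6 * n * n + 20 * n + 16 := by ring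
      have h3 : 6 * n * n ≤ 9 * n * n := by nlinarith
      omega)
    by_cases hn : n = 2
    · subst hn
      have hx : x = 67 + e := by omega
      have he2 : e ≤ 4 := by omega
      have htop : 126 ≤ (it D (2 + 2)).card := by
        rcases hg (2 + 2) (by omega) with h | h
        · omega
        · omega
      have e4 : x - (2 + 2) * (3 * 2 + 4) = 27 + e := by omega
      rw [e4] at hk
      have h5 : (27 + e) * 126 ≤ (27 + e) * (it D (2 + 2)).card := Nat.mul_le_mul_left _ htop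
      have hS' : 186 ≤ ∑ i ∈ range (2 + 2), (it D i).card := by omega
      have h6 : x ^ 2 = (67 + e) * (67 + e) := by rw [hx]; ring
      rw [h6] at hk
      generalize (∑ i ∈ range (2 + 2), (it D i).card) = S at *
      generalize (it D (2 + 2)).card = g at *
      have : e = 0 ∨ e = 1 ∨ e = 2 ∨ e = 3 ∨ e = 4 := by omega
      rcases this with rfl | rfl | rfl | rfl | rfl <;> omega
    · have hn4 : 4 ≤ n := by omega
      have htop : 8 * (n + 2) * (n + 2) ≤ (it D (n + 2)).card := by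
        rcases hg (n + 2) (by omega) with h | h
        · have h2 : 8 * (n + 2) * (n + 2) = 8 * n * n + 32 * n + 32 := by ring
          have h3 : 4 * n ≤ n * n := Nat.mul_le_mul_right _ hn4
          have h4 : 9 * n * n = 8 * n * n + n * n := by ring
          omega
        · exact h
      obtain ⟨y, hy⟩ : ∃ y, x = y + (n + 2) * (3 * n + 4) := by
        refine ⟨x - (n + 2) * (3 * n + 4), ?_⟩
        have e1 : 2 * ((n + 2) * (3 * n + 4)) = 6 * n * n + 20 * n + 16 := by ring
        have h3 : 6 * n * n ≤ 9 * n * n := by nlinarith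
        omega
      have e4 : x - (n + 2) * (3 * n + 4) = y := by omega
      rw [e4] at hk
      generalize (∑ i ∈ range (n + 2), (it D i).card) = S at *
      generalize (it D (n + 2)).card = g at *
      clear hlev hg hAv'
      zify at hk hS htop ex he hn4 hy
      have he0 : (0 : ℤ) ≤ e := by positivity
      refine Av3_kap (n + 2) x S g (by linarith) (by nlinarith) (by nlinarith) (by nlinarith)
        (by nlinarith) ?_
      have e5 : ((x : ℤ) - 3 * (n + 2) ^ 2 + 2 * (n + 2)) = y := by rw [hy]; ring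
      rw [e5]
      nlinarith

end Pool.Agent.SZA
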