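import Pool.Agent.SZA.St
import Pool.Agent.SSZ.Dz
import Pool.Agent.SSE.SyE

/-!
# SZA, module B2: two halves with the same members (Lean: helper69)
-/

set_option autoImplicit false

noncomputable section

open Finset Pool.Agent.Helper64.Rho Pool.Agent.SDG Pool.Agent.MDR Pool.Agent.SSC Pool.Agent.SSE Pool.Agent.SSF
open scoped Classical Pointwise

namespace Pool.Agent.SZA

private lemma B2_all {G : Type} [AddCommGroup G] [Finite G] (A B : Finset G) (h : Nat.card G < A.card + B.card) (g : G) :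
    g ∈ A + B := by
  have : Fintype G := Fintype.ofFinite G
  by_contra hg
  have hd : Disjoint A (B.image fun b => g - b) := by
    rw [Finset.disjoint_left]
    intro a ha hb
    obtain ⟨b, hb1, hb2⟩ := Finset.mem_image.mp hb
    apply hg
    rw [Finset.mem_add]
    exact ⟨a, ha, b, hb1, by rw [← hb2]; abel⟩
  have hc : (B.image fun b => g - b).card = B.card :=
    Finset.card_image_of_injective _ fun a b hab => sub_right_injective hab
  have h1 : (A ∪ B.image fun b => g - b).card ≤ Nat.card G := by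
    rw [Nat.card_eq_fintype_card]
    exact Finset.card_le_univ _
  rw [Finset.card_union_of_disjoint hd, hc] at h1
  omega

private lemma B2_lam {G : Type} [AddCommGroup G] (X D : Finset G) (j : ℕ) (hD : ∀ y ∈ D, lam X y ≤ j) :
    ∀ (k : ℕ) (c : G), c ∈ it D k → lam X c ≤ k * j := by
  intro k
  induction k with
  | zero =>
    intro c hc
    have hc0 : c = 0 := by simpa [it] using hc
    rw [hc0, lam_zero]
    exact Nat.zero_le _
  | succ k ih =>
    intro c hc
    obtain ⟨a, ha, b, hb, rfl⟩ := Finset.mem_add.mp (show c ∈ it D k + D from hc)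
    have h1 := lam_add X a b
    have h2 := ih a ha
    have h3 := hD b hb
    have e : (k + 1) * j = k * j + j := by ring
    rw [e]
    omega

/-- the set of sums is symmetric -/
private lemma B2_sym {G ι : Type} [AddCommGroup G] (s : Finset ι) (f : ι → G) (x : G) (hx : x ∈ FS s f) :
    (∑ i ∈ s, f i) - x ∈ FS s f := by
  obtain ⟨t, ht, rfl⟩ := mem_FS.mp hx
  refine mem_FS.mpr ⟨s \ t, sdiff_subset, ?_⟩
  rw [← Finset.sum_sdiff ht]
  abel

theorem thm_B2 : St_B2 := by
  intro G ι _ _ l s1 s2 f hl hE1 hE2 hc1 hc2 hm hz hlam hX hN hN' hG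
  obtain ⟨c, hc⟩ := Pool.Agent.SSZ.thm_Dz G ι s1 s2 f hE1.1 hE2.1 (hc1.trans hc2.symm) hm
  obtain ⟨z, hz⟩ := hz
  obtain ⟨hDc, -, -, -, hDl, -, -⟩ := Pool.Agent.SSE.thm_SyE G ι s1 f hE1
  rw [hc1] at hDc
  obtain ⟨j, rfl⟩ : ∃ j, l = j + 1 := ⟨l - 1, by omega⟩
  have hlam' : ∀ y ∈ sym s1 f, lam (FS s1 f) y ≤ j :=
    hDl (FS s1 f) j fun i hi => by have := hlam i hi; omega
  -- the element `g`
  have hg : ∀ x ∈ FS s1 f, x + ((∑ i ∈ s1, f i) - z + c) ∉ FS s1 f := by
    intro x hx h1
    apply hz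
    rw [Finset.mem_add]
    refine ⟨x, hx, z - x, ?_, by abel⟩
    rw [hc]
    have h2 := B2_sym s1 f _ h1
    have e : (∑ i ∈ s1, f i) - (x + ((∑ i ∈ s1, f i) - z + c)) = z - x - c := by abel
    rwa [e] at h2
  generalize (∑ i ∈ s1, f i) - z + c = g at hg
  have h2 : lam (FS s1 f) g = (FS s1 f).card := by
    unfold lam
    rw [Finset.filter_true_of_mem hg]
  obtain ⟨m, r, hmr, hr⟩ : ∃ m r, j + 1 = 2 * m + r ∧ r < 2 :=
    ⟨(j + 1) / 2, (j + 1) % 2, by omega, by omega⟩
  have hm3 : 3 ≤ m := by omega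
  have hbig : Nat.card G < (it (sym s1 f) m).card + (sym s1 f).card := by
    rw [hDc]
    rcases hG with hG | ⟨κ, hκ4, hκ2, hlκ, hG⟩
    · rcases hG m (by omega) with ⟨τ, hτ, h3⟩ | h3 | ⟨h3, -⟩
      · rcases hτ with h4 | h4 <;> omega
      · rw [hmr] at hN hN' h3 ⊢
        interval_cases r
        · nlinarith
        · have h5 := hN' (by omega)
          nlinarith
      · omega
    · rcases hG m (by omega) with h3 | h3
      · omega
      · have h6 : 2 * m = 3 * κ := by omega
        rw [hlκ] at hN ⊢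
        nlinarith
  have hmem : g ∈ it (sym s1 f) (m + 1) := B2_all (it (sym s1 f) m) (sym s1 f) hbig g
  have h1 := B2_lam (FS s1 f) (sym s1 f) j hlam' (m + 1) g hmem
  rw [h2] at h1
  have hj : j = 2 * m + r - 1 := by omega
  interval_cases r
  · obtain ⟨n, rfl⟩ : ∃ n, m = n + 1 := ⟨m - 1, by omega⟩
    have hj2 : j = 2 * n + 1 := by omega
    subst hj2
    nlinarith
  · have hj2 : j = 2 * m := by omega
    subst hj2
    nlinarith

end Pool.Agent.SZA
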