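import Pool.Agent.SZA.St

/-!
# SZA, B5: five members in `Z_2^3 × Z_p`
-/

set_option autoImplicit false

noncomputable section

open Finset Pool.Agent.Helper64.Rho Pool.Agent.SDG Pool.Agent.MDR Pool.Agent.SSC Pool.Agent.SSE Pool.Agent.SSF
open scoped Classical Pointwise

namespace Pool.Agent.SZA

variable {G ι : Type} [AddCommGroup G] [Finite G]

omit [Finite G] in
private theorem B5_ne (u : Finset ι) (f : ι → G) (h : AE u f) (i k : ι) (hi : i ∈ u) (hk : k ∈ u)
    (hik : i ≠ k) : f i ≠ f k ∧ f i ≠ -f k := by
  constructor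
  · intro he
    exact hik (Finset.card_le_one.1 (h.1.2 (f k)) i (mem_filter.2 ⟨hi, Or.inl he⟩) k
      (mem_filter.2 ⟨hk, Or.inl rfl⟩))
  · intro he
    exact hik (Finset.card_le_one.1 (h.1.2 (f k)) i (mem_filter.2 ⟨hi, Or.inr he⟩) k
      (mem_filter.2 ⟨hk, Or.inl rfl⟩))

/-- the classes of the sums over the subsets of `b` are different -/
private theorem B5_uniq (hGf : St_Gf1) {p : ℕ} (f : ι → G) (hFA : FA 3 p G) (b : Finset ι)
    (hb : b.card = 3) (hcov : Cov b f) (A A' : Finset ι) (hA : A ⊆ b) (hA' : A' ⊆ b)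
    (h : (∑ i ∈ A, f i) - (∑ i ∈ A', f i) ∈ PP G) : A = A' := by
  obtain ⟨g1, -⟩ := hGf G 3 p hFA
  have hN : Nat.card G = 2 ^ 3 * p := hFA.2.2.1
  have hp : 5 ≤ p := hFA.2.1
  have hq := AddSubgroup.card_eq_card_quotient_mul_card_addSubgroup (PP G)
  rw [g1, hN] at hq
  have hq8 : Nat.card (G ⧸ PP G) = 8 := by
    have := Nat.eq_of_mul_eq_mul_right (by omega : 0 < p) hq
    omega
  have := Fintype.ofFinite (G ⧸ PP G)
  let φ : b.powerset → G ⧸ PP G := fun A => QuotientAddGroup.mk (∑ i ∈ A.1, f i)
  have hs : Function.Surjective φ := by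
    intro q
    obtain ⟨x, rfl⟩ := QuotientAddGroup.mk_surjective q
    obtain ⟨z, hz, hxz⟩ := hcov x
    obtain ⟨B, hB, rfl⟩ := mem_FS.1 hz
    refine ⟨⟨B, mem_powerset.2 hB⟩, ?_⟩
    refine QuotientAddGroup.eq.2 ?_
    rw [neg_add_eq_sub]
    exact hxz
  have hc : Fintype.card b.powerset = Fintype.card (G ⧸ PP G) := by
    rw [Fintype.card_coe, card_powerset, hb, ← Nat.card_eq_fintype_card, hq8]
    norm_num
  have hi := ((Fintype.bijective_iff_surjective_and_card φ).2 ⟨hs, hc⟩).1
  have h1 : φ ⟨A', mem_powerset.2 hA'⟩ = φ ⟨A, mem_powerset.2 hA⟩ := by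
    refine QuotientAddGroup.eq.2 ?_
    rw [neg_add_eq_sub]
    exact h
  exact (congrArg Subtype.val (hi h1)).symm

omit [Finite G] in
private theorem B5_sym (f : ι → G) (A C : Finset ι) :
    ∑ i ∈ (A \ C) ∪ (C \ A), f i = (∑ i ∈ A, f i) + (∑ i ∈ C, f i) -
      ((∑ i ∈ A ∩ C, f i) + ∑ i ∈ A ∩ C, f i) := by
  have h1 : ∑ i ∈ A, f i = (∑ i ∈ A ∩ C, f i) + ∑ i ∈ A \ C, f i :=
    (Finset.sum_inter_add_sum_sdiff A C f).symm
  have h2 : ∑ i ∈ C, f i = (∑ i ∈ A ∩ C, f i) + ∑ i ∈ C \ A, f i := by
    rw [Finset.inter_comm]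
    exact (Finset.sum_inter_add_sum_sdiff C A f).symm
  rw [Finset.sum_union, h1, h2]
  · abel
  · rw [Finset.disjoint_left]
    intro x hx hx'
    exact (mem_sdiff.1 hx').2 (mem_sdiff.1 hx).1

omit [Finite G] in
/-- two different subsets of `{c, d}` -/
private theorem B5_two (f : ι → G) (c d j : ι) (hcd : c ≠ d) (hc : f c + f c ≠ 0)
    (hd : f d + f d ≠ 0) (hj : f j + f j ≠ 0) (D D' : Finset ι) (hD : D ⊆ {c, d}) (hD' : D' ⊆ {c, d})
    (h : f j = f c + f d - ((∑ i ∈ D, f i) + ∑ i ∈ D, f i))
    (h' : f j = f c + f d - ((∑ i ∈ D', f i) + ∑ i ∈ D', f i)) : D = D' := by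
  have key : ∀ E : Finset ι, E ⊆ {c, d} → E = ∅ ∨ E = {c} ∨ E = {d} ∨ E = {c, d} := by
    intro E hE
    by_cases h1 : c ∈ E <;> by_cases h2 : d ∈ E
    · right; right; right
      exact Subset.antisymm hE (by
        intro x hx
        rcases mem_insert.1 hx with rfl | hx
        · exact h1
        · rw [mem_singleton.1 hx]; exact h2)
    · right; left
      ext x
      rw [mem_singleton]
      constructor
      · intro hx
        rcases mem_insert.1 (hE hx) with h3 | h3
        · exact h3
        · rw [mem_singleton.1 h3] at hx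
          exact absurd hx h2
      · rintro rfl
        exact h1
    · right; right; left
      ext x
      rw [mem_singleton]
      constructor
      · intro hx
        rcases mem_insert.1 (hE hx) with h3 | h3
        · rw [h3] at hx
          exact absurd hx h1
        · exact mem_singleton.1 h3
      · rintro rfl
        exact h2
    · left
      rw [eq_empty_iff_forall_notMem]
      intro x hx
      rcases mem_insert.1 (hE hx) with h3 | h3
      · rw [h3] at hx
        exact h1 hx
      · rw [mem_singleton.1 h3] at hx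
        exact h2 hx
  have e0 : ∑ i ∈ (∅ : Finset ι), f i = 0 := sum_empty
  have e1 : ∑ i ∈ ({c} : Finset ι), f i = f c := sum_singleton _ _
  have e2 : ∑ i ∈ ({d} : Finset ι), f i = f d := sum_singleton _ _
  have e3 : ∑ i ∈ ({c, d} : Finset ι), f i = f c + f d := sum_pair hcd
  rcases key D hD with rfl | rfl | rfl | rfl <;> rcases key D' hD' with rfl | rfl | rfl | rfl <;>
    simp only [e0, e1, e2, e3] at h h' <;> first | rfl | exfalso
  · apply hc
    have := h.symm.trans h'
    have e : f c + f c = (f c + f d - (0 + 0)) - (f c + f d - (f c + f c)) := by abel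
    rw [e, this, sub_self]
  · apply hd
    have := h.symm.trans h'
    have e : f d + f d = (f c + f d - (0 + 0)) - (f c + f d - (f d + f d)) := by abel
    rw [e, this, sub_self]
  · apply hj
    nth_rw 1 [h]
    rw [h']
    abel
  · apply hc
    have := h'.symm.trans h
    have e : f c + f c = (f c + f d - (0 + 0)) - (f c + f d - (f c + f c)) := by abel
    rw [e, this, sub_self]
  · apply hj
    nth_rw 1 [h]
    rw [h']
    abel
  · apply hd
    have := h.symm.trans h'
    have e : f d + f d = (f c + f d - (f c + f c)) - (f c + f d - (f c + f d + (f c + f d))) := by abel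
    rw [e, this, sub_self]
  · apply hd
    have := h'.symm.trans h
    have e : f d + f d = (f c + f d - (0 + 0)) - (f c + f d - (f d + f d)) := by abel
    rw [e, this, sub_self]
  · apply hj
    nth_rw 1 [h]
    rw [h']
    abel
  · apply hc
    have := h.symm.trans h'
    have e : f c + f c = (f c + f d - (f d + f d)) - (f c + f d - (f c + f d + (f c + f d))) := by abel
    rw [e, this, sub_self]
  · apply hj
    nth_rw 1 [h]
    rw [h']
    abel
  · apply hd
    have := h'.symm.trans h
    have e : f d + f d = (f c + f d - (f c + f c)) - (f c + f d - (f c + f d + (f c + f d))) := by abel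
    rw [e, this, sub_self]
  · apply hc
    have := h'.symm.trans h
    have e : f c + f c = (f c + f d - (f d + f d)) - (f c + f d - (f c + f d + (f c + f d))) := by abel
    rw [e, this, sub_self]

/-- at least 14 sums -/
private theorem B5_main (hGf : St_Gf1) (hBs : St_Bs) {p : ℕ} (f : ι → G) (hFA : FA 3 p G)
    (u : Finset ι) (hAE : AE u f) (b : Finset ι) (hbu : b ⊆ u) (hb : b.card = 3) (hcov : Cov b f)
    (j : ι) (hj : j ∈ u) (hjb : j ∉ b) (C : Finset ι) (hC : C ⊆ b) (hCb : C ≠ b)
    (hjC : f j - ∑ i ∈ C, f i ∈ PP G) : 14 ≤ (FS (insert j b) f).card := by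
  obtain ⟨g1, g2, -⟩ := hGf G 3 p hFA
  have hX8 : 2 ^ 3 ≤ (FS b f).card := hBs.2.2 G ι 3 p b f hFA hcov
  rw [FS_insert hjb]
  have hY : ((FS b f).image (· + f j)).card = (FS b f).card :=
    card_image_of_injective _ (add_left_injective _)
  have hun := card_union_add_card_inter (FS b f) ((FS b f).image (· + f j))
  -- the bad sets
  let Bad : Finset (Finset ι) := b.powerset.filter fun A =>
    f j = (∑ i ∈ C, f i) - ((∑ i ∈ A ∩ C, f i) + ∑ i ∈ A ∩ C, f i)
  have hsub : FS b f ∩ (FS b f).image (· + f j) ⊆ Bad.image fun A => (∑ i ∈ A, f i) + f j := by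
    intro z hz
    obtain ⟨hz1, hz2⟩ := mem_inter.1 hz
    obtain ⟨x, hx, rfl⟩ := mem_image.1 hz2
    obtain ⟨A, hA, rfl⟩ := mem_FS.1 hx
    obtain ⟨A', hA', hz3⟩ := mem_FS.1 hz1
    have hd : A' = (A \ C) ∪ (C \ A) := by
      refine B5_uniq hGf f hFA b hb hcov _ _ hA' ?_ ?_
      · exact union_subset (sdiff_subset.trans hA) (sdiff_subset.trans hC)
      · rw [hz3, B5_sym]
        have e : (∑ i ∈ A, f i) + f j - ((∑ i ∈ A, f i) + (∑ i ∈ C, f i) -
            ((∑ i ∈ A ∩ C, f i) + ∑ i ∈ A ∩ C, f i)) = (f j - ∑ i ∈ C, f i) +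
            ((∑ i ∈ A ∩ C, f i) + ∑ i ∈ A ∩ C, f i) := by abel
        rw [e]
        exact (PP G).add_mem hjC (g2 _)
    refine mem_image.2 ⟨A, mem_filter.2 ⟨mem_powerset.2 hA, ?_⟩, rfl⟩
    rw [hd, B5_sym] at hz3
    have h1 : f j = ((∑ i ∈ A, f i) + f j) - ∑ i ∈ A, f i := by abel
    rw [h1, ← hz3]
    abel
  have hBad : Bad.card ≤ 2 := by
    have hCc : C.card < 3 := by
      rw [← hb]
      exact card_lt_card (ssubset_of_subset_of_ne hC hCb)
    have hjj := hAE.2 j hj
    rcases Nat.lt_or_ge C.card 1 with h0 | h0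
    · have hC0 : C = ∅ := card_eq_zero.1 (by omega)
      have : Bad = ∅ := by
        rw [eq_empty_iff_forall_notMem]
        intro A hA
        have h1 := (mem_filter.1 hA).2
        rw [hC0, inter_empty, sum_empty, add_zero, sub_zero] at h1
        exact hAE.1.1 j hj h1
      rw [this, card_empty]
      norm_num
    rcases Nat.lt_or_ge C.card 2 with h1 | h1
    · obtain ⟨c, hc⟩ := card_eq_one.1 (show C.card = 1 by omega)
      have hcb : c ∈ b := hC (by rw [hc]; exact mem_singleton_self c)
      have hne := B5_ne u f hAE j c hj (hbu hcb) (by rintro rfl; exact hjb hcb)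
      have : Bad = ∅ := by
        rw [eq_empty_iff_forall_notMem]
        intro A hA
        have h1 := (mem_filter.1 hA).2
        rw [hc, sum_singleton] at h1
        by_cases hcA : c ∈ A
        · rw [inter_singleton_of_mem hcA, sum_singleton] at h1
          apply hne.2
          rw [h1]
          abel
        · rw [inter_singleton_of_notMem hcA, sum_empty, add_zero, sub_zero] at h1
          exact hne.1 h1
      rw [this, card_empty]
      norm_num
    · obtain ⟨c, d, hcd, hc⟩ := card_eq_two.1 (show C.card = 2 by omega)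
      have hcb : c ∈ b := hC (by rw [hc]; exact mem_insert_self c _)
      have hdb : d ∈ b := hC (by rw [hc]; exact mem_insert_of_mem (mem_singleton_self d))
      rcases Bad.eq_empty_or_nonempty with he | ⟨A₀, hA₀⟩
      · rw [he, card_empty]
        norm_num
      have hall : ∀ A ∈ Bad, A ∩ C = A₀ ∩ C := by
        intro A hA
        have h2 := (mem_filter.1 hA).2
        have h3 := (mem_filter.1 hA₀).2
        have e : ∑ i ∈ C, f i = f c + f d := by rw [hc, sum_pair hcd]
        rw [e] at h2 h3
        exact B5_two f c d j hcd (hAE.2 c (hbu hcb)) (hAE.2 d (hbu hdb)) hjj _ _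
          (by rw [← hc]; exact inter_subset_right) (by rw [← hc]; exact inter_subset_right) h2 h3
      have hsub2 : Bad ⊆ (b \ C).powerset.image fun T => (A₀ ∩ C) ∪ T := by
        intro A hA
        refine mem_image.2 ⟨A \ C, mem_powerset.2 ?_, ?_⟩
        · exact sdiff_subset_sdiff (mem_powerset.1 (mem_filter.1 hA).1) (Subset.refl _)
        · show (A₀ ∩ C) ∪ (A \ C) = A
          rw [← hall A hA]
          ext x
          simp only [mem_union, mem_inter, mem_sdiff]
          tauto
      have h2 := (card_le_card hsub2).trans card_image_le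
      rw [card_powerset, card_sdiff_of_subset hC, hb, show C.card = 2 by omega] at h2
      exact h2
  have h2 := (card_le_card hsub).trans card_image_le
  omega

theorem thm_B5 (hGf : St_Gf1) (hBs : St_Bs) (hSg : St_Sg) : St_B5 := by
  intro G ι _ _ p u f hFA hAE hAp hgen hu
  obtain ⟨g1, g2, -⟩ := hGf G 3 p hFA
  have hp : 5 ≤ p := hFA.2.1
  have hN : Nat.card G = 2 ^ 3 * p := hFA.2.2.1
  -- the last step
  have fin : ∀ (w : Finset ι) (y : ι), w.card = 4 → Cov w f → y ∉ w → y ∈ u → insert y w = u →
      14 ≤ (FS w f).card → 18 ≤ (FS u f).card := by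
    intro w y hw hcov hy hyu hyw h14
    have h16 : (FS w f).card ≤ 2 ^ 4 := by
      rw [← hw]
      exact card_FS_le w f
    have hex : ∃ x : G, x ∉ FS w f := by
      by_contra hno
      have h1 : ∀ x : G, x ∈ FS w f := by
        intro x
        by_contra hx
        exact hno ⟨x, hx⟩
      have h2 : Nat.card G ≤ (FS w f).card := by
        rw [← Set.ncard_univ, ← Set.ncard_coe_finset]
        exact Set.ncard_le_ncard (fun x _ => h1 x) (Finset.finite_toSet _)
      omega
    have h3 := hSg G ι 3 p w y f hFA (by norm_num) hcov hy (hAE.2 y hyu) hex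
    rw [hyw] at h3
    have h4 : ((FS w f).card - 2 ^ 3) / (2 * p - 2) ≤ ((FS w f).card - 2 ^ 3) / 8 :=
      Nat.div_le_div_left (by omega) (by norm_num)
    norm_num at h3 h4 h16
    omega
  obtain ⟨b, hbu, hb, hcov⟩ := hBs.2.1 G ι 3 p u f hFA hgen
  have h2 : (u \ b).card = 2 := by
    rw [card_sdiff_of_subset hbu, hu, hb]
  obtain ⟨j, k, hjk, hub⟩ := card_eq_two.1 h2
  have hj : j ∈ u ∧ j ∉ b := mem_sdiff.1 (by rw [hub]; exact mem_insert_self _ _)
  have hk : k ∈ u ∧ k ∉ b := mem_sdiff.1 (by rw [hub]; exact mem_insert_of_mem (mem_singleton_self _))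
  have hu' : u = b ∪ {j, k} := by rw [← hub, union_sdiff_of_subset hbu]
  obtain ⟨z, hz, hjz⟩ := hcov (f j)
  obtain ⟨C, hC, rfl⟩ := mem_FS.1 hz
  obtain ⟨z', hz', hkz⟩ := hcov (f k)
  obtain ⟨C', hC', rfl⟩ := mem_FS.1 hz'
  by_cases hCb : C = b
  · by_cases hCb' : C' = b
    · -- both are of the third type
      subst hCb
      rw [hCb'] at hkz
      obtain ⟨e, he⟩ : C.Nonempty := card_pos.1 (by omega)
      have hje : j ∉ C.erase e := fun h => hj.2 (mem_of_mem_erase h)
      have hb0 : (C.erase e).card = 2 := by rw [card_erase_of_mem he, hb]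
      have hb' : (insert j (C.erase e)).card = 3 := by rw [card_insert_of_notMem hje, hb0]
      have hsum : ∑ i ∈ C, f i = (∑ i ∈ C.erase e, f i) + f e := (sum_erase_add _ _ he).symm
      have hcov' : Cov (insert j (C.erase e)) f := by
        intro x
        obtain ⟨z, hz, hxz⟩ := hcov x
        obtain ⟨A, hA, rfl⟩ := mem_FS.1 hz
        by_cases heA : e ∈ A
        · refine ⟨∑ i ∈ insert j (C.erase e \ A), f i, mem_FS.2 ⟨_, insert_subset_insert j
            sdiff_subset, rfl⟩, ?_⟩
          have hjn : j ∉ C.erase e \ A := fun h => hje (mem_sdiff.1 h).1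
          rw [sum_insert hjn]
          have h5 : ∑ i ∈ A, f i = (∑ i ∈ A.erase e, f i) + f e := (sum_erase_add _ _ heA).symm
          have h6 : ∑ i ∈ C.erase e, f i = (∑ i ∈ A.erase e, f i) + ∑ i ∈ C.erase e \ A, f i := by
            have h7 : C.erase e = A.erase e ∪ (C.erase e \ A) := by
              ext t
              simp only [mem_erase, mem_union, mem_sdiff]
              constructor
              · rintro ⟨h8, h9⟩
                by_cases h10 : t ∈ A
                · exact Or.inl ⟨h8, h10⟩
                · exact Or.inr ⟨⟨h8, h9⟩, h10⟩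
              · rintro (⟨h8, h9⟩ | ⟨h8, h9⟩)
                · exact ⟨h8, hA h9⟩
                · exact h8
            conv_lhs => rw [h7]
            rw [sum_union]
            rw [disjoint_left]
            intro t ht ht'
            exact (mem_sdiff.1 ht').2 (mem_of_mem_erase ht)
          have e1 : x - (f j + ∑ i ∈ C.erase e \ A, f i) = (x - ∑ i ∈ A, f i) -
              (f j - ∑ i ∈ C, f i) - ((∑ i ∈ C.erase e \ A, f i) + (∑ i ∈ C.erase e \ A, f i)) := by
            rw [hsum, h5, h6]
            abel
          rw [e1]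
          exact (PP G).sub_mem ((PP G).sub_mem hxz hjz) (g2 _)
        · refine ⟨∑ i ∈ A, f i, mem_FS.2 ⟨A, ?_, rfl⟩, hxz⟩
          intro t ht
          exact mem_insert_of_mem (mem_erase.2 ⟨fun h => heA (h ▸ ht), hA ht⟩)
      have hku : k ∉ insert j (C.erase e) := by
        intro h
        rcases mem_insert.1 h with h | h
        · exact hjk h.symm
        · exact hk.2 (mem_of_mem_erase h)
      have h14 := B5_main hGf hBs f hFA u hAE (insert j (C.erase e))
        (insert_subset hj.1 ((erase_subset _ _).trans hbu)) hb' hcov' k hk.1 hku {j}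
        (by
          intro t ht
          rw [mem_singleton.1 ht]
          exact mem_insert_self _ _)
        (by
          intro h
          have h5 := congrArg card h
          rw [card_singleton, hb'] at h5
          omega)
        (by
          rw [sum_singleton]
          have e1 : f k - f j = (f k - ∑ i ∈ C, f i) - (f j - ∑ i ∈ C, f i) := by abel
          rw [e1]
          exact (PP G).sub_mem hkz hjz)
      refine fin (insert k (insert j (C.erase e))) e (by rw [card_insert_of_notMem hku, hb'])
        (hBs.1 G ι _ _ f hcov' (subset_insert _ _)) ?_ (hbu he) ?_ h14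
      · intro h
        rcases mem_insert.1 h with h | h
        · exact hk.2 (h ▸ he)
        rcases mem_insert.1 h with h | h
        · exact hj.2 (h ▸ he)
        · exact notMem_erase _ _ h
      · rw [hu']
        ext t
        simp only [mem_insert, mem_erase, mem_union, mem_singleton]
        constructor
        · rintro (h | h | h | h)
          · exact Or.inl (h ▸ he)
          · exact Or.inr (Or.inr h)
          · exact Or.inr (Or.inl h)
          · exact Or.inl h.2
        · rintro (h | h | h)
          · by_cases h5 : t = e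
            · exact Or.inl h5
            · exact Or.inr (Or.inr (Or.inr ⟨h5, h⟩))
          · exact Or.inr (Or.inr (Or.inl h))
          · exact Or.inr (Or.inl h)
    · have h14 := B5_main hGf hBs f hFA u hAE b hbu hb hcov k hk.1 hk.2 C' hC' hCb' hkz
      refine fin (insert k b) j (by rw [card_insert_of_notMem hk.2, hb])
        (hBs.1 G ι _ _ f hcov (subset_insert _ _)) ?_ hj.1 ?_ h14
      · intro h
        rcases mem_insert.1 h with h | h
        · exact hjk h
        · exact hj.2 h
      · rw [hu']
        ext t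
        simp only [mem_insert, mem_union, mem_singleton]
        tauto
  · have h14 := B5_main hGf hBs f hFA u hAE b hbu hb hcov j hj.1 hj.2 C hC hCb hjz
    refine fin (insert j b) k (by rw [card_insert_of_notMem hj.2, hb])
      (hBs.1 G ι _ _ f hcov (subset_insert _ _)) ?_ hk.1 ?_ h14
    · intro h
      rcases mem_insert.1 h with h | h
      · exact hjk h.symm
      · exact hk.2 h
    · rw [hu']
      ext t
      simp only [mem_insert, mem_union, mem_singleton]
      tauto

end Pool.Agent.SZA
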