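import Pool.Agent.SZA.St

/-!
# SZA, module Bs: covering the classes modulo the subgroup of order `p`
-/

set_option autoImplicit false

noncomputable section

open Finset Pool.Agent.Helper64.Rho Pool.Agent.SDG Pool.Agent.MDR Pool.Agent.SSC Pool.Agent.SSE Pool.Agent.SSF
open scoped Classical Pointwise

namespace Pool.Agent.SZA

private theorem bs_dbl {G : Type} [AddCommGroup G] (x : G) : x + x ∈ PP G :=
  ⟨x, two_nsmul x⟩

private theorem bs_neg {G : Type} [AddCommGroup G] (x : G) : x - -x ∈ PP G := by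
  rw [sub_neg_eq_add]
  exact bs_dbl x

/-- sum of a symmetric difference -/
private theorem bs_sd {G ι : Type} [AddCommGroup G] (f : ι → G) (A B : Finset ι) :
    (∑ i ∈ A, f i + ∑ i ∈ B, f i) - ∑ i ∈ symmDiff A B, f i ∈ PP G := by
  have h1 : ∑ i ∈ A, f i = ∑ i ∈ A \ B, f i + ∑ i ∈ A ∩ B, f i := by
    rw [← sum_union (disjoint_sdiff_inter A B), sdiff_union_inter]
  have h2 : ∑ i ∈ B, f i = ∑ i ∈ B \ A, f i + ∑ i ∈ A ∩ B, f i := by
    rw [inter_comm, ← sum_union (disjoint_sdiff_inter B A), sdiff_union_inter]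
  have h3 : ∑ i ∈ symmDiff A B, f i = ∑ i ∈ A \ B, f i + ∑ i ∈ B \ A, f i := by
    have h4 : symmDiff A B = (A \ B) ∪ (B \ A) := rfl
    rw [h4, sum_union]
    rw [disjoint_left]
    intro x hx hx'
    exact (mem_sdiff.1 hx').2 (mem_sdiff.1 hx).1
  rw [h1, h2, h3]
  have h5 : ∑ i ∈ A \ B, f i + ∑ i ∈ A ∩ B, f i + (∑ i ∈ B \ A, f i + ∑ i ∈ A ∩ B, f i) -
      (∑ i ∈ A \ B, f i + ∑ i ∈ B \ A, f i) = ∑ i ∈ A ∩ B, f i + ∑ i ∈ A ∩ B, f i := by abel
  rw [h5]
  exact bs_dbl _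

/-- the classes covered by `b` contain every subgroup element of `gen b f ⊔ PP` -/
private theorem bs_cov {G ι : Type} [AddCommGroup G] (b : Finset ι) (f : ι → G)
    (h : gen b f ⊔ PP G = ⊤) : Cov b f := by
  have key : ∀ x ∈ AddSubgroup.closure (f '' (b : Set ι)), ∃ z ∈ FS b f, x - z ∈ PP G := by
    intro x hx
    induction hx using AddSubgroup.closure_induction with
    | mem x hx =>
      obtain ⟨i, hi, rfl⟩ := hx
      refine ⟨f i, mem_FS.2 ⟨{i}, singleton_subset_iff.2 hi, by simp⟩, ?_⟩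
      rw [sub_self]
      exact (PP G).zero_mem
    | zero =>
      refine ⟨0, zero_mem_FS _ _, ?_⟩
      rw [sub_self]
      exact (PP G).zero_mem
    | add x y _ _ hx hy =>
      obtain ⟨z, hz, h1⟩ := hx
      obtain ⟨w, hw, h2⟩ := hy
      obtain ⟨A, hA, rfl⟩ := mem_FS.1 hz
      obtain ⟨B, hB, rfl⟩ := mem_FS.1 hw
      refine ⟨∑ i ∈ symmDiff A B, f i, mem_FS.2 ⟨symmDiff A B, ?_, rfl⟩, ?_⟩
      · intro i hi
        rcases mem_symmDiff.1 hi with h3 | h3
        · exact hA h3.1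
        · exact hB h3.1
      · have h3 := (PP G).add_mem ((PP G).add_mem h1 h2) (bs_sd f A B)
        have h4 : x - ∑ i ∈ A, f i + (y - ∑ i ∈ B, f i) +
            (∑ i ∈ A, f i + ∑ i ∈ B, f i - ∑ i ∈ symmDiff A B, f i) =
            x + y - ∑ i ∈ symmDiff A B, f i := by abel
        rwa [h4] at h3
    | neg x _ hx =>
      obtain ⟨z, hz, h1⟩ := hx
      refine ⟨z, hz, ?_⟩
      have h3 := (PP G).sub_mem h1 (bs_dbl x)
      have h4 : x - z - (x + x) = -x - z := by abel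
      rwa [h4] at h3
  intro x
  have hx : x ∈ gen b f ⊔ PP G := by
    rw [h]
    exact AddSubgroup.mem_top x
  obtain ⟨y, hy, w, hw, rfl⟩ := AddSubgroup.mem_sup.1 hx
  obtain ⟨z, hz, h1⟩ := key y hy
  refine ⟨z, hz, ?_⟩
  have h4 : y + w - z = (y - z) + w := by abel
  rw [h4]
  exact (PP G).add_mem h1 hw

private theorem bs_gen {G ι : Type} [AddCommGroup G] (b : Finset ι) (f : ι → G) {i : ι}
    (hi : i ∈ b) : f i ∈ gen b f :=
  AddSubgroup.subset_closure ⟨i, hi, rfl⟩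

/-- the index of the subgroup of order `p` -/
private theorem bs_card {G : Type} [AddCommGroup G] [Finite G] {a p : ℕ} (hG : St_Gf1)
    (h : FA a p G) : Nat.card (G ⧸ PP G) = 2 ^ a := by
  have h1 : Nat.card (PP G) = p := (hG G a p h).1
  obtain ⟨hp, h5, hN, -⟩ := h
  have h2 := (PP G).card_mul_index
  rw [h1, hN] at h2
  have h3 : p * (PP G).index = p * 2 ^ a := by
    rw [h2]
    ring
  exact Nat.eq_of_mul_eq_mul_left (by omega) h3

private theorem bs_low {G ι : Type} [AddCommGroup G] [Finite G] {a p : ℕ} (hG : St_Gf1)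
    (h : FA a p G) (w : Finset ι) (f : ι → G) (hw : Cov w f) : 2 ^ a ≤ (FS w f).card := by
  rw [← bs_card hG h]
  have h1 : Function.Surjective fun z : FS w f => (QuotientAddGroup.mk (z : G) : G ⧸ PP G) := by
    intro y
    obtain ⟨x, rfl⟩ := QuotientAddGroup.mk_surjective y
    obtain ⟨z, hz, h2⟩ := hw x
    refine ⟨⟨z, hz⟩, ?_⟩
    show (QuotientAddGroup.mk z : G ⧸ PP G) = QuotientAddGroup.mk x
    rw [QuotientAddGroup.eq]
    have h3 : -z + x = x - z := by abel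
    rwa [h3]
  have h2 := Nat.card_le_card_of_surjective _ h1
  have h3 : Nat.card (FS w f) = (FS w f).card := by
    rw [Nat.card_eq_fintype_card, Fintype.card_coe]
  rwa [h3] at h2

/-- a minimal covering subfamily has independent classes -/
private theorem bs_inj {G ι : Type} [AddCommGroup G] (b : Finset ι) (f : ι → G)
    (hb : gen b f ⊔ PP G = ⊤) (hmin : ∀ j ∈ b, gen (b.erase j) f ⊔ PP G ≠ ⊤)
    {A B : Finset ι} (hA : A ⊆ b) (hB : B ⊆ b) (h : ∑ i ∈ A, f i - ∑ i ∈ B, f i ∈ PP G) :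
    A = B := by
  by_contra hne
  have hD : (symmDiff A B).Nonempty := by
    rw [nonempty_iff_ne_empty]
    intro h0
    exact hne (symmDiff_eq_bot.1 h0)
  obtain ⟨j, hj⟩ := hD
  have hDb : symmDiff A B ⊆ b := by
    intro i hi
    rcases mem_symmDiff.1 hi with h3 | h3
    · exact hA h3.1
    · exact hB h3.1
  have h1 : ∑ i ∈ symmDiff A B, f i ∈ PP G := by
    have h2 := (PP G).sub_mem ((PP G).add_mem h (bs_dbl (∑ i ∈ B, f i))) (bs_sd f A B)
    have h3 : ∑ i ∈ A, f i - ∑ i ∈ B, f i + (∑ i ∈ B, f i + ∑ i ∈ B, f i) -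
        (∑ i ∈ A, f i + ∑ i ∈ B, f i - ∑ i ∈ symmDiff A B, f i) = ∑ i ∈ symmDiff A B, f i := by
      abel
    rwa [h3] at h2
  apply hmin j (hDb hj)
  rw [eq_top_iff, ← hb]
  refine sup_le ?_ le_sup_right
  have hfj : f j ∈ gen (b.erase j) f ⊔ PP G := by
    rw [← add_sum_erase _ _ hj] at h1
    have h2 : ∑ i ∈ (symmDiff A B).erase j, f i ∈ gen (b.erase j) f := by
      refine AddSubgroup.sum_mem _ fun i hi => ?_
      obtain ⟨h3, h4⟩ := mem_erase.1 hi
      exact bs_gen _ _ (mem_erase.2 ⟨h3, hDb h4⟩)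
    have h3 := (gen (b.erase j) f ⊔ PP G).sub_mem
      ((le_sup_right : PP G ≤ _) h1) ((le_sup_left : gen (b.erase j) f ≤ _) h2)
    rwa [add_sub_cancel_right] at h3
  refine (AddSubgroup.closure_le _).2 ?_
  rintro _ ⟨i, hi, rfl⟩
  by_cases hij : i = j
  · rw [hij]
    exact hfj
  · exact (le_sup_left : gen (b.erase j) f ≤ _) (bs_gen _ _ (mem_erase.2 ⟨hij, hi⟩))

private theorem bs_min {G ι : Type} [AddCommGroup G] (f : ι → G) :
    ∀ (n : ℕ) (u : Finset ι), u.card = n → gen u f ⊔ PP G = ⊤ →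
    ∃ b ⊆ u, gen b f ⊔ PP G = ⊤ ∧ ∀ j ∈ b, gen (b.erase j) f ⊔ PP G ≠ ⊤ := by
  intro n
  induction n with
  | zero =>
    intro u hu h
    rw [card_eq_zero] at hu
    refine ⟨u, Subset.refl _, h, fun j hj => ?_⟩
    rw [hu] at hj
    exact absurd hj (notMem_empty j)
  | succ n ih =>
    intro u hu h
    by_cases hmin : ∀ j ∈ u, gen (u.erase j) f ⊔ PP G ≠ ⊤
    · exact ⟨u, Subset.refl _, h, hmin⟩
    · push Not at hmin
      obtain ⟨j, hj, hj2⟩ := hmin
      obtain ⟨b, hb, h1, h2⟩ := ih (u.erase j) (by rw [card_erase_of_mem hj]; omega) hj2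
      exact ⟨b, hb.trans (erase_subset _ _), h1, h2⟩

theorem thm_Bs : St_Gf1 → St_Bs := by
  intro hG
  refine ⟨fun G ι _ b w f hb hbw x => ?_, fun G ι _ _ a p u f h hu => ?_,
    fun G ι _ _ a p w f h hw => bs_low hG h w f hw⟩
  · obtain ⟨z, hz, h1⟩ := hb x
    exact ⟨z, FS_mono hbw f hz, h1⟩
  · obtain ⟨b, hb, h1, h2⟩ := bs_min f _ u rfl (by rw [hu, top_sup_eq])
    have hc := bs_cov b f h1
    refine ⟨b, hb, ?_, hc⟩
    have h3 : Function.Bijective fun A : b.powerset =>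
        (QuotientAddGroup.mk (∑ i ∈ (A : Finset ι), f i) : G ⧸ PP G) := by
      constructor
      · rintro ⟨A, hA⟩ ⟨B, hB⟩ hAB
        have h4 : -∑ i ∈ A, f i + ∑ i ∈ B, f i ∈ PP G := QuotientAddGroup.eq.1 hAB
        have h5 : ∑ i ∈ B, f i - ∑ i ∈ A, f i ∈ PP G := by
          have h6 : -∑ i ∈ A, f i + ∑ i ∈ B, f i = ∑ i ∈ B, f i - ∑ i ∈ A, f i := by abel
          rwa [h6] at h4
        exact Subtype.ext (bs_inj b f h1 h2 (mem_powerset.1 hB) (mem_powerset.1 hA) h5).symm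
      · intro y
        obtain ⟨x, rfl⟩ := QuotientAddGroup.mk_surjective y
        obtain ⟨z, hz, h4⟩ := hc x
        obtain ⟨A, hA, rfl⟩ := mem_FS.1 hz
        refine ⟨⟨A, mem_powerset.2 hA⟩, ?_⟩
        show (QuotientAddGroup.mk (∑ i ∈ A, f i) : G ⧸ PP G) = QuotientAddGroup.mk x
        rw [QuotientAddGroup.eq]
        have h5 : -∑ i ∈ A, f i + x = x - ∑ i ∈ A, f i := by abel
        rwa [h5]
    have h4 := Nat.card_eq_of_bijective _ h3
    have h5 : Nat.card b.powerset = 2 ^ b.card := by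
      rw [Nat.card_eq_fintype_card, Fintype.card_coe, card_powerset]
    rw [bs_card hG h, h5] at h4
    exact Nat.pow_right_injective (le_refl 2) h4

end Pool.Agent.SZA
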