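import Pool.Agent.SZA.St
import Pool.Agent.SSX.Main

/-!
# SZA, module Bt (MP_ec93d3_co): the lower bound for a half
-/

set_option autoImplicit false

noncomputable section

open Finset Pool.Agent.Helper64.Rho Pool.Agent.SDG Pool.Agent.MDR Pool.Agent.SSC Pool.Agent.SSE Pool.Agent.SSF
open scoped Classical Pointwise

namespace Pool.Agent.SZA

theorem thm_Bt (h1 : St_Gf1) (h2 : St_Gf2) : St_Bt := by
  intro G ι _ _ a p u f hF ha hu hAE hAp hgen hN
  have hC1 : Pool.Agent.SSX.C1N u.card :=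
    (Pool.Agent.SSX.all_CCF (fun l hl => (Pool.Agent.SSE.all_CC l hl fun n _ => Pool.Agent.SSE.all_PFE n).1)
      u.card hu (fun n _ => Pool.Agent.SSX.PR_all n)).1
  obtain ⟨-, -, -, -, -, -, -, -, -, hcyc⟩ := h1 G a p hF
  obtain ⟨-, hDC, hExc, hSep, -⟩ := h2 G ι a p u f hF
  rcases hC1 G ι u f rfl (hcyc ha) rfl hAE hAp hgen hDC (hSep hAE (by omega) hgen) hN with h | h
  · exact h
  · exact absurd h hExc

end Pool.Agent.SZA
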