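import Mathlib
import Pool.Agent.SSF.St
import Pool.Agent.KAU.St
import Pool.Agent.SNW.W2

/-!
# SZA: the groups `Z_2^a × Z_p` (MP_ec93d3_co, near-full case in rank at least three).  Architect helper97.
-/

set_option autoImplicit false

noncomputable section

open Finset Pool.Agent.Helper64.Rho Pool.Agent.SDG Pool.Agent.MDR Pool.Agent.SSC Pool.Agent.SSE Pool.Agent.SSF
open scoped Classical Pointwise

namespace Pool.Agent.SZA

/-- the groups `Z_2^a × Z_p`, `p ≥ 5` prime -/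
def FA (a p : ℕ) (G : Type) [AddCommGroup G] : Prop :=
  p.Prime ∧ 5 ≤ p ∧ Nat.card G = 2 ^ a * p ∧ ∀ x : G, (2 * p) • x = 0

/-- the subgroup of order `p` (the doubles) -/
def PP (G : Type) [AddCommGroup G] : AddSubgroup G := (nsmulAddMonoidHom 2 : G →+ G).range

/-- the sums of `b` meet all cosets of the subgroup of order `p` -/
def Cov {G ι : Type} [AddCommGroup G] (b : Finset ι) (f : ι → G) : Prop := ∀ x : G, ∃ z ∈ FS b f, x - z ∈ PP G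

/-- the growth of a symmetric set with `2 l + 1` elements -/
def Gro {G : Type} [AddCommGroup G] [Finite G] (l : ℕ) (D : Finset G) : Prop :=
  (∀ i, 1 ≤ i → (∃ τ : ℕ, (τ ≤ 4 ∨ 2 * τ ≤ l + 1) ∧ Nat.card G ≤ (it D i).card + τ) ∨ i * (2 * l + 2) ≤ (it D i).card + 1 ∨
    (i = 2 ∧ 4 * l + 2 ≤ (it D i).card)) ∨
  ∃ κ : ℕ, 4 ≤ κ ∧ κ % 2 = 0 ∧ l = 3 * κ ∧ ∀ i, 2 ≤ i → Nat.card G ≤ (it D i).card + 2 * κ ∨ 8 * κ * i ≤ (it D i).card

/-- a generating family with few sums: at most `cf 2 t + h - 2`, `h = 2 ^ (a - 1)` -/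
def CtxA {G ι : Type} [AddCommGroup G] [Finite G] (a p t : ℕ) (s : Finset ι) (f : ι → G) : Prop :=
  FA a p G ∧ 3 ≤ a ∧ 2 ^ (a - 1) ≤ 2 * p ∧ s.card = t ∧ (∀ i ∈ s, f i ≠ 0) ∧ Cap 2 s f ∧ Aper (FS s f) ∧ gen s f = ⊤ ∧
    (FS s f).card + 2 ≤ cf 2 t + 2 ^ (a - 1)

end Pool.Agent.SZA
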