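import Pool.Agent.SZA.St
import Pool.Agent.SSX.Main

/-!
# SZA, Dp (helper18): a member whose removal gives a proper subgroup
-/

set_option autoImplicit false

noncomputable section

open Finset Pool.Agent.Helper64.Rho Pool.Agent.SDG Pool.Agent.MDR Pool.Agent.SSC Pool.Agent.SSE Pool.Agent.SSF
open scoped Classical Pointwise

namespace Pool.Agent.SZA

theorem thm_Dp : St_Gf1 → St_Gf2 → St_Bt → St_Dp := by
  intro hGf1 hGf2 hBt G ι _ _ a p u f i hFA ha hcard hAE hAp hgen hN hi hdrop
  obtain ⟨-, b2, -, b4, -, b6, -⟩ := SDG.all_Ba1 G ι f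
  have hcard' : (u.erase i).card = u.card - 1 := card_erase_of_mem hi
  have hfi : f i ∉ gen (u.erase i) f := by
    intro h
    exact hdrop ((b6 u i hi h).trans hgen)
  obtain ⟨-, -, -, -, -, g6⟩ := hGf2 G ι a p u f hFA
  have hind : (gen (u.erase i) f).index = 2 := g6 hAE (by omega) hgen i hi hdrop
  obtain ⟨-, -, -, g4, -⟩ := hGf1 G a p hFA
  have hFA' := (g4 _ hind).2
  have hFS := b4 u i hi hfi
  have hAE' : AE (u.erase i) f := by
    refine ⟨⟨fun j hj => hAE.1.1 j (mem_of_mem_erase hj), fun x => ?_⟩,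
      fun j hj => hAE.2 j (mem_of_mem_erase hj)⟩
    exact (card_le_card (filter_subset_filter _ (erase_subset i u))).trans (hAE.1.2 x)
  have hAp' : Aper (FS (u.erase i) f) := b2 u _ (erase_subset i u) hAp
  obtain ⟨f', -, hg', hc', ap', ae', -⟩ := SSX.all_TfF G ι (u.erase i) f
  have e : ∀ d : DecidableEq (gen (u.erase i) f), @FS ι _ _ d (u.erase i) f' =
      @FS ι _ _ (fun a b => Classical.propDecidable (a = b)) (u.erase i) f' := fun d => by
    rw [Subsingleton.elim d (fun a b => Classical.propDecidable (a = b))]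
  rw [e] at hc' ap'
  have hmul := (gen (u.erase i) f).card_mul_index
  rw [hind] at hmul
  have hsz : 2 * (@FS ι (gen (u.erase i) f) _ (fun a b => Classical.propDecidable (a = b))
      (u.erase i) f').card ≤ Nat.card (gen (u.erase i) f) := by
    rw [hc']
    omega
  have hmain := hBt (gen (u.erase i) f) ι (a - 1) p (u.erase i) f' hFA' (by omega) (by omega) (ae' hAE')
    (ap' hAp') hg' hsz
  rw [hc', hcard'] at hmain
  obtain ⟨m, hm⟩ : ∃ m, u.card = m + 1 := ⟨u.card - 1, by omega⟩
  rw [hm] at hmain ⊢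
  rw [hFS]
  rw [Nat.add_sub_cancel] at hmain ⊢
  nlinarith [hmain]

end Pool.Agent.SZA
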