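import Pool.Agent.SZA.St
import Pool.Agent.SSX.Main

/-!
# SZA DrA (helper37): the drop case of the odd halves (copy of SSX.DrO by helper66)
-/

set_option autoImplicit false

noncomputable section

open Finset Pool.Agent.Helper64.Rho Pool.Agent.SDG Pool.Agent.MDR Pool.Agent.SSC Pool.Agent.SSE Pool.Agent.SSF
open scoped Classical Pointwise

namespace Pool.Agent.SZA

private theorem DrA_AS {G ι : Type} [AddCommGroup G] {u v : Finset ι} {f : ι → G} (hvu : v ⊆ u)
    (hA : AS u f) : AS v f :=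
  ⟨fun i hi => hA.1 i (hvu hi), fun x => (card_le_card (filter_subset_filter _ hvu)).trans (hA.2 x)⟩

private theorem DrA_AE {G ι : Type} [AddCommGroup G] {u v : Finset ι} {f : ι → G} (hvu : v ⊆ u)
    (hA : AE u f) : AE v f :=
  ⟨DrA_AS hvu hA.1, fun i hi => hA.2 i (hvu hi)⟩

private theorem DrA_cap {G ι : Type} [AddCommGroup G] {u : Finset ι} {f : ι → G} (hA : AS u f) :
    Cap 2 u f :=
  fun x => (hA.2 x).trans (by omega)

/-- the set of sums of a family with one member outside a subgroup -/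
private theorem DrA_lam {G ι : Type} [AddCommGroup G] {u : Finset ι} {f : ι → G} {i0 : ι}
    {M : AddSubgroup G} (hi : i0 ∈ u) (hM : ∀ i ∈ u.erase i0, f i ∈ M) (h0 : f i0 ∉ M) {y : G}
    (hy : y ∈ M) : 2 * lam (FS (u.erase i0) f) y ≤ lam (FS u f) y := by
  have hX : FS u f = FS (u.erase i0) f ∪ (FS (u.erase i0) f).image (· + f i0) := by
    rw [← FS_insert (notMem_erase i0 u) f, insert_erase hi]
  have hXM : ∀ x ∈ FS (u.erase i0) f, x ∈ M := fun x hx => FS_subset_of_mem hM hx
  set A := (FS (u.erase i0) f).filter fun b => b + y ∉ FS (u.erase i0) f with hA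
  have hsub : A ∪ A.image (· + f i0) ⊆ (FS u f).filter fun b => b + y ∉ FS u f := by
    intro b hb
    rw [mem_union] at hb
    rw [mem_filter, hX, mem_union, mem_union, mem_image, mem_image]
    rcases hb with hb | hb
    · rw [hA, mem_filter] at hb
      refine ⟨Or.inl hb.1, ?_⟩
      rintro (h1 | ⟨c, hc, h1⟩)
      · exact hb.2 h1
      · apply h0
        have h2 : f i0 = b + y - c := by rw [← h1]; abel
        rw [h2]
        exact M.sub_mem (M.add_mem (hXM b hb.1) hy) (hXM c hc)
    · rw [mem_image] at hb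
      obtain ⟨a, ha, rfl⟩ := hb
      rw [hA, mem_filter] at ha
      refine ⟨Or.inr ⟨a, ha.1, rfl⟩, ?_⟩
      rintro (h1 | ⟨c, hc, h1⟩)
      · apply h0
        have h2 : f i0 = (a + f i0 + y) - (a + y) := by abel
        rw [h2]
        exact M.sub_mem (hXM _ h1) (M.add_mem (hXM a ha.1) hy)
      · apply ha.2
        have h2 : c = a + y := by
          have h3 : c + f i0 = (a + y) + f i0 := by
            have h4 : c + f i0 = a + f i0 + y := h1
            rw [h4]; abel
          exact add_right_cancel h3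
        rw [← h2]
        exact hc
  have hdis : Disjoint A (A.image (· + f i0)) := by
    rw [disjoint_left]
    intro b hb hb2
    rw [mem_image] at hb2
    obtain ⟨a, ha, h1⟩ := hb2
    rw [hA, mem_filter] at ha hb
    apply h0
    have h2 : f i0 = b - a := by rw [← h1]; abel
    rw [h2]
    exact M.sub_mem (hXM b hb.1) (hXM a ha.1)
  have hc := card_le_card hsub
  rw [card_union_of_disjoint hdis, card_image_of_injective _ (add_left_injective (f i0))] at hc
  have h5 : lam (FS (u.erase i0) f) y = A.card := rfl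
  have h6 : lam (FS u f) y = ((FS u f).filter fun b => b + y ∉ FS u f).card := rfl
  omega

private theorem DrA_img {G H ι : Type} [AddCommGroup G] [AddCommGroup H] (φ : H →+ G) {s : Finset ι}
    {f : ι → G} {f' : ι → H} (h : ∀ i ∈ s, φ (f' i) = f i) : FS s f = (FS s f').image φ := by
  ext x
  rw [mem_FS, mem_image]
  constructor
  · rintro ⟨t, ht, hs⟩
    refine ⟨∑ i ∈ t, f' i, mem_FS.2 ⟨t, ht, rfl⟩, ?_⟩
    rw [map_sum, ← hs]
    exact sum_congr rfl fun i hi => h i (ht hi)
  · rintro ⟨y, hy, hs⟩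
    obtain ⟨t, ht, hs2⟩ := mem_FS.1 hy
    refine ⟨t, ht, ?_⟩
    rw [← hs, ← hs2, map_sum]
    exact sum_congr rfl fun i hi => (h i (ht hi)).symm

private theorem DrA_lam2 {G H ι : Type} [AddCommGroup G] [AddCommGroup H] (φ : H →+ G)
    (hφ : Function.Injective φ) {s : Finset ι} {f : ι → G} {f' : ι → H}
    (h : ∀ i ∈ s, φ (f' i) = f i) (y : H) : lam (FS s f') y ≤ lam (FS s f) (φ y) := by
  unfold lam
  apply card_le_card_of_injOn φ
  · intro x hx
    rw [mem_coe, mem_filter] at hx
    rw [mem_coe, mem_filter, DrA_img φ h, ← map_add]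
    refine ⟨mem_image_of_mem _ hx.1, fun h1 => ?_⟩
    rw [mem_image] at h1
    obtain ⟨z, hz, hzx⟩ := h1
    apply hx.2
    rw [← hφ hzx]
    exact hz
  · exact hφ.injOn

/-- the last step: averaging -/
private theorem DrA_av (hAv : SDG.St_Av) (hGd : Pool.Agent.SSX.St_GdX) {G : Type} [AddCommGroup G] [Finite G]
    (X D : Finset G) (l : ℕ) (h0 : (0 : G) ∈ D) (hneg : ∀ y ∈ D, -y ∈ D)
    (hgen : AddSubgroup.closure (D : Set G) = ⊤) (hl : 5 ≤ l) (hD : D.card = 2 * (l - 1) + 1)
    (hlam : ∀ y ∈ D, lam X y ≤ (l - 2) / 2) (hX1 : 2 + l * (l - 1) ≤ 4 * X.card)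
    (hX2 : 2 * X.card ≤ Nat.card G) : False := by
  refine hAv G X D ((l - 2) / 2) h0 hlam ?_ ?_
  · obtain ⟨m, rfl | rfl⟩ : ∃ m, l = 2 * m + 2 ∨ l = 2 * m + 3 :=
      ⟨(l - 2) / 2, by omega⟩
    · have h1 : (2 * m + 2 - 2) / 2 = m := by omega
      have h2 : 2 * m + 2 - 1 = 2 * m + 1 := by omega
      rw [h1]
      rw [h2] at hX1
      nlinarith
    · have h1 : (2 * m + 3 - 2) / 2 = m := by omega
      have h2 : 2 * m + 3 - 1 = 2 * m + 2 := by omega
      rw [h1]
      rw [h2] at hX1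
      nlinarith
  · intro i
    rcases Nat.eq_zero_or_pos i with rfl | hi
    · left
      have h1 : it D 0 = {0} := rfl
      rw [h1, card_singleton]
      omega
    · rcases hGd G D l h0 hneg hgen (by omega) (by omega) i hi with h1 | h1
      · right
        have h3 : Nat.card G = (it D i).card := by
          have : Fintype G := Fintype.ofFinite G
          rw [Nat.card_eq_fintype_card, ← Finset.card_univ]
          congr 1
          ext x
          simp [h1 x]
        omega
      · left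
        have h2 : 2 * i * ((l - 2) / 2 + 1) ≤ i * l := by
          have h3 : 2 * ((l - 2) / 2 + 1) ≤ l := by omega
          calc 2 * i * ((l - 2) / 2 + 1) = i * (2 * ((l - 2) / 2 + 1)) := by ring
            _ ≤ i * l := Nat.mul_le_mul_left i h3
        omega

private theorem DrA_fin (hAv : SDG.St_Av) (hSy : SSE.St_SyE) (hGd : Pool.Agent.SSX.St_GdX) {G H ι : Type}
    [AddCommGroup G] [AddCommGroup H] [Finite H] (φ : H →+ G) (hφ : Function.Injective φ)
    (s : Finset ι) (f : ι → G) (f' : ι → H) (hf' : ∀ i ∈ s, φ (f' i) = f i) (l : ℕ) (hl : 5 ≤ l)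
    (hs : s.card = l - 1) (hAE : AE s f') (hgen : gen s f' = ⊤)
    (hlam : ∀ i ∈ s, lam (FS s f) (f i) ≤ (l - 2) / 2) (hX1 : 2 + l * (l - 1) ≤ 4 * (FS s f).card)
    (hX2 : 2 + l * (l - 1) + 4 * (FS s f).card ≤ 4 * Nat.card H) : False := by
  obtain ⟨hS1, hS2, hS3, hS4, hS5, -, -⟩ := hSy H ι s f' hAE
  have hlam3 : ∀ i ∈ s, lam (FS s f') (f' i) ≤ (l - 2) / 2 := by
    intro i hi
    have h1 := DrA_lam2 φ hφ hf' (f' i)
    rw [hf' i hi] at h1
    exact h1.trans (hlam i hi)
  have hcard : (FS s f).card = (FS s f').card := by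
    rw [DrA_img φ hf', card_image_of_injective _ hφ]
  rw [hgen] at hS4
  rw [hs] at hS1
  rcases le_total (2 * (FS s f').card) (Nat.card H) with h1 | h1
  · refine DrA_av hAv hGd (FS s f') (sym s f') l hS2 hS3 hS4 hl hS1 (hS5 _ _ hlam3) ?_ h1
    omega
  · have : Fintype H := Fintype.ofFinite _
    have h2 : ((FS s f')ᶜ).card + (FS s f').card = Nat.card H := by
      rw [Nat.card_eq_fintype_card, add_comm]
      exact card_add_card_compl _
    refine DrA_av hAv hGd ((FS s f')ᶜ) (sym s f') l hS2 hS3 hS4 hl hS1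
      (hS5 _ _ fun i hi => ?_) ?_ ?_
    · rw [lam_compl]
      exact hlam3 i hi
    · omega
    · omega

theorem thm_DrA : St_DrA := by
  have hNm := SDG.all_Nm1
  have hB := SDG.all_Ba1
  have hAv := SDG.all_Av
  have hSy := SSE.all_SyE
  have hTf := Pool.Agent.SSX.all_TfF
  have hGd := Pool.Agent.SSX.all_GdX
  intro G ι _ _ u f i0 hAE hap hgen hl hi0 hidx hlam hX1 hX2 hX3
  -- the member outside
  have hBf := hB G ι f
  have hM0 : f i0 ∉ gen (u.erase i0) f := by
    intro h
    have h1 := hBf.2.2.2.2.2.1 u i0 hi0 h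
    rw [h1, hgen, AddSubgroup.index_top] at hidx
    omega
  have hinM : ∀ i ∈ u.erase i0, f i ∈ gen (u.erase i0) f := fun i hi =>
    AddSubgroup.subset_closure ⟨i, hi, rfl⟩
  have hc1 : (FS u f).card = 2 * (FS (u.erase i0) f).card := hBf.2.2.2.1 u i0 hi0 hM0
  have hcu : (u.erase i0).card = u.card - 1 := card_erase_of_mem hi0
  -- step 1
  have hstep1 : ∀ i ∈ u.erase i0, gen (u.erase i) f = ⊤ := by
    intro i hi
    by_contra hne
    have hiu : i ∈ u := mem_of_mem_erase hi
    have h1 : f i ∉ gen (u.erase i) f := by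
      intro h
      exact hne ((hBf.2.2.2.2.2.1 u i hiu h).trans hgen)
    have h2 : f i ∉ gen ((u.erase i0).erase i) f := by
      intro h
      apply h1
      refine AddSubgroup.closure_mono ?_ h
      apply Set.image_mono
      intro k hk
      rw [mem_coe] at hk ⊢
      rw [mem_erase] at hk ⊢
      exact ⟨hk.1, mem_of_mem_erase hk.2⟩
    have h3 := hBf.2.2.2.1 (u.erase i0) i hi h2
    have hcu2 : ((u.erase i0).erase i).card = u.card - 2 := by
      rw [card_erase_of_mem hi, hcu]; omega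
    have hsub : (u.erase i0).erase i ⊆ u := (erase_subset _ _).trans (erase_subset _ _)
    have h4 := Pool.Agent.SSX.PR_all (u.card - 2) G ι ((u.erase i0).erase i) f rfl hcu2
      (fun k hk => hAE.1.1 k (hsub hk)) (DrA_cap (DrA_AS hsub hAE.1)) (hBf.2.1 u _ hsub hap)
    rw [hNm.2.2.1] at h4
    have h5 : u.card - 2 + 1 = u.card - 1 := by omega
    rw [h5] at h4
    obtain ⟨n, hn⟩ : ∃ n, u.card = n + 5 := ⟨u.card - 5, by omega⟩
    rw [hn] at h4 hX1
    have h6 : n + 5 - 1 = n + 4 := by omega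
    rw [h6] at h4
    have h7 : (n + 4) ^ 2 ≤ 4 * ((n + 4) ^ 2 / 4) + 1 := by
      obtain ⟨m, hm | hm⟩ : ∃ m, n + 4 = 2 * m ∨ n + 4 = 2 * m + 1 := ⟨(n + 4) / 2, by omega⟩
      · rw [hm, show (2 * m) ^ 2 = 4 * m ^ 2 by ring]
        omega
      · rw [hm, show (2 * m + 1) ^ 2 = 4 * (m ^ 2 + m) + 1 by ring]
        omega
    generalize (n + 4) ^ 2 / 4 = w at h4 h7
    have h8 : (n + 4) ^ 2 = n * n + 8 * n + 16 := by ring
    have h9 : (n + 5) * (n + 5) + 2 * (n + 5) = n * n + 12 * n + 35 := by ring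
    rw [h8] at h7
    rw [h9] at hX1
    generalize n * n = q at h7 hX1
    omega
  -- step 2
  have hlam2 : ∀ i ∈ u.erase i0, lam (FS (u.erase i0) f) (f i) ≤ (u.card - 2) / 2 := by
    intro i hi
    have h1 := hlam i (mem_of_mem_erase hi) (hstep1 i hi)
    have h2 := DrA_lam hi0 hinM hM0 (hinM i hi)
    omega
  -- step 3
  obtain ⟨f', hf', hgen', -, -, hAE', -, -, -⟩ := hTf G ι (u.erase i0) f
  have hcG : 2 * Nat.card (gen (u.erase i0) f) = Nat.card G := by
    have h1 := (gen (u.erase i0) f).index_mul_card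
    rw [hidx] at h1
    exact h1
  refine DrA_fin hAv hSy hGd (gen (u.erase i0) f).subtype (gen (u.erase i0) f).subtype_injective
    (u.erase i0) f f' hf' u.card hl hcu (hAE' (DrA_AE (erase_subset i0 u) hAE)) hgen' hlam2 ?_ ?_
  · omega
  · omega

end Pool.Agent.SZA
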