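import Pool.Agent.SZA.St
import Pool.Agent.SSX.Main

/-!
# SZA, module Ev: the even case `t = 2 l`
-/

set_option autoImplicit false

noncomputable section

open Finset Pool.Agent.Helper64.Rho Pool.Agent.SDG Pool.Agent.MDR Pool.Agent.SSC Pool.Agent.SSE Pool.Agent.SSF
open scoped Classical Pointwise

namespace Pool.Agent.SZA

private theorem Ev_half (hBt : St_Bt) (hGt : St_Gt) (hAv2 : St_Av2) (hAl : St_Al) (hLa : St_La) (hEvB : St_EvB)
    (G ι : Type) [AddCommGroup G] [Finite G] (a p l : ℕ) (s1 s2 : Finset ι) (f : ι → G)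
    (hF : FA a p G) (ha : 3 ≤ a) (hh : 2 ^ (a - 1) ≤ 2 * p) (hl : 5 ≤ l) (hhl : 2 ^ (a - 1) + 1 ≤ l)
    (hd : Disjoint s1 s2) (hAE1 : AE s1 f) (hAE2 : AE s2 f) (hc1 : s1.card = l) (hc2 : s2.card = l)
    (hA : Aper (FS (s1 ∪ s2) f)) (hg1 : gen s1 f = ⊤) (hg2 : gen s2 f = ⊤)
    (hT : (FS (s1 ∪ s2) f).card + 1 ≤ l * (l + 1) + 2 ^ (a - 1))
    (hN : l * l + l + 2 ≤ Nat.card G)
    (hKa : (FS s1 f).card + (FS s2 f).card ≤ (FS (s1 ∪ s2) f).card + 1)
    (hKb : (FS s1 f).card + (FS s2 f).card ≤ Nat.card G)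
    (hle : (FS s1 f).card ≤ (FS s2 f).card) : False := by
  obtain ⟨b1, b2, b3, b4, b5, b6, b7⟩ := Pool.Agent.SDG.all_Ba1 G ι f
  have hA1 : Aper (FS s1 f) := b2 _ _ subset_union_left hA
  obtain ⟨m, hm⟩ : ∃ m, 2 ^ (a - 1) = 2 * m ∧ 2 ≤ m := by
    refine ⟨2 ^ (a - 2), ?_, ?_⟩
    · rw [← pow_succ']
      congr 1
      omega
    · calc 2 = 2 ^ 1 := by norm_num
        _ ≤ 2 ^ (a - 2) := Nat.pow_le_pow_right (by norm_num) (by omega)
  obtain ⟨hm, hm2⟩ := hm
  have hpa : 2 ^ a = 4 * m := by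
    have : a = (a - 1) + 1 := by omega
    rw [this, pow_succ, hm]
    ring
  obtain ⟨r, hr⟩ : ∃ r, l * (l + 1) = 2 * r := by
    have := Nat.even_mul_succ_self l
    obtain ⟨r, hr⟩ := this
    exact ⟨r, by omega⟩
  have hll : l * l + l = 2 * r := by rw [← hr]; ring
  have hX1 : 2 * (FS s1 f).card ≤ l * (l + 1) + 2 ^ (a - 1) := by omega
  by_cases hcase : l * l + 2 * l ≤ Nat.card G
  · have := hAl G ι a p s1 f hF ha hh (by omega) hAE1 hA1 hg1 (by omega) (by rw [hc1]; exact hcase)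
    rw [hc1] at this
    omega
  · have hl6 : 6 ≤ l := by
      by_contra hcon
      have hl5 : l = 5 := by omega
      subst hl5
      have h1 : Nat.card G = 2 ^ a * p := hF.2.2.1
      have h2 : 5 ≤ p := hF.2.1
      rw [hpa] at h1
      have h3 : 8 * 5 ≤ 4 * m * p := Nat.mul_le_mul (by omega) h2
      omega
    have hBt1 := hBt G ι a p s1 f hF (by omega) (by omega) hAE1 hA1 hg1 (by omega)
    rw [hc1] at hBt1
    have hbig : l * l = l * (l - 1) + l := by
      obtain ⟨k, rfl⟩ : ∃ k, l = k + 1 := ⟨l - 1, by omega⟩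
      rw [Nat.add_sub_cancel]
      ring
    have hbig2 : 4 * l ≤ l * (l - 1) := by
      rw [Nat.mul_comm l (l - 1)]
      exact Nat.mul_le_mul_right l (by omega)
    have hlam : ∀ i ∈ s1, 2 * lam (FS s1 f) (f i) + (l * (l - 1) + 2 + 2 ^ (a - 1)) ≤ 2 * (FS s1 f).card := by
      intro i hi
      have := hLa G ι a p s1 f i hF ha hh (by omega) hAE1 hA1 hg1 (by omega) (by rw [hc1]; omega) hi
      rw [hc1] at this
      rcases this with h | h
      · exact h.2
      · exfalso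
        omega
    by_cases hlt : 2 * (FS s1 f).card + 2 ≤ l * (l + 1) + 2 ^ (a - 1)
    · obtain ⟨e1, e2, e3, e4, e5, e6, e7⟩ := Pool.Agent.SSE.all_SyE G ι s1 f hAE1
      have hlam2 : ∀ y ∈ sym s1 f, lam (FS s1 f) y ≤ l - 2 := by
        apply e5
        intro i hi
        have := hlam i hi
        omega
      have hG := hGt G ι a p s1 f hF ha hAE1 hA1 hg1 (by omega) (by rw [hc1]; omega)
      rw [hc1] at hG
      rcases hG with h | h
      · omega
      · refine hAv2 G (FS s1 f) (sym s1 f) l e2 hl6 (fun y hy => ?_) (by rw [e1, hc1]) (by omega) (by omega) (by omega)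
          (by omega) h
        have := hlam2 y hy
        omega
    · have h1 : 2 * (FS s1 f).card = l * (l + 1) + 2 ^ (a - 1) := by omega
      have h2 : 2 * (FS s2 f).card = l * (l + 1) + 2 ^ (a - 1) := by omega
      exact hEvB G ι a p l s1 s2 f hF ha hh hl6 hhl hd hAE1 hAE2 hc1 hc2 hA hg1 hg2 h1 h2 hT (by omega)

theorem thm_Ev : St_Gf1 → St_Bt → St_Gt → St_Av2 → St_Al → St_La → St_Wb → St_Hf → St_EvB → St_Ev := by
  intro _ hBt hGt hAv2 hAl hLa hWb hHf hEvB G ι _ _ a p l s f hl hhl hctx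
  have hctx' := hctx
  obtain ⟨hF, ha, hh, hs, h0, hC, hA, hg, hT⟩ := hctx
  obtain ⟨b1, b2, b3, b4, b5, b6, b7⟩ := Pool.Agent.SDG.all_Ba1 G ι f
  obtain ⟨k1, k2, k3, k4⟩ := Pool.Agent.SDG.all_Kn G
  obtain ⟨n1, n2, n3, n4, n5, n6⟩ := Pool.Agent.SDG.all_Nm1
  have hcf : cf 2 (2 * l) = 1 + (l * l + l) := by
    rw [n3]
    have : (2 * l + 1) ^ 2 = 4 * (l * l + l) + 1 := by ring
    rw [this]
    omega
  have hP := Pool.Agent.SSX.PAG_all G ι s f h0 hC hA
  rw [hs, hcf] at hP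
  rw [hcf] at hT
  have htop : (⊤ : AddSubgroup G) ≠ ⊥ := by
    intro h
    have h1 : Nat.card (⊤ : AddSubgroup G) = Nat.card (⊥ : AddSubgroup G) := by rw [h]
    rw [AddSubgroup.card_top, AddSubgroup.card_bot] at h1
    have h2 : Nat.card G = 2 ^ a * p := hF.2.2.1
    have h3 : 5 ≤ p := hF.2.1
    have h4 : 1 * 5 ≤ 2 ^ a * p := Nat.mul_le_mul Nat.one_le_two_pow h3
    omega
  have hTne : (FS s f).Nonempty := card_pos.mp (by omega)
  have hN : (FS s f).card + 1 ≤ Nat.card G := by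
    have := k4 (FS s f) ⊤ hTne htop (fun _ _ => AddSubgroup.mem_top _) hA
    rwa [AddSubgroup.card_top] at this
  have hpa : 2 ^ a = 2 * 2 ^ (a - 1) := by
    rw [← pow_succ']
    congr 1
    omega
  have hW : ∀ M' : AddSubgroup G, M'.index = 2 → a + 1 ≤ (outs s f M').card :=
    fun M' hM' => hWb G ι a p (2 * l) s f M' hctx' (by omega) (by omega) hM'
  obtain ⟨s1, s2, hd, hun, hAE1, hAE2, hc1, hc2, hg1, hg2⟩ := hHf G ι a p s f hF (by omega) h0 hC hA hW
  rw [hs] at hc1 hc2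
  have hc1' : s1.card = l := by omega
  have hc2' : s2.card = l := by omega
  have hsum : FS s f = FS s1 f + FS s2 f := by
    rw [← hun]
    exact b1 s1 s2 hd
  have hne1 : (FS s1 f).Nonempty := by
    rw [hsum] at hTne
    exact hTne.of_add_left
  have hne2 : (FS s2 f).Nonempty := by
    rw [hsum] at hTne
    exact hTne.of_add_right
  have hA' : Aper (FS s1 f + FS s2 f) := by rw [← hsum]; exact hA
  have hKa : (FS s1 f).card + (FS s2 f).card ≤ (FS s f).card + 1 := by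
    rw [hsum]
    exact k1 _ _ hne1 hne2 hA'
  have hKb : (FS s1 f).card + (FS s2 f).card ≤ Nat.card G := by
    have := k2 (FS s1 f) (FS s2 f) ⊤ hne1 hne2 htop (fun _ _ => AddSubgroup.mem_top _)
      (fun _ _ => AddSubgroup.mem_top _) hA'
    rwa [AddSubgroup.card_top] at this
  have hll : l * (l + 1) = l * l + l := by ring
  rcases le_total (FS s1 f).card (FS s2 f).card with hle | hle
  · exact Ev_half hBt hGt hAv2 hAl hLa hEvB G ι a p l s1 s2 f hF ha hh hl hhl hd hAE1 hAE2 hc1' hc2'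
      (by rw [hun]; exact hA) hg1 hg2 (by rw [hun]; omega) (by omega) (by rw [hun]; exact hKa) hKb hle
  · have hun' : s2 ∪ s1 = s := by rw [union_comm]; exact hun
    exact Ev_half hBt hGt hAv2 hAl hLa hEvB G ι a p l s2 s1 f hF ha hh hl hhl hd.symm hAE2 hAE1 hc2' hc1'
      (by rw [hun']; exact hA) hg2 hg1 (by rw [hun']; omega) (by omega) (by rw [hun']; omega) (by omega) hle

end Pool.Agent.SZA
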