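import Pool.Agent.SZA.St
import Pool.Agent.SSX.Main

/-!
# SZA EvB: both halves have `1 + l (l+1)/2 + h/2 - 1` sums (offer 16738, helper66)
-/

set_option autoImplicit false

noncomputable section

open Finset Pool.Agent.Helper64.Rho Pool.Agent.SDG Pool.Agent.MDR Pool.Agent.SSC Pool.Agent.SSE Pool.Agent.SSF
open scoped Classical Pointwise

namespace Pool.Agent.SZA

private lemma EvB_card {G : Type} [AddCommGroup G] [Finite G] {a p : ℕ} (h : FA a p G) (ha : 3 ≤ a) :
    8 ∣ Nat.card G ∧ 2 ≤ Nat.card G := by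
  obtain ⟨_, hp, hN, _⟩ := h
  have h1 : 2 ^ a = 8 * 2 ^ (a - 3) := by
    have : a = 3 + (a - 3) := by omega
    conv_lhs => rw [this]
    rw [pow_add]
    norm_num
  have h2 : 1 ≤ 2 ^ (a - 3) := Nat.one_le_two_pow
  rw [hN, h1]
  refine ⟨⟨2 ^ (a - 3) * p, by ring⟩, ?_⟩
  have h3 : 1 * 5 ≤ 2 ^ (a - 3) * p := Nat.mul_le_mul h2 hp
  nlinarith

private lemma EvB_half {a : ℕ} (ha : 3 ≤ a) : ∃ k : ℕ, 2 ^ (a - 1) = 2 * k ∧ 2 ≤ k := by
  refine ⟨2 ^ (a - 2), ?_, ?_⟩
  · have : a - 1 = (a - 2) + 1 := by omega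
    rw [this, pow_succ]
    ring
  · have h1 : 2 ^ 1 ≤ 2 ^ (a - 2) := Nat.pow_le_pow_right (by norm_num) (by omega)
    simpa using h1

private lemma EvB_ins {G ι : Type} [AddCommGroup G] (s : Finset ι) (f : ι → G) (y : ι) (hy : y ∉ s) :
    (FS (insert y s) f).card = (FS s f).card + lam (FS s f) (f y) := by
  rw [FS_insert hy, card_union_shift]

private lemma EvB_AE {G ι : Type} [AddCommGroup G] (s : Finset ι) (f : ι → G) (y : ι)
    (hs : AE s f) (h0 : f y ≠ 0) (h2 : f y + f y ≠ 0)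
    (hn : ∀ x ∈ s, f y ≠ f x ∧ f y ≠ - f x) : AE (insert y s) f := by
  refine ⟨⟨?_, ?_⟩, ?_⟩
  · intro i hi
    rcases mem_insert.1 hi with rfl | hi
    · exact h0
    · exact hs.1.1 i hi
  · intro x
    rw [filter_insert]
    split_ifs with hx
    · have h3 : (s.filter fun i => f i = x ∨ f i = -x) = ∅ := by
        rw [filter_eq_empty_iff]
        intro i hi hc
        obtain ⟨h4, h5⟩ := hn i hi
        rcases hx with hx | hx <;> rcases hc with hc | hc
        · exact h4 (by rw [hx, hc])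
        · exact h5 (by rw [hx, hc, neg_neg])
        · exact h5 (by rw [hx, hc])
        · exact h4 (by rw [hx, hc])
      rw [h3]
      simp
    · exact hs.1.2 x
  · intro i hi
    rcases mem_insert.1 hi with rfl | hi
    · exact h2
    · exact hs.2 i hi

/-- one half: every member changes few sums -/
private lemma EvB_few {G ι : Type} [AddCommGroup G] [Finite G] {a p l : ℕ} (La : St_La) (hFA : FA a p G) (ha : 3 ≤ a)
    (hp : 2 ^ (a - 1) ≤ 2 * p) (hl : 6 ≤ l) (hhl : 2 ^ (a - 1) + 1 ≤ l) (u : Finset ι) (f : ι → G)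
    (hA : AE u f) (hAp : Aper (FS u f)) (hg : gen u f = ⊤) (hc : u.card = l)
    (hX : 2 * (FS u f).card = l * (l + 1) + 2 ^ (a - 1)) (hN : l * (l + 1) + 2 ^ (a - 1) ≤ Nat.card G) :
    ∀ i ∈ u, l * (l - 1) + 2 + 2 ^ (a - 1) ≤ 2 * (FS (u.erase i) f).card ∧ lam (FS u f) (f i) + 1 ≤ l := by
  intro i hi
  obtain ⟨m, rfl⟩ : ∃ m, l = m + 6 := ⟨l - 6, by omega⟩
  have h1 := La G ι a p u f i hFA ha hp (by omega) hA hAp hg (by omega) (by
    rw [hc]
    have : 1 ≤ 2 ^ (a - 1) := Nat.one_le_two_pow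
    nlinarith) hi
  rw [hc, hX] at h1
  generalize 2 ^ (a - 1) = h at *
  have e1 : m + 6 - 1 = m + 5 := by omega
  rw [e1] at h1 ⊢
  rcases h1 with ⟨h2, h3⟩ | h2
  · exact ⟨h2, by nlinarith⟩
  · exfalso
    nlinarith

theorem thm_EvB : St_Gf1 → St_Gt → St_Av3 → St_La → St_B2 → St_EvB := by
  intro _ Gt Av3 La B2 G ι _ _ a p l s1 s2 f hFA ha hp hl hhl hd hA1 hA2 hc1 hc2 hAp hg1 hg2 hX1 hX2 hT hN
  obtain ⟨hS, hSub, -, -, -, -, -⟩ := SDG.all_Ba1 G ι f
  obtain ⟨K1, K2, -, -⟩ := SDG.all_Kn G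
  obtain ⟨h8, hN2⟩ := EvB_card hFA ha
  obtain ⟨k, hk, hk2⟩ := EvB_half ha
  have hsum := hS s1 s2 hd
  have hAp1 := hSub (s1 ∪ s2) s1 subset_union_left hAp
  have hAp2 := hSub (s1 ∪ s2) s2 subset_union_right hAp
  have hbt : (⊤ : AddSubgroup G) ≠ ⊥ := by
    intro h
    have h1 : Nat.card (⊤ : AddSubgroup G) = 1 := by rw [h]; exact AddSubgroup.card_bot
    rw [AddSubgroup.card_top] at h1
    omega
  have hN1 : (FS s1 f).card + (FS s2 f).card ≤ Nat.card G := by
    have := K2 (FS s1 f) (FS s2 f) ⊤ ⟨0, zero_mem_FS _ _⟩ ⟨0, zero_mem_FS _ _⟩ hbt (fun _ _ => AddSubgroup.mem_top _)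
      (fun _ _ => AddSubgroup.mem_top _) (by rw [← hsum]; exact hAp)
    rwa [AddSubgroup.card_top] at this
  have hN3 : l * (l + 1) + 2 ^ (a - 1) ≤ Nat.card G := by omega
  have F1 := EvB_few La hFA ha hp hl hhl s1 f hA1 hAp1 hg1 hc1 hX1 hN3
  have F2 := EvB_few La hFA ha hp hl hhl s2 f hA2 hAp2 hg2 hc2 hX2 hN3
  have hlam : ∀ y ∈ s2, y ∉ s1 ∧ lam (FS s1 f) (f y) + 1 ≤ l := by
    intro y hy
    have hy1 : y ∉ s1 := fun h => disjoint_left.1 hd h hy
    have hd' : Disjoint (insert y s1) (s2.erase y) := by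
      rw [disjoint_left]
      intro z hz hz2
      rcases mem_insert.1 hz with rfl | hz
      · simp at hz2
      · exact disjoint_left.1 hd hz (mem_of_mem_erase hz2)
    have hu : insert y s1 ∪ s2.erase y = s1 ∪ s2 := by
      ext z
      simp only [mem_union, mem_insert, mem_erase]
      constructor
      · rintro ((rfl | h) | h)
        · exact Or.inr hy
        · exact Or.inl h
        · exact Or.inr h.2
      · rintro (h | h)
        · exact Or.inl (Or.inr h)
        · by_cases hz : z = y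
          · exact Or.inl (Or.inl hz)
          · exact Or.inr ⟨hz, h⟩
    have h1 := hS _ _ hd'
    rw [hu] at h1
    have h2 := K1 (FS (insert y s1) f) (FS (s2.erase y) f) ⟨0, zero_mem_FS _ _⟩ ⟨0, zero_mem_FS _ _⟩
      (by rw [← h1]; exact hAp)
    rw [← h1, EvB_ins s1 f y hy1] at h2
    have h3 := (F2 y hy).1
    refine ⟨hy1, ?_⟩
    obtain ⟨m, rfl⟩ : ∃ m, l = m + 6 := ⟨l - 6, by omega⟩
    have e1 : m + 6 - 1 = m + 5 := by omega
    rw [e1] at h3
    generalize 2 ^ (a - 1) = h at *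
    nlinarith
  by_cases hb : ∀ y ∈ s2, ∃ x ∈ s1, f y = f x ∨ f y = - f x
  · have hz : ∃ z : G, z ∉ FS s1 f + FS s2 f := by
      by_contra hcon
      push Not at hcon
      rw [← hsum] at hcon
      have h1 : Nontrivial G := by
        rw [← Finite.one_lt_card_iff_nontrivial]
        omega
      obtain ⟨g, hg⟩ := exists_ne (0 : G)
      exact hg (hAp g (fun x _ => hcon _))
    refine B2 G ι l s1 s2 f hl hA1 hA2 hc1 hc2 hb hz (fun i hi => (F1 i hi).2) (by omega) hN ?_ ?_
    · intro hodd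
      obtain ⟨c, hc⟩ := h8
      obtain ⟨d, hd⟩ : ∃ d, l = 2 * d + 1 := ⟨l / 2, by omega⟩
      rw [hc, hd] at hN ⊢
      have e1 : (2 * d + 1) * (2 * d + 1) + 2 * (2 * d + 1) = 4 * (d * d + 2 * d) + 3 := by ring
      rw [e1] at hN ⊢
      omega
    · have h1 := Gt G ι a p s1 f hFA ha hA1 hAp1 hg1 (by omega) (by
        rw [hc1]
        obtain ⟨m, rfl⟩ : ∃ m, l = m + 6 := ⟨l - 6, by omega⟩
        have e1 : m + 6 - 1 = m + 5 := by omega
        rw [e1]
        nlinarith)
      rw [hc1] at h1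
      rcases h1 with h1 | h1
      · exfalso
        omega
      · exact h1
  · push Not at hb
    obtain ⟨y, hy, hyn⟩ := hb
    obtain ⟨hy1, hy2⟩ := hlam y hy
    have hAu : AE (insert y s1) f := EvB_AE s1 f y hA1 (hA2.1.1 y hy) (hA2.2 y hy) hyn
    have hsub : insert y s1 ⊆ s1 ∪ s2 := by
      intro z hz
      rcases mem_insert.1 hz with rfl | hz
      · exact mem_union_right _ hy
      · exact mem_union_left _ hz
    have hApu := hSub (s1 ∪ s2) (insert y s1) hsub hAp
    have hgu : gen (insert y s1) f = ⊤ := by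
      rw [eq_top_iff, ← hg1]
      unfold gen
      refine AddSubgroup.closure_mono (Set.image_mono ?_)
      intro z hz
      simp only [coe_insert]
      exact Set.mem_insert_of_mem _ hz
    have hcu : (insert y s1).card = l + 1 := by rw [card_insert_of_notMem hy1, hc1]
    have h1 := Gt G ι a p (insert y s1) f hFA ha hAu hApu hgu (by omega) (by
      rw [hcu]
      have e1 : l + 1 - 1 = l := by omega
      rw [e1]
      nlinarith)
    rw [hcu, EvB_ins s1 f y hy1] at h1
    have hGro : Gro (l + 1) (sym (insert y s1) f) := by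
      rcases h1 with h1 | h1
      · exfalso
        nlinarith
      · exact h1
    obtain ⟨Y1, Y2, -, -, Y5, -, -⟩ := SSE.all_SyE G ι (insert y s1) f hAu
    have hD := Y5 (FS s1 f) (l - 1) (by
      intro i hi
      rcases mem_insert.1 hi with rfl | hi
      · omega
      · have := (F1 i hi).2
        omega)
    refine Av3 G (FS s1 f) (sym (insert y s1) f) l (k - 1) Y2 hl (fun z hz => ?_) ?_ ?_ ?_ ?_ hGro
    · have := hD z hz
      omega
    · rw [Y1, hcu]
      ring
    · rw [hX1, hk]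
      omega
    · omega
    · rw [hX1]
      exact hN3

end Pool.Agent.SZA
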