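import Pool.Agent.SZA.St

/-!
# SZA FinA: the statement for `Z_2^a × Z_p`
-/

set_option autoImplicit false

noncomputable section

open Finset Pool.Agent.Helper64.Rho Pool.Agent.SDG Pool.Agent.MDR Pool.Agent.SSC Pool.Agent.SSE Pool.Agent.SSF
open scoped Classical Pointwise

namespace Pool.Agent.SZA

theorem thm_FinA : St_Ev → St_Od → St_FinA := by
  intro hEv hOd G ι _ _ a p s f hFA ha hp h10 hs h0 hcap haper hgen
  by_contra hlt
  have hpow : 2 ^ a = 2 * 2 ^ (a - 1) := by
    obtain ⟨b, rfl⟩ : ∃ b, a = b + 1 := ⟨a - 1, by omega⟩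
    rw [Nat.add_sub_cancel, pow_succ]
    ring
  have hctx : CtxA a p s.card s f := ⟨hFA, ha, hp, rfl, h0, hcap, haper, hgen, by omega⟩
  rcases Nat.even_or_odd' s.card with ⟨l, hl | hl⟩
  · refine hEv G ι a p l s f (by omega) (by omega) ?_
    rw [← hl]
    exact hctx
  · refine hOd G ι a p (l + 1) s f (by omega) (by omega) ?_
    have e : 2 * (l + 1) - 1 = s.card := by omega
    rw [e]
    exact hctx

end Pool.Agent.SZA
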