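import Pool.Agent.SZA.Defs
import Pool.Agent.KAU.All
import Pool.Agent.SSE.GS
import Pool.Agent.SSE.GwE
import Pool.Agent.SSE.Gk
import Pool.Agent.SSE.Mx
import Pool.Agent.SSE.Cy
import Pool.Agent.SSE.SyE

/-!
# SZA GRB: the growth theorem in arbitrary finite abelian groups, with a smaller tolerance (helper97; copy of KAU GRA of helper72)
-/

set_option autoImplicit false

noncomputable section

open Finset Pool.Agent.Helper64.Rho Pool.Agent.SDG Pool.Agent.MDR Pool.Agent.SSE Pool.Agent.KAT
open scoped Classical Pointwise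

namespace Pool.Agent.SZA

open Pool.Agent.KAU

/-- tolerances -/
def TolB (l τ : ℕ) : Prop := τ ≤ 4 ∨ 2 * τ ≤ l + 1

private theorem GRB_mem_st {G : Type} [AddCommGroup G] [Finite G] {A : Finset G} {H : AddSubgroup G} {x : G} :
    x ∈ st A H ↔ ∃ a ∈ A, x - a ∈ H := by
  unfold st
  simp

private theorem GRB_mk {G : Type} [AddCommGroup G] {K : AddSubgroup G} {x y : G} :
    (QuotientAddGroup.mk x : G ⧸ K) = QuotientAddGroup.mk y ↔ x - y ∈ K := by
  rw [eq_comm, QuotientAddGroup.eq, neg_add_eq_sub]

private theorem GRB_mk0 {G : Type} [AddCommGroup G] {K : AddSubgroup G} {x : G} :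
    (QuotientAddGroup.mk x : G ⧸ K) = 0 ↔ x ∈ K :=
  QuotientAddGroup.eq_zero_iff x

private theorem GRB_st_bot {Q : Type} [AddCommGroup Q] [Finite Q] (E : Finset Q) :
    st E (⊥ : AddSubgroup Q) = E := by
  ext x
  rw [GRB_mem_st]
  constructor
  · rintro ⟨a, ha, h⟩
    rw [AddSubgroup.mem_bot, sub_eq_zero] at h
    rw [h]
    exact ha
  · intro hx
    exact ⟨x, hx, by rw [sub_self]; exact AddSubgroup.zero_mem _⟩

private theorem GRB_it_one {Q : Type} [AddCommGroup Q] (E : Finset Q) : it E 1 = E := by
  show ({0} : Finset Q) + E = E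
  rw [singleton_zero, zero_add]

private theorem GRB_it_two {Q : Type} [AddCommGroup Q] (E : Finset Q) : it E 2 = E + E := by
  show ({0} : Finset Q) + E + E = E + E
  rw [singleton_zero, zero_add]

/-- induction with GS -/
private theorem GRB_ind {Q : Type} [AddCommGroup Q] [Finite Q] (E : Finset Q)
    (h0 : (0 : Q) ∈ E) (hs : ∀ y ∈ E, -y ∈ E) (h2 : 2 ≤ E.card) (hN : ¬ NearP E)
    (hA : ¬ APK E ⊥) : ∀ i, 1 ≤ i → E.card ≤ (it E i).card ∧
      (i * E.card ≤ (it E i).card ∨ Nat.card Q ≤ (it E i).card + 1) := by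
  intro i hi
  induction i, hi using Nat.le_induction with
  | base =>
    rw [GRB_it_one]
    exact ⟨le_rfl, Or.inl (by omega)⟩
  | succ i hi ih =>
    obtain ⟨ih1, ih2⟩ := ih
    have hsub : it E i ⊆ it E i + E := by
      intro x hx
      rw [mem_add]
      exact ⟨x, hx, 0, h0, add_zero x⟩
    have hle : (it E i).card ≤ (it E i + E).card := card_le_card hsub
    have hit : it E (i + 1) = it E i + E := rfl
    rw [hit]
    refine ⟨ih1.trans hle, ?_⟩
    by_cases hc : (it E i + E).card + 2 ≤ Nat.card Q
    · left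
      have h3 := thm_GS Q E (it E i) h0 hs h2 hN hA (h2.trans ih1) hc
      rcases ih2 with h4 | h4
      · rw [add_mul, one_mul]
        omega
      · omega
    · right
      omega

/-- a group killed by 2 with few generators is small -/
private theorem GRB_cl {Q : Type} [AddCommGroup Q] [Finite Q] (E : Finset Q)
    (h2 : ∀ x : Q, x + x = 0) (hgen : ∀ L : AddSubgroup Q, (∀ y ∈ E, y ∈ L) → L = ⊤)
    (h0 : (0 : Q) ∈ E) : Nat.card Q ≤ 2 ^ (E.card - 1) := by
  let _ : Module (ZMod 2) Q :=
    AddCommGroup.zmodModule (n := 2) (fun x => by rw [two_nsmul]; exact h2 x)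
  let φ : ((E.erase 0 : Finset Q) → ZMod 2) →ₗ[ZMod 2] Q :=
    Fintype.linearCombination (ZMod 2) (fun e : (E.erase 0 : Finset Q) => (e : Q))
  have h3 : (LinearMap.range φ).toAddSubgroup = ⊤ := by
    apply hgen
    intro y hy
    by_cases hy0 : y = 0
    · rw [hy0]
      exact AddSubgroup.zero_mem _
    · refine ⟨Pi.single ⟨y, mem_erase.2 ⟨hy0, hy⟩⟩ 1, ?_⟩
      simp [φ, Fintype.linearCombination_apply_single]
  have h4 : Function.Surjective φ := by
    intro x
    have h5 : x ∈ (LinearMap.range φ).toAddSubgroup := by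
      rw [h3]
      exact AddSubgroup.mem_top x
    exact h5
  have h5 := Nat.card_le_card_of_surjective φ h4
  have h6 : Nat.card (E.erase 0 : Finset Q) = E.card - 1 := by
    rw [Nat.card_eq_fintype_card, Fintype.card_coe, card_erase_of_mem h0]
  rw [Nat.card_fun, Nat.card_zmod, h6] at h5
  exact h5

/-- a finite group killed by 2 of order at least 5 has order divisible by 8 -/
private theorem GRB_eight {K : Type} [AddCommGroup K] [Finite K] (h2 : ∀ x : K, x + x = 0)
    (h5 : 5 ≤ Nat.card K) : 8 ∣ Nat.card K := by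
  have : Fact (Nat.Prime 2) := ⟨Nat.prime_two⟩
  have h1 : IsPGroup 2 (Multiplicative K) := by
    intro x
    refine ⟨1, ?_⟩
    rw [pow_one, pow_two]
    exact h2 x
  obtain ⟨r, hr⟩ := IsPGroup.iff_card.1 h1
  have h3 : Nat.card K = 2 ^ r := hr
  rw [h3] at h5 ⊢
  have h4 : 3 ≤ r := by
    by_contra hc
    have h6 : r ≤ 2 := by omega
    have h7 : 2 ^ r ≤ 2 ^ 2 := Nat.pow_le_pow_right (by norm_num) h6
    omega
  exact pow_dvd_pow 2 h4

theorem thm_GRB : Pool.Agent.KAT.St_Rw → Pool.Agent.KAT.St_Fr → St_Coq → St_Dfq → St_Qtq →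
    ∀ (G ι : Type) [AddCommGroup G] [Finite G] (u : Finset ι) (f : ι → G), ¬ IsAddCyclic G → AE u f → gen u f = ⊤ → 5 ≤ u.card →
    DCX u f → u.card * (u.card - 1) + 2 ≤ Nat.card G →
      (∃ K : AddSubgroup G, NF (sym u f) K ∧ (Nat.card K ≤ 4 ∨ ∀ x ∈ K, x + x = 0) ∧ APK (sym u f) K) ∨ Gro u.card (sym u f) := by
  intro hRw hFr hCo hDf hQt G ι _ _ u f hnc hAE hgen hu hDC hn0
  obtain ⟨hcard, h0, hs, hcl, -, -, -⟩ := thm_SyE G ι u f hAE
  obtain ⟨hDCs, hSY⟩ := hDf G ι u f hAE hDC
  rw [hgen] at hcl
  have hn : 4 * u.card + 1 ≤ Nat.card G := by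
    refine le_trans ?_ hn0
    obtain ⟨t, ht⟩ : ∃ t, u.card = t + 5 := ⟨u.card - 5, by omega⟩
    rw [ht, show t + 5 - 1 = t + 4 from rfl]
    nlinarith
  set D := sym u f with hD
  set l := u.card with hl
  have hTol : ∀ τ : ℕ, 5 * τ ≤ 2 * l + 1 → TolB l τ := fun τ hτ => Or.inr (by omega)
  by_cases hN : NearP D
  swap
  · -- the set is not nearly filled
    refine Or.inr (Or.inl ?_)
    have hHyp : Hyq 4 l D := ⟨hnc, hSY, hcl, hcard, hn, hN, hDCs, Or.inl ⟨rfl, hu⟩⟩
    intro i hi
    rcases hCo G 4 l D hHyp i hi with (h | h | ⟨h, h2 | h2⟩) | ⟨τ, h1, h2⟩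
    · exact Or.inl ⟨4, Or.inl le_rfl, h⟩
    · exact Or.inr (Or.inl h)
    · right; right
      refine ⟨h2, ?_⟩
      rw [h2] at h ⊢
      omega
    · omega
    · exact Or.inl ⟨τ, hTol τ h1, h2⟩
  -- the nearly filled case
  obtain ⟨K, ⟨hKb, hKt, hst⟩, hcst, hNear⟩ := thm_Mx G D hN
  obtain ⟨-, hsum, hwle, -, him, hrneg, -, -, hpar, -⟩ := hRw G D K
  have hK2 : 2 ≤ Nat.card K := by
    have h1 : 1 < Nat.card K := by
      rw [AddSubgroup.one_lt_card_iff_ne_bot]
      exact hKb
    omega
  have hNG : Nat.card G = Nat.card (G ⧸ K) * Nat.card K :=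
    AddSubgroup.card_eq_card_quotient_mul_card_addSubgroup K
  have h0' : (0 : G ⧸ K) ∈ im D K := by
    unfold im
    rw [mem_image]
    exact ⟨0, h0, rfl⟩
  have hs' : ∀ q ∈ im D K, -q ∈ im D K := by
    intro q hq
    unfold im at hq ⊢
    rw [mem_image] at hq ⊢
    obtain ⟨a, ha, rfl⟩ := hq
    exact ⟨-a, hs a ha, rfl⟩
  have hmem : ∀ y ∈ D, (QuotientAddGroup.mk y : G ⧸ K) ∈ im D K := by
    intro y hy
    unfold im
    rw [mem_image]
    exact ⟨y, hy, rfl⟩
  -- D generates
  have hgenL : ∀ L : AddSubgroup G, (∀ y ∈ D, y ∈ L) → L = ⊤ := by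
    intro L hL
    rw [eq_top_iff, ← hcl, AddSubgroup.closure_le]
    intro y hy
    exact hL y (by exact_mod_cast hy)
  have hgenQ : ∀ L : AddSubgroup (G ⧸ K), (∀ y ∈ im D K, y ∈ L) → L = ⊤ := by
    intro L hL
    have h1 : L.comap (QuotientAddGroup.mk' K) = ⊤ := by
      apply hgenL
      intro y hy
      rw [AddSubgroup.mem_comap]
      exact hL _ (hmem y hy)
    rw [eq_top_iff]
    intro x _
    obtain ⟨y, rfl⟩ := QuotientAddGroup.mk_surjective x
    have h7 : y ∈ L.comap (QuotientAddGroup.mk' K) := by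
      rw [h1]; exact AddSubgroup.mem_top y
    rw [AddSubgroup.mem_comap] at h7
    exact h7
  have hm2 : 2 ≤ (im D K).card := by
    by_contra hc
    apply hKt
    apply hgenL
    intro y hy
    have h1 := card_le_one.1 (show (im D K).card ≤ 1 by omega) _ (hmem y hy) _ h0'
    exact GRB_mk0.1 h1
  have hdef : ∑ δ ∈ im D K, (Nat.card K - (rq D K δ).card) + D.card =
      Nat.card K * (im D K).card := by
    rw [hsum, ← sum_add_distrib]
    rw [sum_congr rfl (fun δ _ => Nat.sub_add_cancel (hwle δ)), sum_const, smul_eq_mul, mul_comm]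
  have hsubst : D ⊆ st D K := fun x hx => GRB_mem_st.2 ⟨x, hx, by rw [sub_self]; exact K.zero_mem⟩
  have hlow := card_le_card hsubst
  by_cases hrow : ∃ γ ∈ im D K, γ + γ ≠ 0
  · -- a row of order different from two
    obtain ⟨γ, hγ, hγγ⟩ := hrow
    have hγ0 : γ ≠ 0 := by
      rintro rfl
      exact hγγ (add_zero 0)
    have hγn : γ ≠ -γ := fun h => hγγ (by nth_rewrite 2 [h]; exact add_neg_cancel γ)
    have h3sub : ({0, γ, -γ} : Finset (G ⧸ K)) ⊆ im D K := by
      intro x hx
      rw [mem_insert, mem_insert, mem_singleton] at hx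
      rcases hx with rfl | rfl | rfl
      · exact h0'
      · exact hγ
      · exact hs' _ hγ
    have h3card : ({0, γ, -γ} : Finset (G ⧸ K)).card = 3 := by
      rw [card_insert_of_notMem, card_insert_of_notMem, card_singleton]
      · rw [mem_singleton]; exact hγn
      · rw [mem_insert, mem_singleton]
        rintro (h | h)
        · exact hγ0 h.symm
        · exact hγ0 (neg_eq_zero.1 h.symm)
    have hK4 : Nat.card K ≤ 4 ∨ ∀ x ∈ K, x + x = 0 := by
      have h9 : 2 * Nat.card K + 1 ≤ 2 * (rq D K γ).card + (rq D K 0).card := by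
        have h2 : ∑ δ ∈ ({0, γ, -γ} : Finset (G ⧸ K)), (Nat.card K - (rq D K δ).card) ≤
            ∑ δ ∈ im D K, (Nat.card K - (rq D K δ).card) :=
          sum_le_sum_of_subset h3sub
        rw [sum_insert, sum_insert, sum_singleton, hrneg hs] at h2
        · have h4 := hwle 0
          have h5 := hwle γ
          omega
        · rw [mem_singleton]; exact hγn
        · rw [mem_insert, mem_singleton]
          rintro (h | h)
          · exact hγ0 h.symm
          · exact hγ0 (neg_eq_zero.1 h.symm)
      rcases hDCs K γ hKb hγγ h9 with h | ⟨-, h⟩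
      · exact Or.inl h
      · exact Or.inr h
    have hy : ∃ y ∈ D, y + y ∉ K := by
      unfold im at hγ
      rw [mem_image] at hγ
      obtain ⟨y, hy, rfl⟩ := hγ
      refine ⟨y, hy, fun h => hγγ ?_⟩
      rw [← QuotientAddGroup.mk_add]
      exact GRB_mk0.2 h
    by_cases hA : APK (im D K) ⊥
    · left
      refine ⟨K, ⟨hKb, hKt, hst⟩, hK4, ?_⟩
      obtain ⟨d', a, hd1, hd2, hd3⟩ := hA
      obtain ⟨d, rfl⟩ := QuotientAddGroup.mk_surjective d'
      have hmd : ∀ k : ℕ, k • (QuotientAddGroup.mk d : G ⧸ K) = QuotientAddGroup.mk (k • d) :=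
        fun k => rfl
      refine ⟨d, a, ?_, ?_, ?_⟩
      · intro x
        obtain ⟨k, hk⟩ := hd1 (QuotientAddGroup.mk x)
        refine ⟨k, ?_⟩
        rw [AddSubgroup.mem_bot, sub_eq_zero, hmd] at hk
        exact GRB_mk.1 hk
      · rw [GRB_st_bot, AddSubgroup.card_bot, one_mul] at hd2
        rw [hcst, hd2]
      · intro y hyD
        obtain ⟨k, hk, h2⟩ := hd3 _ (hmem y hyD)
        refine ⟨k, hk, ?_⟩
        rcases h2 with h2 | h2
        · left
          rw [AddSubgroup.mem_bot, sub_eq_zero, hmd] at h2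
          exact GRB_mk.1 h2
        · right
          rw [AddSubgroup.mem_bot, hmd] at h2
          exact GRB_mk0.1 h2
    · have hbig : 5 ≤ Nat.card K → Nat.card K * (im D K).card = 2 * l + Nat.card K ∧ 8 ∣ Nat.card K ∧ 4 ≤ (im D K).card := by
        intro hk5
        have hK2' : ∀ x ∈ K, x + x = 0 := by
          rcases hK4 with h | h
          · omega
          · exact h
        -- the row 0 is {0}
        have hw0 : (rq D K 0).card = 1 := by
          rw [card_eq_one]
          refine ⟨0, ?_⟩
          ext x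
          rw [mem_singleton]
          unfold rq
          rw [mem_filter]
          constructor
          · rintro ⟨hx, hx0⟩
            exact hSY.2.2 x hx (hK2' x (GRB_mk0.1 hx0))
          · rintro rfl
            exact ⟨h0, rfl⟩
        have h1 : (m0 : ℕ) → m0 = (im D K).card → Nat.card K * m0 = 2 * l + Nat.card K := by
          intro m0 hm0
          have h2 : Nat.card K - (rq D K 0).card ≤
              ∑ δ ∈ im D K, (Nat.card K - (rq D K δ).card) :=
            single_le_sum (f := fun δ => Nat.card K - (rq D K δ).card)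
              (fun _ _ => Nat.zero_le _) h0'
          rw [hw0] at h2
          rw [hm0]
          omega
        obtain ⟨m, hm⟩ : ∃ m, m = (im D K).card := ⟨_, rfl⟩
        have h2 := h1 m hm
        have hm3 : 4 ≤ m := by
          by_contra hc
          have h3 := card_le_card h3sub
          rw [h3card] at h3
          have h4 : (im D K).card = 3 := by omega
          have h5 : ({0, γ, -γ} : Finset (G ⧸ K)) = im D K :=
            eq_of_subset_of_card_le h3sub (by rw [h4, h3card])
          apply hA
          refine ⟨γ, 1, ?_, ?_, ?_⟩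
          · intro x
            have h6 : AddSubgroup.zmultiples γ = ⊤ := by
              apply hgenQ
              intro y hy
              rw [← h5, mem_insert, mem_insert, mem_singleton] at hy
              rcases hy with rfl | rfl | rfl
              · exact AddSubgroup.zero_mem _
              · exact AddSubgroup.mem_zmultiples _
              · exact AddSubgroup.neg_mem _ (AddSubgroup.mem_zmultiples _)
            have h7 : x ∈ AddSubgroup.zmultiples γ := by
              rw [h6]
              exact AddSubgroup.mem_top x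
            rw [← mem_multiples_iff_mem_zmultiples] at h7
            obtain ⟨k, hk⟩ := h7
            refine ⟨k, ?_⟩
            rw [AddSubgroup.mem_bot, sub_eq_zero]
            exact hk.symm
          · rw [GRB_st_bot, AddSubgroup.card_bot, h4]
          · intro y hy
            rw [← h5, mem_insert, mem_insert, mem_singleton] at hy
            rcases hy with rfl | rfl | rfl
            · exact ⟨0, by omega, Or.inl (by rw [zero_smul, sub_zero]; exact AddSubgroup.zero_mem _)⟩
            · exact ⟨1, le_rfl, Or.inl (by rw [one_smul, sub_self]; exact AddSubgroup.zero_mem _)⟩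
            · exact ⟨1, le_rfl, Or.inr (by rw [one_smul, neg_add_cancel]; exact AddSubgroup.zero_mem _)⟩
        have h8 : 8 ∣ Nat.card K := by
          refine GRB_eight (K := K) ?_ hk5
          rintro ⟨x, hx⟩
          exact Subtype.ext (hK2' x hx)
        rw [← hm]
        exact ⟨h2, h8, hm3⟩
      by_cases h34 : 5 ≤ Nat.card K ∧ 3 * Nat.card K = 2 * l
      · obtain ⟨hk5, h34⟩ := h34
        obtain ⟨e1, ⟨r, hr⟩, e3⟩ := hbig hk5
        have hm4 : (im D K).card = 4 := by
          obtain ⟨m, hm⟩ : ∃ m, m = (im D K).card := ⟨_, rfl⟩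
          rw [← hm] at e1 e3 ⊢
          rw [hr] at e1 h34
          have e4 : 8 * r * m = 8 * r * 4 := by omega
          exact Nat.eq_of_mul_eq_mul_left (by omega) e4
        refine Or.inr (Or.inr ⟨Nat.card K / 2, by omega, by omega, by omega, ?_⟩)
        intro i hi
        have hcK := thm_Gk G D K h0 hs hy hst i hi
        obtain ⟨-, hor⟩ := GRB_ind (im D K) h0' hs' hm2 hNear hA i (by omega)
        rw [hm4] at hor
        obtain ⟨c, hc⟩ : ∃ c, c = (it (im D K) i).card := ⟨_, rfl⟩
        obtain ⟨q, hq⟩ : ∃ q, q = Nat.card (G ⧸ K) := ⟨_, rfl⟩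
        obtain ⟨κ, hκ⟩ : ∃ κ, κ = Nat.card K := ⟨_, rfl⟩
        rw [← hκ] at hcK hNG hr ⊢
        rw [← hc] at hor hcK
        rw [← hq] at hor hNG
        have hκ2 : κ = 2 * (κ / 2) := by omega
        rcases hor with h1 | h1
        · right
          rw [hcK]
          calc 8 * (κ / 2) * i = (2 * (κ / 2)) * (i * 4) := by ring
            _ = κ * (i * 4) := by rw [← hκ2]
            _ ≤ κ * c := Nat.mul_le_mul_left _ h1
        · left
          rw [hcK, hNG, ← hκ2]
          have h2 : q * κ ≤ (c + 1) * κ := Nat.mul_le_mul_right _ h1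
          have h3 : (c + 1) * κ = κ * c + κ := by ring
          omega
      refine Or.inr (Or.inl ?_)
      intro i hi1
      rcases Nat.lt_or_ge i 2 with hi | hi
      · have hi' : i = 1 := by omega
        right; left
        rw [hi', GRB_it_one]
        omega
      have hcK := thm_Gk G D K h0 hs hy hst i hi
      obtain ⟨-, hor⟩ := GRB_ind (im D K) h0' hs' hm2 hNear hA i (by omega)
      -- the tolerance
      have htol : TolB l (Nat.card K) := by
        rcases Nat.lt_or_ge (Nat.card K) 5 with hk5 | hk5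
        · exact Or.inl (by omega)
        · obtain ⟨e1, -, e3⟩ := hbig hk5
          obtain ⟨m, hm⟩ : ∃ m, m = (im D K).card := ⟨_, rfl⟩
          rw [← hm] at e1 e3
          rcases Nat.lt_or_ge m 5 with hm5 | hm5
          · have hm4 : m = 4 := by omega
            rw [hm4] at e1
            exact absurd ⟨hk5, by omega⟩ h34
          · have h3 : Nat.card K * 5 ≤ Nat.card K * m := Nat.mul_le_mul_left _ hm5
            right
            omega
      obtain ⟨m, hm⟩ : ∃ m, m = (im D K).card := ⟨_, rfl⟩
      obtain ⟨c, hc⟩ : ∃ c, c = (it (im D K) i).card := ⟨_, rfl⟩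
      obtain ⟨q, hq⟩ : ∃ q, q = Nat.card (G ⧸ K) := ⟨_, rfl⟩
      obtain ⟨κ, hκ⟩ : ∃ κ, κ = Nat.card K := ⟨_, rfl⟩
      rw [← hκ] at hcK hK2 hNG hst hcst htol
      rw [← hm] at hor hcst
      rw [← hc] at hor hcK
      rw [← hq] at hor hNG
      rcases hor with h1 | h1
      · -- the first case
        by_cases hmu : 2 * l + 2 ≤ κ * m
        · right
          left
          rw [hcK]
          calc i * (2 * l + 2) ≤ i * (κ * m) := Nat.mul_le_mul_left _ hmu
            _ = κ * (i * m) := by ring
            _ ≤ κ * c := Nat.mul_le_mul_left _ h1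
            _ ≤ κ * c + 1 := Nat.le_succ _
        · have hmu' : κ * m = 2 * l + 1 := by omega
          have hk5 : κ ≤ 4 := by
            rcases hK4 with h | h
            · omega
            · by_contra hk5
              have hw0 : (rq D K 0).card ≤ 1 := by
                rw [card_le_one]
                intro a ha b hb
                unfold rq at ha hb
                rw [mem_filter] at ha hb
                rw [hSY.2.2 a ha.1 (h a (GRB_mk0.1 ha.2)), hSY.2.2 b hb.1 (h b (GRB_mk0.1 hb.2))]
              have h2 : Nat.card K - (rq D K 0).card ≤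
                  ∑ δ ∈ im D K, (Nat.card K - (rq D K δ).card) :=
                single_le_sum (f := fun δ => Nat.card K - (rq D K δ).card)
                  (fun _ _ => Nat.zero_le _) h0'
              rw [← hκ, ← hm] at hdef
              rw [← hκ] at h2
              omega
          have hk3 : κ = 3 := by
            have h2 : κ = 2 ∨ κ = 3 ∨ κ = 4 := by omega
            rcases h2 with h2 | h2 | h2
            · rw [h2] at hmu'
              omega
            · exact h2
            · rw [h2] at hmu'
              omega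
          have hstD : (st D K).card = D.card := by omega
          rw [hk3] at hmu' hcK hNG
          obtain ⟨l', hl'⟩ : ∃ l', m = 2 * l' + 1 := ⟨(m - 1) / 2, by omega⟩
          have hl1 : 1 ≤ l' := by omega
          have hll : l = 3 * l' + 1 := by omega
          have h3 : (∃ τ', 5 * τ' ≤ 2 * l' + 1 ∧ q ≤ c + τ') ∨ q ≤ c + 1 ∨ i * (2 * l' + 2) ≤ c + 2 := by
            by_cases hcyc : IsAddCyclic (G ⧸ K)
            · right
              have h3 := thm_GwE thm_Cy thm_GS (G ⧸ K) (im D K) l' hcyc hl1 h0' hs' (by omega) hNear hA i (by omega)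
              have h4 := (thm_Cy (G ⧸ K) hcyc).2.2.2.2.2.2 (it (im D K) i)
              rw [← hc, ← hq] at h3
              rcases h3 with h3 | h3
              · exact Or.inl h3
              · right; omega
            · obtain ⟨l'', hl'', hH⟩ := hQt G l D K hSY hcl hcard hn hDCs hu (hκ ▸ hk3) hstD hNear hcyc
              have hle : l'' = l' := by omega
              rw [hle] at hH
              rcases hCo (G ⧸ K) 1 l' (im D K) hH i (by omega) with (h | h | ⟨h, -⟩) | ⟨τ, hτ, h⟩
              · rw [← hc, ← hq] at h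
                exact Or.inr (Or.inl h)
              · rw [← hc] at h
                right; right; omega
              · rw [← hc] at h
                exact Or.inr (Or.inr h)
              · rw [← hc, ← hq] at h
                exact Or.inl ⟨τ, hτ, h⟩
          rcases h3 with ⟨τ, hτ, h3⟩ | h3 | h5
          · left
            refine ⟨3 * τ, hTol _ (by omega), ?_⟩
            rw [hcK, hNG]
            omega
          · left
            refine ⟨3, Or.inl (by omega), ?_⟩
            rw [hcK, hNG]
            omega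
          · by_cases hi2 : i = 2
            · right
              right
              refine ⟨hi2, ?_⟩
              rw [hi2] at h5
              rw [hcK]
              omega
            · right
              left
              rw [hcK, hll]
              have hi3 : 3 ≤ i := by omega
              have h6 : 3 * (i * (2 * l' + 2)) = i * (2 * (3 * l' + 1) + 2) + 2 * i := by ring
              omega
      · left
        refine ⟨κ, htol, ?_⟩
        rw [hcK, hNG]
        have h2 : q * κ ≤ (c + 1) * κ := Nat.mul_le_mul_right _ h1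
        have h3 : (c + 1) * κ = κ * c + κ := by ring
        omega
  · -- all rows have order at most two
    push Not at hrow
    refine Or.inr (Or.inl ?_)
    have hxx : ∀ x : G, x + x ∈ K := by
      intro x
      set L : AddSubgroup G := K.comap (AddMonoidHom.id G + AddMonoidHom.id G) with hL
      have h2 : L = ⊤ := by
        apply hgenL
        intro y hy
        rw [hL, AddSubgroup.mem_comap]
        have h3 := hrow _ (hmem y hy)
        rw [← QuotientAddGroup.mk_add] at h3
        exact GRB_mk0.1 h3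
      have h3 : x ∈ L := by rw [h2]; exact AddSubgroup.mem_top x
      rw [hL, AddSubgroup.mem_comap] at h3
      exact h3
    have hQQ : ∀ x : G ⧸ K, x + x = 0 := by
      intro x
      obtain ⟨y, rfl⟩ := QuotientAddGroup.mk_surjective x
      rw [← QuotientAddGroup.mk_add]
      exact GRB_mk0.2 (hxx y)
    have hqm : Nat.card (G ⧸ K) ≤ 2 ^ ((im D K).card - 1) := GRB_cl _ hQQ hgenQ h0'
    -- deficits
    have hdd : ∀ δ ∈ im D K, ∀ δ' ∈ im D K, δ ≠ δ' →
        Nat.card K + 1 ≤ (rq D K δ).card + (rq D K δ').card := by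
      intro δ hδ δ' hδ' hne
      have h1 : ({δ, δ'} : Finset (G ⧸ K)) ⊆ im D K := by
        intro x hx
        rw [mem_insert, mem_singleton] at hx
        rcases hx with rfl | rfl
        · exact hδ
        · exact hδ'
      have h2 : ∑ ε ∈ ({δ, δ'} : Finset (G ⧸ K)), (Nat.card K - (rq D K ε).card) ≤
          ∑ ε ∈ im D K, (Nat.card K - (rq D K ε).card) := sum_le_sum_of_subset h1
      rw [sum_pair hne] at h2
      have h4 := hwle δ
      have h5 := hwle δ'
      omega
    obtain ⟨-, hFr2, hFr3, -, -, hFr6⟩ := hFr G D K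
    have hFr1 := (hFr G D K).1
    -- the rows of `D + D`
    have hfull0 : (rq (D + D) K 0).card = Nat.card K := by
      obtain ⟨γ, hγ, hγ0⟩ : ∃ γ ∈ im D K, γ ≠ 0 := by
        obtain ⟨a, ha, hne⟩ := exists_mem_ne (show 1 < (im D K).card by omega) 0
        exact ⟨a, ha, hne⟩
      have h1 := hdd γ hγ 0 h0' hγ0
      have h2 : ∃ δ ∈ im D K, Nat.card K + 1 ≤ (rq D K δ).card + (rq D K δ).card := by
        rcases Nat.le_total (rq D K γ).card (rq D K 0).card with h | h
        · exact ⟨0, h0', by omega⟩
        · exact ⟨γ, hγ, by omega⟩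
      obtain ⟨δ, hδ, h3⟩ := h2
      have h4 := hFr3 D D δ δ ((him δ).1 hδ) ((him δ).1 hδ) h3
      rw [hQQ] at h4
      exact h4
    have hfull2 : ∀ γ ∈ im (it D 2) K, (rq (it D 2) K γ).card = Nat.card K := by
      intro γ hγ
      rw [GRB_it_two] at hγ ⊢
      unfold im at hγ
      rw [mem_image] at hγ
      obtain ⟨x, hx, rfl⟩ := hγ
      rw [mem_add] at hx
      obtain ⟨a, ha, b, hb, rfl⟩ := hx
      by_cases hab : (QuotientAddGroup.mk a : G ⧸ K) = QuotientAddGroup.mk b
      · rw [QuotientAddGroup.mk_add, hab, hQQ]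
        exact hfull0
      · rw [QuotientAddGroup.mk_add]
        exact hFr3 D D _ _ ((him _).1 (hmem a ha)) ((him _).1 (hmem b hb))
          (hdd _ (hmem a ha) _ (hmem b hb) hab)
    have hfull : ∀ i, 2 ≤ i → ∀ γ ∈ im (it D i) K, (rq (it D i) K γ).card = Nat.card K := by
      intro i hi γ hγ
      obtain ⟨j, rfl⟩ : ∃ j, i = 2 + j := ⟨i - 2, by omega⟩
      rw [hFr6] at hγ ⊢
      unfold im at hγ
      rw [mem_image] at hγ
      obtain ⟨x, hx, rfl⟩ := hγ
      rw [mem_add] at hx
      obtain ⟨a, ha, b, hb, rfl⟩ := hx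
      rw [QuotientAddGroup.mk_add]
      refine hFr2 _ _ _ _ (hfull2 _ ?_) ?_
      · unfold im
        rw [mem_image]
        exact ⟨a, ha, rfl⟩
      · unfold im
        rw [mem_image]
        exact ⟨b, hb, rfl⟩
    have hcK : ∀ i, 2 ≤ i → (it D i).card = Nat.card K * (it (im D K) i).card := by
      intro i hi
      rw [(hRw G (it D i) K).2.1, sum_congr rfl (hfull i hi), sum_const, smul_eq_mul, mul_comm,
        hFr1]
    -- the progression is impossible
    have hA : ¬ APK (im D K) ⊥ ∨ (im D K).card ≤ 2 := by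
      by_contra hcon
      push Not at hcon
      obtain ⟨⟨d, a, hd1, -, -⟩, hm3⟩ := hcon
      have h1 : im D K ⊆ ({0, d} : Finset (G ⧸ K)) := by
        intro x _
        obtain ⟨k, hk⟩ := hd1 x
        rw [AddSubgroup.mem_bot, sub_eq_zero] at hk
        rw [mem_insert, mem_singleton, hk]
        rcases Nat.even_or_odd' k with ⟨r, hr | hr⟩
        · left
          rw [hr, mul_comm, mul_smul, two_nsmul, hQQ, smul_zero]
        · right
          rw [hr, add_smul, one_smul, mul_comm, mul_smul, two_nsmul, hQQ, smul_zero, zero_add]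
      have h2 := card_le_card h1
      have h3 := card_le_two (a := (0 : G ⧸ K)) (b := d)
      omega
    -- parity
    have hmu : 2 * l + 2 ≤ Nat.card K * (im D K).card := by
      by_contra hc
      have h1 : Nat.card K * (im D K).card = 2 * l + 1 := by omega
      have h2 : ∑ δ ∈ im D K, (Nat.card K - (rq D K δ).card) = 0 := by omega
      obtain ⟨γ, hγ, hγ0⟩ : ∃ γ ∈ im D K, γ ≠ 0 := by
        obtain ⟨a, ha, hne⟩ := exists_mem_ne (show 1 < (im D K).card by omega) 0
        exact ⟨a, ha, hne⟩
      have h3 := sum_eq_zero_iff.1 h2 γ hγ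
      have h4 := hwle γ
      have h5 := (hpar hSY).1 γ (hQQ γ) hγ0
      have h6 : Nat.card K % 2 = 0 := by omega
      have h7 : (Nat.card K * (im D K).card) % 2 = 0 := by
        rw [Nat.mul_mod, h6, zero_mul, Nat.zero_mod]
      omega
    have hup : Nat.card K * (im D K).card ≤ 2 * l + Nat.card K := by omega
    obtain ⟨m, hm⟩ : ∃ m, m = (im D K).card := ⟨_, rfl⟩
    obtain ⟨q, hq⟩ : ∃ q, q = Nat.card (G ⧸ K) := ⟨_, rfl⟩
    obtain ⟨κ, hκ⟩ : ∃ κ, κ = Nat.card K := ⟨_, rfl⟩
    have hm4 : 4 ≤ m := by
      by_contra hc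
      have h1 : m = 2 ∨ m = 3 := by omega
      rw [← hm, ← hq] at hqm
      rw [← hq, ← hκ] at hNG
      rw [← hκ, ← hm] at hup
      rcases h1 with h1 | h1
      · rw [h1] at hqm hup
        have h2 : q * κ ≤ 2 * κ := Nat.mul_le_mul_right _ hqm
        omega
      · rw [h1] at hqm hup
        have h2 : q * κ ≤ 4 * κ := Nat.mul_le_mul_right _ hqm
        omega
    have hA' : ¬ APK (im D K) ⊥ := by
      rcases hA with h | h
      · exact h
      · omega
    have htol : TolB l κ := by
      rw [← hκ, ← hm] at hup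
      rcases Nat.lt_or_ge m 5 with hm5 | hm5
      · have hm4' : m = 4 := by omega
        rw [← hm, ← hq, hm4'] at hqm
        rw [hm4'] at hup
        rw [← hq, ← hκ] at hNG
        have h2 : q * κ ≤ 8 * κ := Nat.mul_le_mul_right _ hqm
        left
        have h3 : l * (l - 1) + 2 ≤ 8 * κ := by omega
        have h4 : l ≤ 6 := by
          by_contra hcl
          obtain ⟨t, ht⟩ : ∃ t, l = t + 7 := ⟨l - 7, by omega⟩
          rw [ht, show t + 7 - 1 = t + 6 from rfl] at h3
          rw [ht] at hup
          nlinarith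
        omega
      · have h3 : κ * 5 ≤ κ * m := Nat.mul_le_mul_left _ hm5
        right
        omega
    intro i hi1
    rcases Nat.lt_or_ge i 2 with hi | hi
    · have hi' : i = 1 := by omega
      right; left
      rw [hi', GRB_it_one]
      omega
    obtain ⟨-, hor⟩ := GRB_ind (im D K) h0' hs' hm2 hNear hA' i (by omega)
    have hcK' := hcK i hi
    obtain ⟨c, hc⟩ : ∃ c, c = (it (im D K) i).card := ⟨_, rfl⟩
    rw [← hκ, ← hc] at hcK'
    rw [← hc, ← hm, ← hq] at hor
    rw [← hκ, ← hm] at hmu
    rw [← hq, ← hκ] at hNG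
    rcases hor with h1 | h1
    · right; left
      rw [hcK']
      calc i * (2 * l + 2) ≤ i * (κ * m) := Nat.mul_le_mul_left _ hmu
        _ = κ * (i * m) := by ring
        _ ≤ κ * c := Nat.mul_le_mul_left _ h1
        _ ≤ κ * c + 1 := Nat.le_succ _
    · left
      refine ⟨κ, htol, ?_⟩
      rw [hcK', hNG]
      have h2 : q * κ ≤ (c + 1) * κ := Nat.mul_le_mul_right _ h1
      have h3 : (c + 1) * κ = κ * c + κ := by ring
      omega

/-- **GRB**: the growth theorem -/
theorem all_GRB (G ι : Type) [AddCommGroup G] [Finite G] (u : Finset ι) (f : ι → G) (hnc : ¬ IsAddCyclic G) (hAE : AE u f)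
    (hgen : gen u f = ⊤) (hu : 5 ≤ u.card) (hDC : DCX u f) (hn : u.card * (u.card - 1) + 2 ≤ Nat.card G) :
    (∃ K : AddSubgroup G, NF (sym u f) K ∧ (Nat.card K ≤ 4 ∨ ∀ x ∈ K, x + x = 0) ∧ APK (sym u f) K) ∨ Gro u.card (sym u f) :=
  thm_GRB Pool.Agent.KAT.thm_Rw Pool.Agent.KAT.thm_Fr all_Coq all_Dfq all_Qtq G ι u f hnc hAE hgen hu hDC hn

end Pool.Agent.SZA
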