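import Pool.Agent.SZA.St

/-!
# SZA, module Gf1: facts about the groups `Z_2^a × Z_p`
-/

set_option autoImplicit false

noncomputable section

open Finset Pool.Agent.Helper64.Rho Pool.Agent.SDG Pool.Agent.MDR Pool.Agent.SSC Pool.Agent.SSE Pool.Agent.SSF
open scoped Classical Pointwise

namespace Pool.Agent.SZA

theorem Gf1_mem {G : Type} [AddCommGroup G] (x : G) : x + x ∈ PP G :=
  ⟨x, two_nsmul x⟩

theorem Gf1_card {G : Type} [AddCommGroup G] [Finite G] {a p : ℕ} (h : FA a p G) :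
    Nat.card (PP G) = p := by
  obtain ⟨hp, h5, hN, hk⟩ := h
  have : Fact p.Prime := ⟨hp⟩
  have hkill : ∀ z ∈ PP G, p • z = 0 := by
    rintro _ ⟨y, rfl⟩
    show p • (2 • y) = 0
    rw [← mul_nsmul, hk]
  have h1 : Nat.card (PP G) ∣ 2 ^ a * p := by
    rw [← hN]
    exact AddSubgroup.card_addSubgroup_dvd_card (PP G)
  have h2 : Nat.Coprime (Nat.card (PP G)) (2 ^ a) := by
    refine Nat.Coprime.pow_right a ?_
    rw [Nat.coprime_comm, Nat.Prime.coprime_iff_not_dvd Nat.prime_two]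
    intro h2
    have : Fact (Nat.Prime 2) := ⟨Nat.prime_two⟩
    obtain ⟨z, hz⟩ := exists_prime_addOrderOf_dvd_card' (G := PP G) 2 h2
    have h3 : p • z = 0 := Subtype.ext (hkill z z.2)
    have h4 : 2 ∣ p := by
      rw [← hz]
      exact addOrderOf_dvd_of_nsmul_eq_zero h3
    rcases (Nat.dvd_prime hp).1 h4 with h5' | h5' <;> omega
  have h3 : Nat.card (PP G) ∣ p := h2.dvd_of_dvd_mul_left h1
  rcases (Nat.dvd_prime hp).1 h3 with h4 | h4
  · exfalso
    have h5' : p ∣ Nat.card G := by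
      rw [hN]
      exact dvd_mul_left p _
    obtain ⟨y, hy⟩ := exists_prime_addOrderOf_dvd_card' (G := G) p h5'
    have hodd : p % 2 = 1 := by
      rcases hp.eq_two_or_odd with h | h
      · omega
      · exact h
    have hy1 : p • y = 0 := by
      rw [← hy]
      exact addOrderOf_nsmul_eq_zero y
    have hy2 : y ∈ PP G := by
      refine ⟨((p + 1) / 2) • y, ?_⟩
      show 2 • (((p + 1) / 2) • y) = y
      rw [← mul_nsmul, show (p + 1) / 2 * 2 = p + 1 by omega, add_nsmul, hy1, one_nsmul, zero_add]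
    have hb : PP G = ⊥ := AddSubgroup.card_eq_one.1 h4
    rw [hb, AddSubgroup.mem_bot] at hy2
    rw [hy2, addOrderOf_zero] at hy
    omega
  · exact h4

theorem Gf1_alt {G : Type} [AddCommGroup G] [Finite G] {a p : ℕ} (h : FA a p G)
    (K : AddSubgroup G) : PP G ≤ K ∨ ∀ x ∈ K, x + x = 0 := by
  by_cases hx : ∀ x ∈ K, x + x = 0
  · exact Or.inr hx
  · left
    push Not at hx
    obtain ⟨x, hx1, hx2⟩ := hx
    have h1 : Nat.card (K ⊓ PP G : AddSubgroup G) ∣ p := by
      rw [← Gf1_card h]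
      exact AddSubgroup.card_dvd_of_le inf_le_right
    have h2 : x + x ∈ K ⊓ PP G := ⟨K.add_mem hx1 hx1, Gf1_mem x⟩
    rcases (Nat.dvd_prime h.1).1 h1 with h3 | h3
    · exfalso
      rw [AddSubgroup.card_eq_one.1 h3, AddSubgroup.mem_bot] at h2
      exact hx2 h2
    · have h4 : K ⊓ PP G = PP G := by
        refine AddSubgroup.eq_of_le_of_card_ge inf_le_right ?_
        rw [h3, Gf1_card h]
      exact inf_eq_right.1 h4

theorem Gf1_two {G : Type} [AddCommGroup G] (K : AddSubgroup G) (c : G) (hP : PP G ≤ K)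
    (hK : K ≠ ⊤) (hc : ∀ x : G, ∃ k : ℕ, x - k • c ∈ K) : K.index = 2 := by
  have hcK : c ∉ K := by
    intro h
    apply hK
    rw [eq_top_iff]
    intro x _
    obtain ⟨k, hk⟩ := hc x
    have := K.add_mem hk (K.nsmul_mem h k)
    rwa [sub_add_cancel] at this
  have h2 : ∀ x : G, (2 : ℕ) • x ∈ K := fun x => by
    rw [two_nsmul]
    exact hP (Gf1_mem x)
  rw [AddSubgroup.index_eq_two_iff_exists_notMem_and]
  refine ⟨c, hcK, fun b => ?_⟩
  obtain ⟨k, hk⟩ := hc b
  rcases Nat.even_or_odd' k with ⟨m, hm | hm⟩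
  · right
    have h3 : k • c ∈ K := by
      rw [hm, mul_nsmul]
      exact K.nsmul_mem (h2 c) m
    have h4 := K.add_mem hk h3
    rwa [sub_add_cancel] at h4
  · left
    have h3 : (k + 1) • c ∈ K := by
      rw [show k + 1 = 2 * (m + 1) by omega, mul_nsmul]
      exact K.nsmul_mem (h2 c) (m + 1)
    have h4 := K.add_mem hk h3
    rw [add_nsmul, one_nsmul] at h4
    have h5 : b - k • c + (k • c + c) = b + c := by abel
    rwa [h5] at h4

theorem Gf1_idx {G : Type} [AddCommGroup G] [Finite G] (K : AddSubgroup G) (hP : PP G ≤ K)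
    (hK : K ≠ ⊤) : ∃ M : AddSubgroup G, M.index = 2 ∧ K ≤ M := by
  obtain ⟨M, hM, hKM⟩ := (IsCoatomic.eq_top_or_exists_le_coatom K).resolve_left hK
  refine ⟨M, ?_, hKM⟩
  obtain ⟨c, hc⟩ : ∃ c : G, c ∉ M := by
    by_contra h
    push Not at h
    exact hM.1 (eq_top_iff.2 fun x _ => h x)
  refine Gf1_two M c (hP.trans hKM) hM.1 fun x => ?_
  have h1 : M ⊔ AddSubgroup.zmultiples c = ⊤ := by
    refine hM.2 _ (lt_of_le_of_ne le_sup_left fun h => hc ?_)
    rw [h]
    exact (le_sup_right : AddSubgroup.zmultiples c ≤ _) (AddSubgroup.mem_zmultiples c)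
  have h2 : x ∈ M ⊔ AddSubgroup.zmultiples c := by
    rw [h1]
    exact AddSubgroup.mem_top x
  obtain ⟨y, hy, z, hz, hyz⟩ := AddSubgroup.mem_sup.1 h2
  obtain ⟨k, hk⟩ := AddSubgroup.mem_zmultiples_iff.1 hz
  have h3 : (2 : ℤ) • c ∈ M := by
    rw [two_zsmul]
    exact hKM (hP (Gf1_mem c))
  refine ⟨(k % 2).toNat, ?_⟩
  have h4 : ((k % 2).toNat : ℤ) = k % 2 := Int.toNat_of_nonneg (Int.emod_nonneg k two_ne_zero)
  have h5 : ((k % 2).toNat) • c = (k % 2) • c := by
    rw [← natCast_zsmul, h4]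
  have h6 : x - ((k % 2).toNat) • c = y + (k / 2) • ((2 : ℤ) • c) := by
    rw [h5, ← hyz, ← hk, smul_smul]
    have h7 : k • c = (k / 2 * 2) • c + (k % 2) • c := by
      rw [← add_smul]
      congr 1
      omega
    rw [h7]
    abel
  rw [h6]
  exact M.add_mem hy (M.zsmul_mem h3 _)

theorem Gf1_cyc {G : Type} [AddCommGroup G] [Finite G] {a p : ℕ} (h : FA a p G)
    (K : AddSubgroup G) (c : G) (hc : ∀ x : G, ∃ k : ℕ, x - k • c ∈ K) :
    2 ^ (a - 1) ≤ Nat.card K := by
  obtain ⟨hp, h5, hN, hk⟩ := h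
  have h1 : K.index ≤ 2 * p := by
    have h2 : Function.Surjective fun k : Fin (2 * p) =>
        (QuotientAddGroup.mk ((k : ℕ) • c) : G ⧸ K) := by
      intro z
      obtain ⟨x, rfl⟩ := QuotientAddGroup.mk_surjective z
      obtain ⟨k, hk1⟩ := hc x
      refine ⟨⟨k % (2 * p), Nat.mod_lt _ (by omega)⟩, ?_⟩
      rw [QuotientAddGroup.eq]
      have h3 : (k % (2 * p)) • c = k • c := by
        conv_rhs => rw [← Nat.mod_add_div k (2 * p), add_nsmul, mul_nsmul, hk, nsmul_zero, add_zero]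
      show -((k % (2 * p)) • c) + x ∈ K
      rw [h3]
      have h4 : -(k • c) + x = x - k • c := by abel
      rw [h4]
      exact hk1
    have h3 := Nat.card_le_card_of_surjective _ h2
    rw [Nat.card_fin] at h3
    exact h3
  have h2 := K.card_mul_index
  rw [hN] at h2
  have h3 : 2 ^ a * p ≤ Nat.card K * (2 * p) := by
    rw [← h2]
    exact Nat.mul_le_mul_left _ h1
  have h4 : 2 ^ a ≤ Nat.card K * 2 := by
    have h6 : 2 ^ a * p ≤ (Nat.card K * 2) * p := by linarith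
    exact Nat.le_of_mul_le_mul_right h6 (by omega)
  rcases Nat.eq_zero_or_pos a with h5' | h5'
  · rw [h5']
    exact Nat.succ_le_of_lt Nat.card_pos
  · obtain ⟨b, rfl⟩ : ∃ b, a = b + 1 := ⟨a - 1, by omega⟩
    rw [pow_succ] at h4
    simp only [Nat.add_sub_cancel]
    omega

theorem thm_Gf1 : St_Gf1 := by
  intro G _ _ a p h
  have hh := h
  obtain ⟨hp, h5, hN, hk⟩ := h
  have h3 : ∀ M : AddSubgroup G, M.index = 2 → PP G ≤ M := by
    rintro M hM _ ⟨y, rfl⟩
    show 2 • y ∈ M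
    rw [two_nsmul]
    exact AddSubgroup.add_self_mem_of_index_two hM y
  refine ⟨Gf1_card hh, Gf1_mem, Gf1_alt hh, fun M hM => ⟨h3 M hM, hp, h5, ?_, fun x => ?_⟩,
    fun K hK hP => Gf1_idx K hP hK, fun K c hP hK hc => Gf1_two K c hP hK hc,
    fun K c hc => Gf1_cyc hh K c hc, fun K hK => ?_, fun K hK => ?_, fun ha hcyc => ?_⟩
  · have h6 := M.card_mul_index
    rw [hM, hN] at h6
    rcases Nat.eq_zero_or_pos a with h7 | h7
    · exfalso
      rw [h7] at h6
      have h8 : 2 ∣ p := ⟨Nat.card M, by omega⟩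
      rcases (Nat.dvd_prime hp).1 h8 with h9 | h9 <;> omega
    · obtain ⟨b, rfl⟩ : ∃ b, a = b + 1 := ⟨a - 1, by omega⟩
      rw [pow_succ] at h6
      simp only [Nat.add_sub_cancel]
      have h8 : Nat.card M * 2 = 2 ^ b * p * 2 := by
        rw [h6]
        ring
      omega
  · exact Subtype.ext (hk x)
  · rcases Gf1_alt hh K with h6 | h6
    · exfalso
      have h7 := AddSubgroup.card_le_of_le h6
      rw [Gf1_card hh] at h7
      omega
    · exact h6
  · have h6 : Nat.card K ∣ Nat.card G := AddSubgroup.card_addSubgroup_dvd_card K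
    rw [hK, hN] at h6
    rcases (Nat.Prime.dvd_mul Nat.prime_three).1 h6 with h7 | h7
    · have h8 := Nat.Prime.dvd_of_dvd_pow Nat.prime_three h7
      omega
    · rcases (Nat.dvd_prime hp).1 h7 with h9 | h9 <;> omega
  · obtain ⟨g, hg⟩ := hcyc.exists_generator
    have h6 : addOrderOf g = Nat.card G := addOrderOf_eq_card_of_forall_mem_zmultiples hg
    have h7 : addOrderOf g ∣ 2 * p := addOrderOf_dvd_of_nsmul_eq_zero (hk g)
    have h8 := Nat.le_of_dvd (by omega) h7
    rw [h6, hN] at h8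
    have h9 : 2 ^ a ≤ 2 := Nat.le_of_mul_le_mul_right h8 (by omega)
    have h10 : 2 ^ 2 ≤ 2 ^ a := Nat.pow_le_pow_right (by omega) ha
    omega

end Pool.Agent.SZA
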