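import Pool.Agent.SZA.St

/-!
# SZA.Gf2: facts about families in the groups `Z_2^a × Z_p` (helper65)
-/

set_option autoImplicit false

noncomputable section

open Finset Pool.Agent.Helper64.Rho Pool.Agent.SDG Pool.Agent.MDR Pool.Agent.SSC Pool.Agent.SSE Pool.Agent.SSF
open scoped Classical Pointwise

namespace Pool.Agent.SZA

private theorem Gf2_gen {G ι : Type} [AddCommGroup G] {u : Finset ι} {f : ι → G} {i : ι} (hi : i ∈ u) : f i ∈ gen u f :=
  AddSubgroup.subset_closure ⟨i, Finset.mem_coe.2 hi, rfl⟩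

private theorem Gf2_gen_le {G ι : Type} [AddCommGroup G] {u : Finset ι} {f : ι → G} {M : AddSubgroup G} (h : ∀ i ∈ u, f i ∈ M) :
    gen u f ≤ M := by
  refine (AddSubgroup.closure_le M).2 ?_
  rintro y ⟨i, hi, rfl⟩
  exact h i (Finset.mem_coe.1 hi)

private theorem Gf2_mul {G ι : Type} [AddCommGroup G] [Finite G] {u : Finset ι} {f : ι → G} {M : AddSubgroup G} {x : ι}
    (ho : ∀ i ∈ u, i ≠ x → f i ∈ M) (hg : gen u f = ⊤) (y : G) : ∃ k : ℕ, y - k • f x ∈ M := by
  have hle : gen u f ≤ M ⊔ AddSubgroup.zmultiples (f x) := by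
    refine Gf2_gen_le fun i hi => ?_
    by_cases hix : i = x
    · subst hix
      exact AddSubgroup.mem_sup_right (AddSubgroup.mem_zmultiples (f i))
    · exact AddSubgroup.mem_sup_left (ho i hi hix)
  have hy : y ∈ M ⊔ AddSubgroup.zmultiples (f x) := hle (by rw [hg]; trivial)
  obtain ⟨m, hm, z, hz, rfl⟩ := AddSubgroup.mem_sup.1 hy
  obtain ⟨k, rfl⟩ := (AddSubmonoid.mem_multiples_iff _ _).1 (mem_multiples_iff_mem_zmultiples.2 hz)
  exact ⟨k, by rw [add_sub_cancel_right]; exact hm⟩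

theorem thm_Gf2 : St_Gf1 → St_Gf2 := by
  intro h1 G ι _ _ a p u f hF
  obtain ⟨-, g2, g3, -, g5, g6, -, -, g9, -⟩ := h1 G a p hF
  have hdc : ∀ (K : AddSubgroup G) (c : G), c + c ∉ K → ∀ x ∈ K, x + x = 0 := by
    intro K c hc
    rcases g3 K with h | h
    · exact absurd (h (g2 c)) hc
    · exact h
  have hP : ∀ (K : AddSubgroup G) (x : G), x ∈ K → x + x ≠ 0 → PP G ≤ K := by
    intro K x hx hxx
    rcases g3 K with h | h
    · exact h
    · exact absurd (h x hx) hxx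
  refine ⟨fun K c _ hc _ => Or.inr (hdc K c hc), fun K c _ hc _ => Or.inr (hdc K c hc), ?_, ?_, ?_, ?_⟩
  · rintro ⟨K, b, hK⟩
    exact g9 K hK.1
  · intro hAE hu hg M hM hM2
    by_contra hcon
    have ho : (outs u f M).card ≤ 1 := by omega
    have hex : ∃ x ∈ u, f x ∉ M := by
      by_contra hno
      push Not at hno
      refine hM (top_le_iff.1 ?_)
      rw [← hg]
      exact Gf2_gen_le hno
    obtain ⟨x, hxu, hxM⟩ := hex
    have hoth : ∀ i ∈ u, i ≠ x → f i ∈ M := by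
      intro i hi hix
      by_contra hiM
      refine hix ?_
      refine Finset.card_le_one.1 ho i ?_ x ?_
      · exact Finset.mem_filter.2 ⟨hi, hiM⟩
      · exact Finset.mem_filter.2 ⟨hxu, hxM⟩
    obtain ⟨j, hj, hjx⟩ := Finset.exists_mem_ne (by omega : 1 < u.card) x
    have hPM : PP G ≤ M := hP M (f j) (hoth j hj hjx) (hAE.2 j hj)
    exact hM2 (g6 M (f x) hPM hM (Gf2_mul hoth hg))
  · intro hne hu hg
    obtain ⟨j, hj⟩ := hu
    obtain ⟨M, hM, hle⟩ := g5 (gen u f) hg (hP _ (f j) (Gf2_gen hj) (hne j hj))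
    exact ⟨M, hM, fun i hi => hle (Gf2_gen hi)⟩
  · intro hAE hu hg i hi hne
    obtain ⟨j, hj, hji⟩ := Finset.exists_mem_ne (by omega : 1 < u.card) i
    have hje : j ∈ u.erase i := Finset.mem_erase.2 ⟨hji, hj⟩
    refine g6 (gen (u.erase i) f) (f i) (hP _ (f j) (Gf2_gen hje) (hAE.2 j hj)) hne ?_
    exact Gf2_mul (fun k hk hki => Gf2_gen (Finset.mem_erase.2 ⟨hki, hk⟩)) hg

end Pool.Agent.SZA
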