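import Pool.Agent.SZA.St
import Pool.Agent.SZA.GRB

/-!
# SZA Gt: the growth alternatives
-/

set_option autoImplicit false

noncomputable section

open Finset Pool.Agent.Helper64.Rho Pool.Agent.SDG Pool.Agent.MDR Pool.Agent.SSC Pool.Agent.SSE Pool.Agent.SSF
open scoped Classical Pointwise

namespace Pool.Agent.SZA

theorem thm_Gt : St_Gf1 → St_Gf2 → St_KhG → St_Gt := by
  intro hGf1 hGf2 hKhG G ι _ _ a p u f hFA ha hAE hAp hgen hu hcard
  obtain ⟨-, -, -, -, -, -, h7, h8, -, h10⟩ := hGf1 G a p hFA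
  obtain ⟨hDCX, -⟩ := hGf2 G ι a p u f hFA
  rcases all_GRB G ι u f (h10 (by omega)) hAE hgen hu hDCX hcard with ⟨K, hNF, hK, hAPK⟩ | h
  · left
    have hK2 : ∀ x ∈ K, x + x = 0 := hK.elim (h8 K) id
    obtain ⟨d, -, hd, -⟩ := id hAPK
    have h4 := h7 K d hd
    have h5 : 2 ^ 2 ≤ 2 ^ (a - 1) := Nat.pow_le_pow_right (by norm_num) (by omega)
    have h6 := hKhG G ι u f K hAE hAp hu hK2 (by omega) hNF hAPK hcard
    omega
  · exact Or.inr h

end Pool.Agent.SZA
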