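import Pool.Agent.SZA.St
import Pool.Agent.SSX.Main

/-!
# SZA, module Hf (MP_ec93d3_co): the halves for `Z_2^a × Z_p`
-/

set_option autoImplicit false

noncomputable section

open Finset Pool.Agent.Helper64.Rho Pool.Agent.SDG Pool.Agent.MDR Pool.Agent.SSC Pool.Agent.SSE Pool.Agent.SSF
open scoped Classical Pointwise

namespace Pool.Agent.SZA

/-- the number of subgroups of index 2 containing all members of `q` -/
private def Hf_n {G ι : Type} [AddCommGroup G] (q : Finset ι) (f : ι → G) : ℕ :=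
  Set.ncard {M : AddSubgroup G | M.index = 2 ∧ ∀ i ∈ q, f i ∈ M}

private theorem Hf_sym {G ι : Type} [AddCommGroup G] {s p r : Finset ι} {f : ι → G}
    (h : Pool.Agent.SSX.Spl s p r f) : Pool.Agent.SSX.Spl s r p f :=
  ⟨h.1.symm, by rw [union_comm]; exact h.2.1, h.2.2.2.1, h.2.2.1, h.2.2.2.2.2, h.2.2.2.2.1⟩

/-- exchange of a member which is not a coloop -/
private theorem Hf_sub {G ι : Type} [AddCommGroup G] (q : Finset ι) (f : ι → G) (x y : ι)
    (h : ¬ Pool.Agent.SSX.Clp q f x) :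
    {M : AddSubgroup G | M.index = 2 ∧ ∀ i ∈ insert y (q.erase x), f i ∈ M} ⊆
      {M : AddSubgroup G | M.index = 2 ∧ ∀ i ∈ q, f i ∈ M} := by
  rintro M ⟨h2, h3⟩
  refine ⟨h2, fun i hi => ?_⟩
  by_cases hix : i = x
  · subst hix
    by_contra h4
    exact h ⟨M, h2, h4, fun j hj => h3 j (mem_insert_of_mem hj)⟩
  · exact h3 i (mem_insert_of_mem (mem_erase.2 ⟨hix, hi⟩))

/-- **Hf**: the halves. -/
theorem thm_Hf : St_Gf1 → St_Gf2 → St_P1A → St_Hf := by
  intro hGf1 hGf2 hP1 G ι _ _ a p s f hFA hs2 h0 hcap hap hout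
  have key : ∀ (q r : Finset ι) (M : AddSubgroup G), Pool.Agent.SSX.Spl s q r f → M.index = 2 →
      (∀ i ∈ q, f i ∈ M) →
      ∃ q' r' : Finset ι, Pool.Agent.SSX.Spl s q' r' f ∧ q'.card = q.card ∧ r'.card = r.card ∧
        Hf_n q' f < Hf_n q f ∧ Hf_n r' f ≤ Hf_n r f := by
    intro q r M hS hM hq
    obtain ⟨x, hx, y, hy, h1, h2, h3, h4, h5⟩ := hP1 G ι a p s q r f M hFA hout hS hM hq
    obtain ⟨g1, g2, g3, -, -⟩ := SSX.all_SwX.2 G ι s q r f x y hS hx hy h4 h5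
    refine ⟨insert y (q.erase x), insert x (r.erase y), g1, g2, g3, ?_, ?_⟩
    · refine Set.ncard_lt_ncard ⟨Hf_sub q f x y h2, fun hsub => ?_⟩ (Set.toFinite _)
      have h6 : M ∈ {M : AddSubgroup G | M.index = 2 ∧ ∀ i ∈ insert y (q.erase x), f i ∈ M} := hsub ⟨hM, hq⟩
      exact h1 (h6.2 y (mem_insert_self _ _))
    · exact Set.ncard_le_ncard (Hf_sub r f y x h3) (Set.toFinite _)
  have main : ∀ (n : ℕ) (q r : Finset ι), Pool.Agent.SSX.Spl s q r f → q.card = (s.card + 1) / 2 →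
      Hf_n q f + Hf_n r f = n →
      ∃ q r : Finset ι, Pool.Agent.SSX.Spl s q r f ∧ q.card = (s.card + 1) / 2 ∧
        ∀ M : AddSubgroup G, M.index = 2 → (∃ i ∈ q, f i ∉ M) ∧ ∃ i ∈ r, f i ∉ M := by
    intro n
    induction n using Nat.strong_induction_on with
    | _ n ih =>
      intro q r hS hc hn
      by_cases hg : ∀ M : AddSubgroup G, M.index = 2 → (∃ i ∈ q, f i ∉ M) ∧ ∃ i ∈ r, f i ∉ M
      · exact ⟨q, r, hS, hc, hg⟩
      · push Not at hg
        obtain ⟨M, hM, hM2⟩ := hg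
        by_cases hp : ∀ i ∈ q, f i ∈ M
        · obtain ⟨q', r', k1, k2, -, k4, k5⟩ := key q r M hS hM hp
          exact ih (Hf_n q' f + Hf_n r' f) (by omega) q' r' k1 (k2.trans hc) rfl
        · have hr : ∀ i ∈ r, f i ∈ M := by
            push Not at hp
            exact hM2 hp
          obtain ⟨r', q', k1, -, k3, k4, k5⟩ := key r q M (Hf_sym hS) hM hr
          exact ih (Hf_n q' f + Hf_n r' f) (by omega) q' r' (Hf_sym k1) (k3.trans hc) rfl
  obtain ⟨q0, r0, hS0, hc0⟩ := SSX.all_SwX.1 G ι s f h0 hcap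
  obtain ⟨q, r, hS, hc, hM⟩ := main _ q0 r0 hS0 hc0 rfl
  obtain ⟨hdis, hun, hAq, hAr, -, -⟩ := hS
  have hcard : q.card + r.card = s.card := by rw [← card_union_of_disjoint hdis, hun]
  -- no member is killed by 2
  have hdbl : ∀ i ∈ s, f i + f i ≠ 0 := by
    intro i hi h
    have h1 := (SDG.all_Ba1 G ι f).2.2.2.2.1 s i hi hap (h0 i hi)
    exact h1 (eq_neg_of_add_eq_zero_left h)
  have hqs : q ⊆ s := by rw [← hun]; exact subset_union_left
  have hrs : r ⊆ s := by rw [← hun]; exact subset_union_right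
  have hgen : ∀ v : Finset ι, v ⊆ s → v.Nonempty → (∀ M : AddSubgroup G, M.index = 2 → ∃ i ∈ v, f i ∉ M) →
      gen v f = ⊤ := by
    intro v hv hne hall
    by_contra hg
    obtain ⟨M, hM2, hM3⟩ := (hGf2 G ι a p v f hFA).2.2.2.2.1 (fun i hi => hdbl i (hv hi)) hne hg
    obtain ⟨i, hi, hi2⟩ := hall M hM2
    exact hi2 (hM3 i hi)
  refine ⟨q, r, hdis, hun, ⟨hAq, fun i hi => hdbl i (hqs hi)⟩, ⟨hAr, fun i hi => hdbl i (hrs hi)⟩, hc, by omega,
    hgen q hqs (card_pos.1 (by omega)) fun M hM2 => (hM M hM2).1, hgen r hrs (card_pos.1 (by omega)) fun M hM2 => (hM M hM2).2⟩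

end Pool.Agent.SZA
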