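import Pool.Agent.SZA.St
import Pool.Agent.SSX.Main

/-!
# SZA KhG: nearly filled by a group killed by 2 with at least four elements (helper95)

Adapted from Pool/Agent/SSX/KhW.lean (helper63).
-/

set_option autoImplicit false

noncomputable section

open Finset Pool.Agent.Helper64.Rho Pool.Agent.SDG Pool.Agent.MDR Pool.Agent.SSC Pool.Agent.SSE Pool.Agent.SSF
open scoped Classical Pointwise

namespace Pool.Agent.SZA

private theorem KhG_fib {ι : Type} (o : Finset ι) (lv : ι → ℕ) (n : ℕ) :
    ∑ j ∈ o.filter (fun j => lv j < n), lv j =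
      ∑ k ∈ range n, k * (o.filter fun j => lv j = k).card := by
  rw [← Finset.sum_fiberwise_of_maps_to (g := lv) (t := range n)
    (fun j hj => mem_range.2 (mem_filter.1 hj).2)]
  apply sum_congr rfl
  intro k hk
  have hk' := mem_range.1 hk
  have h0 : (o.filter fun j => lv j < n).filter (fun j => lv j = k) = o.filter fun j => lv j = k := by
    ext j
    simp only [mem_filter]
    constructor
    · rintro ⟨⟨x, _⟩, z⟩
      exact ⟨x, z⟩
    · rintro ⟨x, z⟩
      exact ⟨⟨x, by omega⟩, z⟩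
  rw [h0]
  have h1 : ∑ j ∈ o.filter (fun j => lv j = k), lv j = ∑ _j ∈ o.filter (fun j => lv j = k), k :=
    sum_congr rfl fun j hj => (mem_filter.1 hj).2
  rw [h1, sum_const, smul_eq_mul, mul_comm]

/-- The weighted sum of the levels below `n`, all levels have `k` members. -/
private theorem KhG_sum {ι : Type} (o : Finset ι) (lv : ι → ℕ) (a k : ℕ)
    (h3 : ∀ n, 1 ≤ n → n ≤ a → (o.filter fun j => lv j = n).card = k) (n : ℕ) (hn : n ≤ a + 1) :
    2 * ∑ j ∈ o.filter (fun j => lv j < n), lv j = k * (n * (n - 1)) := by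
  rw [KhG_fib o lv n]
  have e1 : ∑ p ∈ range n, p * (o.filter fun j => lv j = p).card = ∑ p ∈ range n, k * p := by
    apply sum_congr rfl
    intro p hp
    have hp' := mem_range.1 hp
    rcases Nat.eq_zero_or_pos p with h4 | h4
    · rw [h4]
      simp
    · rw [h3 p h4 (by omega)]
      ring
  rw [e1, ← mul_sum]
  have e3 := sum_range_id_mul_two n
  rw [← e3]
  ring

/-- Lower bound for the number of sums, all levels below `k = |K|`. -/
private theorem KhG_two (c : ℕ → ℕ) (k : ℕ) (h0 : 1 ≤ c 0) (h1 : ∀ v, v % 2 = 1 → v ≤ k → k ≤ c v)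
    (h2 : ∀ v, 1 ≤ v → v + 1 ≤ k → k + 2 ≤ 2 * c v) (m : ℕ) :
    2 * (m + 1) ≤ k → (m + 1) * (3 * k + 2) ≤ k + 2 * ∑ v ∈ range (2 * (m + 1)), c v := by
  induction m with
  | zero =>
    intro hm
    have e1 := h1 1 (by norm_num) (by omega)
    have e2 : ∑ v ∈ range (2 * (0 + 1)), c v = c 0 + c 1 := by
      simp [sum_range_succ]
    rw [e2]
    omega
  | succ m ih =>
    intro hm
    have e1 := h1 (2 * (m + 1) + 1) (by omega) (by omega)
    have e2 := h2 (2 * (m + 1)) (by omega) (by omega)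
    have e3 := ih (by omega)
    have e4 : 2 * (m + 1 + 1) = 2 * (m + 1) + 1 + 1 := by ring
    rw [e4, sum_range_succ, sum_range_succ]
    have e5 : (m + 1 + 1) * (3 * k + 2) = (m + 1) * (3 * k + 2) + (3 * k + 2) := by ring
    rw [e5]
    omega

theorem thm_KhG : St_KhG := by
  intro G ι _ _ u f K hAE hAp h5 hK2 hk4 hNF hAPK hN
  have hSg := SSC.mdr_Sg
  have hLc := SSX.all_LcW
  have hFU := SSX.all_FU
  have hFW := SSX.all_FW
  have hCn := SSE.all_Cn
  obtain ⟨_, _, hst⟩ := hNF
  obtain ⟨d, a, g, lv, hd, hg, hgl, hlq, ha1, hlvo, hc, hua⟩ :=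
    hLc G ι u f K hAE (by omega) hK2 hst hAPK
  -- the order of the group
  have hnt : Nontrivial K := by
    have : Finite K := inferInstance
    exact Finite.one_lt_card_iff_nontrivial.1 (by omega)
  have heven : 2 ∣ Nat.card K := by
    obtain ⟨x, hx⟩ := exists_ne (0 : K)
    have h1 : addOrderOf x = 2 := by
      apply addOrderOf_eq_prime
      · rw [two_nsmul]
        exact Subtype.ext (hK2 x.1 x.2)
      · exact hx
    rw [← h1]
    exact addOrderOf_dvd_natCard x
  obtain ⟨k, hk⟩ : ∃ k, k = Nat.card K := ⟨_, rfl⟩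
  obtain ⟨q, hq⟩ : ∃ q, q = K.index := ⟨_, rfl⟩
  have hNq : Nat.card G = k * q := by
    rw [hq, hk]
    exact (AddSubgroup.card_mul_index K).symm
  rw [← hq] at hlq
  rw [← hk] at hua heven hc ⊢
  have hk4' : 4 ≤ k := by omega
  obtain ⟨sg1, _, _, _, _, sg2, _, _⟩ := hSg G ι u f g (fun j _ => hg j)
  have hASg := sg2 hAE.1
  have hz1 : 1 ≤ ((FS u g).filter fun x => x ∈ K).card := by
    rw [Nat.one_le_iff_ne_zero, ← Nat.pos_iff_ne_zero, card_pos]
    exact ⟨0, mem_filter.2 ⟨zero_mem_FS u g, K.zero_mem⟩⟩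
  rcases Nat.lt_or_ge a 2 with ha | ha2
  · -- one level
    have ha' : a = 1 := by omega
    subst ha'
    rw [one_mul] at hua
    have hgd : ∀ i ∈ u, g i - d ∈ K := by
      intro i hi
      have e1 := hgl i
      have e2 := hlvo i hi
      have e3 : lv i = 1 := by omega
      rw [e3, one_smul] at e1
      exact e1
    have hinj : ∀ i ∈ u, ∀ j ∈ u, g i = g j → i = j := by
      intro i hi j hj hij
      by_contra hne
      have h1 := hASg.2 (g j)
      have h2 : ({i, j} : Finset ι) ⊆ u.filter fun i => g i = g j ∨ g i = - g j := by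
        intro x hx
        rw [mem_insert, mem_singleton] at hx
        rcases hx with rfl | rfl
        · exact mem_filter.2 ⟨hi, Or.inl hij⟩
        · exact mem_filter.2 ⟨hj, Or.inl rfl⟩
      have h3 := card_le_card h2
      rw [card_pair hne] at h3
      omega
    obtain ⟨fu1, fu2, _⟩ := hFU G ι u g K d hK2 hgd (by rw [hua, hk]) hinj
    rw [← hk] at fu1 fu2
    obtain ⟨cn1, cn2, _⟩ := hCn G (FS u g) K d hd
    rw [← hq] at cn1
    rw [← hk] at cn2
    obtain ⟨c, hcdef⟩ : ∃ c : ℕ → ℕ, c = fun v => ((FS u g).filter fun x => x - v • d ∈ K).card :=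
      ⟨_, rfl⟩
    have c0 : 1 ≤ c 0 := by
      rw [hcdef]
      show 1 ≤ ((FS u g).filter fun x => x - 0 • d ∈ K).card
      rw [Nat.one_le_iff_ne_zero, ← Nat.pos_iff_ne_zero, card_pos]
      exact ⟨0, mem_filter.2 ⟨zero_mem_FS u g, by rw [zero_smul, sub_zero]; exact K.zero_mem⟩⟩
    have c1 : ∀ v, v % 2 = 1 → v ≤ k → k ≤ c v := by
      intro v hv hvk
      rw [hcdef]
      exact (cn2 v (fun x hx => fu1 v hv hvk x hx)).ge
    have c2 : ∀ v, 1 ≤ v → v + 1 ≤ k → k + 2 ≤ 2 * c v := by
      intro v hv hvk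
      rw [hcdef]
      exact fu2 v hv hvk
    rcases Nat.lt_or_ge q k with hqk | hqk
    · exfalso
      rw [hNq, hua] at hN
      have h2 : k * q ≤ k * (k - 1) := Nat.mul_le_mul_left k (by omega)
      omega
    · obtain ⟨m, hm⟩ : ∃ m, k = 2 * (m + 1) := by
        obtain ⟨m, hm⟩ := heven
        exact ⟨m - 1, by omega⟩
      have e1 := cn1 (range k) (fun v hv => by
        have := mem_range.1 hv
        omega)
      have e2 := KhG_two c k c0 c1 c2 m (by omega)
      have e3 : ∑ v ∈ range k, c v ≤ (FS u g).card := by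
        rw [hcdef]
        exact e1
      rw [sg1] at e3
      rw [← hm] at e2
      rw [hua]
      have e6 : k * (k + 1) + 2 * k + k ≤ (m + 1) * (3 * k + 2) := by
        rw [hm]
        obtain ⟨m', rfl⟩ : ∃ m', m = m' + 2 := ⟨m - 2, by omega⟩
        nlinarith
      omega
  · -- at least two levels
    obtain ⟨m, hm⟩ : ∃ m, m = ∑ j ∈ u, lv j := ⟨_, rfl⟩
    have hm2 : 2 * m = k * ((a + 1) * a) := by
      have e := KhG_sum u lv a k hc (a + 1) le_rfl
      have e2 : (u.filter fun j => lv j < a + 1) = u := by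
        rw [filter_eq_self]
        intro j hj
        have := hlvo j hj
        omega
      rw [e2, ← hm, Nat.add_sub_cancel] at e
      exact e
    have hlow : ∀ n, 3 ≤ n → n ≤ a → n + 1 ≤ ∑ j ∈ u.filter (fun j => lv j < n), lv j := by
      intro n hn hna
      have e := KhG_sum u lv a k hc n (by omega)
      obtain ⟨p, rfl⟩ : ∃ p, n = p + 3 := ⟨n - 3, by omega⟩
      have e4 : p + 3 - 1 = p + 2 := by omega
      rw [e4] at e
      have e6 : 4 * ((p + 3) * (p + 2)) ≤ k * ((p + 3) * (p + 2)) :=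
        Nat.mul_le_mul_right _ hk4'
      have e7 : (p + 3) * (p + 2) = p * p + 5 * p + 6 := by ring
      rw [e7] at e6 e
      have e8 : 0 ≤ p * p := Nat.zero_le _
      omega
    -- sums of all members
    have hsum : (∑ j ∈ u, g j) - m • d ∈ K := by
      rw [hm, sum_smul, ← sum_sub_distrib]
      exact K.sum_mem fun j _ => hgl j
    have hka : k * (2 * 3) ≤ k * ((a + 1) * a) := by
      apply Nat.mul_le_mul_left
      nlinarith
    have hm1 : 1 ≤ m := by omega
    have hPer : Per (FS u g) K d m := by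
      rw [hm]
      refine hFW G ι u g K d lv hK2 hk4 hASg (fun j _ => hgl j)
        (by rw [← hk]; exact hc 1 le_rfl (by omega))
        (by rw [← hk]; exact hc 2 (by omega) ha2) ?_
      intro j hj hj2
      exact hlow (lv j) hj2 (hlvo j hj).2
    obtain ⟨t1, t2, t3⟩ := (hCn G (FS u g) K d hd).2.2 m hPer
    rw [← hq] at t1 t2 t3
    rw [sg1, ← hk] at t2 t3
    have hz2 : 1 ≤ ((FS u g).filter fun x => x - m • d ∈ K).card := by
      rw [Nat.one_le_iff_ne_zero, ← Nat.pos_iff_ne_zero, card_pos]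
      exact ⟨∑ j ∈ u, g j, mem_filter.2 ⟨mem_FS.2 ⟨u, Subset.refl _, rfl⟩, hsum⟩⟩
    -- the interval is not too long
    have hmq1 : m ≤ q := by
      by_contra hcon
      have hall := t1 (by omega)
      have hApg : Aper (FS u g) := (hSg G ι u f g (fun j _ => hg j)).2.1 hAp
      obtain ⟨x, hx⟩ := exists_ne (0 : K)
      apply hx
      exact Subtype.ext (hApg x.1 fun y _ => hall _)
    -- `u.card = a * k`
    have hl2 : 2 * k ≤ u.card := by
      rw [hua]
      exact Nat.mul_le_mul_right k ha2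
    rcases Nat.lt_or_ge m q with hlt | hge
    · have hT := t3 hm1 hlt
      have hF : k * (m - 1) + 2 ≤ (FS u f).card := by omega
      have e1 : k * (m - 1) + k = k * m := by
        obtain ⟨p, rfl⟩ : ∃ p, m = p + 1 := ⟨m - 1, by omega⟩
        rw [Nat.add_sub_cancel]
        ring
      have e2 : 2 * (k * m) = k * (k * ((a + 1) * a)) := by
        rw [← hm2]
        ring
      have e3 : k * (k * ((a + 1) * a)) = (a * k) * (a * k) + k * (a * k) := by ring
      have e4 : (a * k) * (a * k + 1) = (a * k) * (a * k) + a * k := by ring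
      rw [hua, e4]
      have e5 : 4 * k + a * k ≤ k * (a * k) + 4 := by
        obtain ⟨b, rfl⟩ : ∃ b, a = b + 1 := ⟨a - 1, by omega⟩
        obtain ⟨c, rfl⟩ : ∃ c, k = c + 4 := ⟨k - 4, by omega⟩
        nlinarith [Nat.zero_le (b * c), Nat.zero_le (c * c), Nat.zero_le (b * c * c)]
      omega
    · have hmq : m = q := by omega
      have hT := t2 hm1 hmq
      have e1 : k * (m - 1) + k = k * q := by
        rw [← hmq]
        obtain ⟨p, rfl⟩ : ∃ p, m = p + 1 := ⟨m - 1, by omega⟩
        rw [Nat.add_sub_cancel]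
        ring
      rw [hNq] at hN
      obtain ⟨l, hl⟩ : ∃ l, u.card = l + 3 := ⟨u.card - 3, by omega⟩
      rw [hl] at hN hl2 ⊢
      have e3 : l + 3 - 1 = l + 2 := by omega
      rw [e3] at hN
      have e4 : (l + 3) * (l + 2) = l * l + 5 * l + 6 := by ring
      have e5 : (l + 3) * (l + 3 + 1) = l * l + 7 * l + 12 := by ring
      rw [e4] at hN
      rw [e5]
      have e6 : l ≤ l * l := Nat.le_mul_self l
      omega

end Pool.Agent.SZA
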