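import Pool.Agent.SZA.St
import Pool.Agent.SDG.All

/-!
# SZA, module La: every member changes few sums
-/

set_option autoImplicit false

noncomputable section

open Finset Pool.Agent.Helper64.Rho Pool.Agent.SDG Pool.Agent.MDR Pool.Agent.SSC Pool.Agent.SSE Pool.Agent.SSF
open scoped Classical Pointwise

namespace Pool.Agent.SZA

private theorem La_AE {G ι : Type} [AddCommGroup G] {u v : Finset ι} {f : ι → G} (h : AE u f)
    (hv : v ⊆ u) : AE v f := by
  obtain ⟨⟨h1, h2⟩, h3⟩ := h
  exact ⟨⟨fun i hi => h1 i (hv hi), fun x =>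
    (card_le_card (filter_subset_filter _ hv)).trans (h2 x)⟩, fun i hi => h3 i (hv hi)⟩

theorem thm_La (hDp : St_Dp) (hAl : St_Al) : St_La := by
  intro G ι _ _ a p u f i hF ha hh hl hAE hA hg hN hN2 hi
  obtain ⟨b1, b2, b3, b4, b5, b6, b7⟩ := all_Ba1 G ι f
  by_cases hd : gen (u.erase i) f = ⊤
  · left
    have h1 : (u.erase i).card + 1 = u.card := card_erase_add_one hi
    have h2 := b3 u i hi
    have h3 : (FS (u.erase i) f).card ≤ (FS u f).card := by omega
    obtain ⟨l, hlc⟩ : ∃ l, l = (u.erase i).card := ⟨_, rfl⟩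
    have hul : u.card = l + 1 := by omega
    have h4 := hAl G ι a p (u.erase i) f hF ha hh (by omega) (La_AE hAE (erase_subset _ _))
      (b2 u (u.erase i) (erase_subset _ _) hA) hd (by omega) (by
        rw [← hlc]
        rw [hul] at hN2
        nlinarith)
    rw [← hlc] at h4
    rw [hul, Nat.add_sub_cancel]
    have h5 : (l + 1) * l = l * (l + 1) := Nat.mul_comm _ _
    rw [h5]
    constructor
    · omega
    · omega
  · right
    exact hDp G ι a p u f i hF ha (by omega) hAE hA hg hN hi hd

end Pool.Agent.SZA
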