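import Pool.Agent.SZA.St
import Pool.Agent.SSX.Main

/-!
# SZA, module Od: the odd step
-/

set_option autoImplicit false

noncomputable section

open Finset Pool.Agent.Helper64.Rho Pool.Agent.SDG Pool.Agent.MDR Pool.Agent.SSC Pool.Agent.SSE Pool.Agent.SSF
open scoped Classical Pointwise

namespace Pool.Agent.SZA

private theorem Od_AE {G ι : Type} [AddCommGroup G] {u v : Finset ι} {f : ι → G} (h : AE u f)
    (hv : v ⊆ u) : AE v f := by
  obtain ⟨⟨h1, h2⟩, h3⟩ := h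
  exact ⟨⟨fun i hi => h1 i (hv hi), fun x =>
    (card_le_card (filter_subset_filter _ hv)).trans (h2 x)⟩, fun i hi => h3 i (hv hi)⟩

theorem thm_Od (hGf1 : St_Gf1) (hGf2 : St_Gf2) (hBt : St_Bt) (hGt : St_Gt) (hAv2 : St_Av2) (hAl : St_Al)
    (hWb : St_Wb) (hHf : St_Hf) (hDrA : St_DrA) : St_Od := by
  intro G ι _ _ a p l s f hl hhl hCtx
  obtain ⟨m, rfl⟩ : ∃ m, l = m + 1 := ⟨l - 1, by omega⟩
  obtain ⟨t, ht⟩ : ∃ t, t = 2 * (m + 1) - 1 := ⟨_, rfl⟩
  rw [← ht] at hCtx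
  have hC := hCtx
  obtain ⟨hF, ha, hhp, hsc, hne, hcap, hAper, hgen, hlt⟩ := hC
  have hpow : 2 ^ a = 2 * 2 ^ (a - 1) := by
    conv_lhs => rw [show a = a - 1 + 1 by omega, pow_succ]
    ring
  -- numbers
  obtain ⟨h, hh⟩ : ∃ h, h = 2 ^ (a - 1) := ⟨_, rfl⟩
  obtain ⟨q, hq⟩ : ∃ q, q = m * (m + 1) := ⟨_, rfl⟩
  have e1 : (m + 1) * (m + 1 + 1) = q + 2 * m + 2 := by rw [hq]; ring
  have e2 : (m + 1) * (m + 1 - 1) = q := by rw [hq, Nat.add_sub_cancel]; ring
  have e3 : m * m + 2 * m = q + m := by rw [hq]; ring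
  have e4 : (m + 1) * (m + 1) = q + m + 1 := by rw [hq]; ring
  have ecf : cf 2 t = q + m + 2 := by
    have h1 : (2 * (m + 1)) ^ 2 = 4 * ((m + 1) ^ 2) := by ring
    rw [all_Nm1.2.2.1 t, show t + 1 = 2 * (m + 1) by omega, h1,
      Nat.mul_div_cancel_left _ (by norm_num), hq]
    ring
  rw [← hh] at hhl hlt
  rw [ecf] at hlt
  have hT := Pool.Agent.SSX.PAG_all G ι s f hne hcap hAper
  rw [hsc, ecf] at hT
  -- the halves
  have hout := fun M hM => hWb G ι a p t s f M hCtx (by omega) (by rw [hpow, ← hh]; omega) hM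
  obtain ⟨s1, s2, hd, hun, hE1, hE2, hc1, hc2, hg1, hg2⟩ := hHf G ι a p s f hF (by omega) hne hcap hAper hout
  have hc1' : s1.card = m + 1 := by omega
  have hc2' : s2.card = m := by omega
  have hs1 : s1 ⊆ s := by
    rw [← hun]
    exact subset_union_left
  have hs2 : s2 ⊆ s := by
    rw [← hun]
    exact subset_union_right
  have hA1p : Aper (FS s1 f) := (all_Ba1 G ι f).2.1 s s1 hs1 hAper
  have hA2p : Aper (FS s2 f) := (all_Ba1 G ι f).2.1 s s2 hs2 hAper
  have hFS : FS s f = FS s1 f + FS s2 f := by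
    rw [← hun]
    exact (all_Ba1 G ι f).1 s1 s2 hd
  have hX0 : (FS s1 f).Nonempty := ⟨0, zero_mem_FS _ _⟩
  have hX20 : (FS s2 f).Nonempty := ⟨0, zero_mem_FS _ _⟩
  have hX30 : (FS s f).Nonempty := ⟨0, zero_mem_FS _ _⟩
  have hAp12 : Aper (FS s1 f + FS s2 f) := by
    rw [← hFS]
    exact hAper
  have hk1 := (all_Kn G).1 _ _ hX0 hX20 hAp12
  rw [← hFS] at hk1
  have hs1ne : s1.Nonempty := Finset.card_pos.1 (by omega)
  have htb : (⊤ : AddSubgroup G) ≠ ⊥ := by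
    intro h
    obtain ⟨i, hi⟩ := hs1ne
    have h1 : f i ∈ (⊤ : AddSubgroup G) := AddSubgroup.mem_top _
    rw [h] at h1
    exact hE1.1.1 i hi (AddSubgroup.mem_bot.1 h1)
  have hk2 : (FS s1 f).card + (FS s2 f).card ≤ Nat.card G := by
    have h1 := (all_Kn G).2.1 (FS s1 f) (FS s2 f) ⊤ hX0 hX20 htb
      (fun _ _ => AddSubgroup.mem_top _) (fun _ _ => AddSubgroup.mem_top _) hAp12
    rwa [AddSubgroup.card_top] at h1
  have hN : (FS s f).card + 1 ≤ Nat.card G := by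
    have h1 := (all_Kn G).2.2.2 (FS s f) ⊤ hX30 htb (fun _ _ => AddSubgroup.mem_top _) hAper
    rwa [AddSubgroup.card_top] at h1
  -- (i)
  have hi : q + 2 + h ≤ 2 * (FS s2 f).card := by
    by_cases h1 : 2 * (FS s2 f).card ≤ Nat.card G
    · have h2 := hAl G ι a p s2 f hF ha hhp (by omega) hE2 hA2p hg2 h1 (by rw [hc2', e3]; omega)
      rw [hc2', ← hq, ← hh] at h2
      exact h2
    · omega
  -- (ii)
  have hii : 2 * (FS s1 f).card ≤ q + 2 * m + h := by omega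
  -- (iii)
  have hiii : Nat.card G + 1 ≤ q + 3 * m + 3 := by
    by_contra hcon
    by_cases h1 : 2 * (FS s1 f).card ≤ Nat.card G
    · have h2 := hAl G ι a p s1 f hF ha hhp (by omega) hE1 hA1p hg1 h1 (by rw [hc1', e4]; omega)
      rw [hc1', e1, ← hh] at h2
      omega
    · omega
  -- (iv)
  have hiv : 2 + q ≤ 2 * (FS s1 f).card := by
    by_cases h1 : 2 * (FS s1 f).card ≤ Nat.card G
    · have h2 := hBt G ι a p s1 f hF (by omega) (by omega) hE1 hA1p hg1 h1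
      rw [hc1', e1] at h2
      omega
    · omega
  -- (v)
  have hlam : ∀ i ∈ s1, gen (s1.erase i) f = ⊤ → lam (FS s1 f) (f i) + 2 ≤ m + 1 := by
    intro i hi1 hgi
    have h1 := (all_Ba1 G ι f).2.2.1 s1 i hi1
    have hcE : (s1.erase i).card = m := by
      rw [Finset.card_erase_of_mem hi1, hc1', Nat.add_sub_cancel]
    by_cases h2 : 2 * (FS (s1.erase i) f).card ≤ Nat.card G
    · have h3 := hAl G ι a p (s1.erase i) f hF ha hhp (by omega) (Od_AE hE1 (erase_subset _ _))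
        ((all_Ba1 G ι f).2.1 s1 _ (erase_subset _ _) hA1p) hgi h2 (by rw [hcE, e3]; omega)
      rw [hcE, ← hq, ← hh] at h3
      omega
    · omega
  -- (vi)
  have hgenE : ∀ i ∈ s1, gen (s1.erase i) f = ⊤ := by
    by_contra hcon
    push Not at hcon
    obtain ⟨i0, hi0, hgi0⟩ := hcon
    have hidx : (gen (s1.erase i0) f).index = 2 :=
      (hGf2 G ι a p s1 f hF).2.2.2.2.2 hE1 (by omega) hg1 i0 hi0 hgi0
    refine hDrA G ι s1 f i0 hE1 hA1p hg1 (by omega) hi0 hidx ?_ ?_ ?_ ?_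
    · intro i hi1 hgi
      rw [hc1']
      exact hlam i hi1 hgi
    · rw [hc1', e4]
      omega
    · rw [hc1', e2]
      exact hiv
    · rw [hc1', e2]
      omega
  obtain ⟨hSc, hS0, -, -, hSl, -, -⟩ := all_SyE G ι s1 f hE1
  have hlamD : ∀ y ∈ sym s1 f, lam (FS s1 f) y + 2 ≤ m + 1 := by
    intro y hy
    have h1 := hSl (FS s1 f) (m - 1) (fun i hi1 => by
      have h2 := hlam i hi1 (hgenE i hi1)
      omega) y hy
    omega
  -- (vii)
  have hgro : Gro (m + 1) (sym s1 f) := by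
    rcases hGt G ι a p s1 f hF ha hE1 hA1p hg1 (by omega) (by rw [hc1', e2]; omega) with h1 | h1
    · rw [hc1', e1, ← hh] at h1
      omega
    · rwa [hc1'] at h1
  by_cases h1 : 2 * (FS s1 f).card ≤ Nat.card G
  · exact hAv2 G (FS s1 f) (sym s1 f) (m + 1) hS0 hl hlamD (by omega) (by rw [e2]; exact hiv)
      (by rw [e4]; omega) (by rw [e4]; omega) h1 hgro
  · have : Fintype G := Fintype.ofFinite G
    have hcc : ((FS s1 f)ᶜ).card = Nat.card G - (FS s1 f).card := by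
      rw [Finset.card_compl, Nat.card_eq_fintype_card]
    refine hAv2 G (FS s1 f)ᶜ (sym s1 f) (m + 1) hS0 hl (fun y hy => ?_) (by omega)
      (by rw [e2, hcc]; omega) (by rw [e4, hcc]; omega) (by rw [e4]; omega) (by rw [hcc]; omega) hgro
    rw [lam_compl]
    exact hlamD y hy

end Pool.Agent.SZA
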