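import Pool.Agent.SZA.St

/-!
# SZA: a part contained in a subgroup of index two, exchange
-/

set_option autoImplicit false

noncomputable section

open Finset Pool.Agent.Helper64.Rho Pool.Agent.SDG Pool.Agent.MDR Pool.Agent.SSC Pool.Agent.SSE Pool.Agent.SSF
open scoped Classical Pointwise

namespace Pool.Agent.SZA

private theorem P1A_inj {G ι : Type} [AddCommGroup G] {q : Finset ι} {f : ι → G} (h : AS q f)
    {i j : ι} (hi : i ∈ q) (hj : j ∈ q) (hij : f i = f j ∨ f i = - f j) : i = j := by
  have h1 := h.2 (f j)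
  by_contra hne
  have h2 : ({i, j} : Finset ι) ⊆ q.filter fun k => f k = f j ∨ f k = - f j := by
    intro k hk
    rw [mem_insert, mem_singleton] at hk
    rw [mem_filter]
    rcases hk with rfl | rfl
    · exact ⟨hi, hij⟩
    · exact ⟨hj, Or.inl rfl⟩
  have h3 := card_le_card h2
  rw [card_pair hne] at h3
  omega

theorem thm_P1A : St_Clc → St_P1A := by
  intro hClc G ι _ _ a p s q r f M hF hO hS hM hq
  obtain ⟨hdis, hun, hAq, hAr, hc1, hc2⟩ := hS
  -- many members of `r` are outside `M`
  have hout : outs s f M ⊆ outs r f M := by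
    intro i hi
    rw [outs, mem_filter] at hi ⊢
    refine ⟨?_, hi.2⟩
    rw [← hun, mem_union] at hi
    rcases hi.1 with h | h
    · exact absurd (hq i h) hi.2
    · exact h
  have h4 : a + 1 ≤ (outs r f M).card := (hO M hM).trans (card_le_card hout)
  have hio : (ins r f M).card + (outs r f M).card = r.card := by
    unfold ins outs
    exact card_filter_add_card_filter_not (fun i => f i ∈ M)
  -- members of `q` with a partner
  have hW : (q.filter fun x => ∃ j ∈ r, f j = f x ∨ f j = - f x).card ≤ (ins r f M).card := by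
    have hex : ∀ x ∈ q.filter (fun x => ∃ j ∈ r, f j = f x ∨ f j = - f x),
        ∃ j ∈ r, f j = f x ∨ f j = - f x := fun x hx => (mem_filter.mp hx).2
    choose! φ hφr hφ using hex
    apply card_le_card_of_injOn φ
    · intro i hi
      have hi' : i ∈ q.filter (fun x => ∃ j ∈ r, f j = f x ∨ f j = - f x) := hi
      have hiq : i ∈ q := (mem_filter.mp hi').1
      rw [mem_coe, ins, mem_filter]
      refine ⟨hφr i hi', ?_⟩
      rcases hφ i hi' with h | h
      · rw [h]; exact hq i hiq
      · rw [h]; exact M.neg_mem (hq i hiq)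
    · intro i hi j hj hij
      have hi' : i ∈ q.filter (fun x => ∃ j ∈ r, f j = f x ∨ f j = - f x) := hi
      have hj' : j ∈ q.filter (fun x => ∃ j ∈ r, f j = f x ∨ f j = - f x) := hj
      apply P1A_inj hAq (mem_filter.mp hi').1 (mem_filter.mp hj').1
      rcases hφ i hi' with h | h <;> rcases hφ j hj' with h' | h' <;> rw [hij] at h
      · exact Or.inl (h.symm.trans h')
      · exact Or.inr (h.symm.trans h')
      · right
        rw [← h', h, neg_neg]
      · left
        exact neg_injective (h.symm.trans h')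
  have hWU : (q.filter fun x => ∃ j ∈ r, f j = f x ∨ f j = - f x).card +
      (q.filter fun x => ¬ ∃ j ∈ r, f j = f x ∨ f j = - f x).card = q.card :=
    card_filter_add_card_filter_not (fun x => ∃ j ∈ r, f j = f x ∨ f j = - f x)
  have hQ0 := (hClc G ι a p q (q.filter fun x => Pool.Agent.SSX.Clp q f x) f hF (filter_subset _ _)
    (fun x hx => (mem_filter.mp hx).2)).2 M hM hq
  -- the member of `q`
  obtain ⟨x, hxU, hxc⟩ : ∃ x ∈ q.filter (fun x => ¬ ∃ j ∈ r, f j = f x ∨ f j = - f x),
      x ∉ q.filter fun x => Pool.Agent.SSX.Clp q f x := by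
    apply exists_mem_notMem_of_card_lt_card
    omega
  have hx : x ∈ q := (mem_filter.mp hxU).1
  have hxr : ∀ j ∈ r, f j ≠ f x ∧ f j ≠ - f x := by
    intro j hj
    constructor
    · intro h
      exact (mem_filter.mp hxU).2 ⟨j, hj, Or.inl h⟩
    · intro h
      exact (mem_filter.mp hxU).2 ⟨j, hj, Or.inr h⟩
  have hxc' : ¬ Pool.Agent.SSX.Clp q f x := fun h => hxc (mem_filter.mpr ⟨hx, h⟩)
  -- the member of `r`
  have hQ1 := (hClc G ι a p r (r.filter fun y => Pool.Agent.SSX.Clp r f y) f hF (filter_subset _ _)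
    (fun x hx => (mem_filter.mp hx).2)).1
  obtain ⟨y, hyU, hyc⟩ : ∃ y ∈ outs r f M, y ∉ r.filter fun y => Pool.Agent.SSX.Clp r f y := by
    apply exists_mem_notMem_of_card_lt_card
    omega
  have hy : y ∈ r := (mem_filter.mp hyU).1
  have hyM : f y ∉ M := (mem_filter.mp hyU).2
  refine ⟨x, hx, y, hy, hyM, hxc', fun h => hyc (mem_filter.mpr ⟨hy, h⟩), hxr, ?_⟩
  intro j hj
  constructor
  · intro h
    exact hyM (h ▸ hq j hj)
  · intro h
    apply hyM
    have h1 : f y = - f j := by rw [h, neg_neg]
    rw [h1]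
    exact M.neg_mem (hq j hj)

end Pool.Agent.SZA
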