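import Pool.Agent.SZA.St

/-!
# SZA, module Sg: one more member
-/

set_option autoImplicit false

noncomputable section

open Finset Pool.Agent.Helper64.Rho Pool.Agent.SDG Pool.Agent.MDR Pool.Agent.SSC Pool.Agent.SSE Pool.Agent.SSF
open scoped Classical Pointwise

namespace Pool.Agent.SZA

private theorem Sg_main {G : Type} [AddCommGroup G] [Finite G] (X : Finset G) (v : G)
    (H P : AddSubgroup G) (hH : H = AddSubgroup.zmultiples v) (c : ℕ) (hP : P ≤ H)
    (hc : c = 1 ∨ (c = 2 ∧ ∃ h ∈ H, h ∉ P)) (hcov : ∀ x : G, ∃ z ∈ X, x - z ∈ P) :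
    ∃ F E : ℕ, F + E = H.index ∧ Nat.card H * F + c * E ≤ X.card ∧ E ≤ lam X v := by
  have _ : Fintype (G ⧸ H) := Fintype.ofFinite _
  have _ : Fintype H := Fintype.ofFinite _
  have hm : ∀ x y : G, (QuotientAddGroup.mk x : G ⧸ H) = QuotientAddGroup.mk y ↔ x - y ∈ H := by
    intro x y
    constructor
    · intro h
      have h1 := QuotientAddGroup.eq.1 h.symm
      rwa [neg_add_eq_sub] at h1
    · intro h
      refine (QuotientAddGroup.eq.2 ?_).symm
      rwa [neg_add_eq_sub]
  obtain ⟨m, hmd⟩ : ∃ m : G → G ⧸ H, m = QuotientAddGroup.mk := ⟨_, rfl⟩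
  have hm' : ∀ x y : G, m x = m y ↔ x - y ∈ H := by
    intro x y
    rw [hmd]
    exact hm x y
  have hsurj : ∀ q : G ⧸ H, ∃ x : G, m x = q := by
    intro q
    rw [hmd]
    exact QuotientAddGroup.mk_surjective q
  have hvH : v ∈ H := by
    rw [hH]
    exact AddSubgroup.mem_zmultiples v
  obtain ⟨full, hfd⟩ : ∃ full : Finset (G ⧸ H),
      full = Finset.univ.filter fun q => ∀ x : G, m x = q → x ∈ X := ⟨_, rfl⟩
  obtain ⟨non, hnd⟩ : ∃ non : Finset (G ⧸ H),
      non = Finset.univ.filter fun q => ¬ ∀ x : G, m x = q → x ∈ X := ⟨_, rfl⟩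
  have hsum : full.card + non.card = H.index := by
    rw [hfd, hnd, Finset.card_filter_add_card_filter_not, Finset.card_univ,
      ← Nat.card_eq_fintype_card]
    rfl
  have hX : X.card = ∑ q : G ⧸ H, (X.filter fun x => m x = q).card :=
    Finset.card_eq_sum_card_fiberwise (fun x _ => Finset.mem_coe.2 (Finset.mem_univ _))
  have hspl : X.card = ∑ q ∈ full, (X.filter fun x => m x = q).card +
      ∑ q ∈ non, (X.filter fun x => m x = q).card := by
    rw [hX, hfd, hnd]
    exact (Finset.sum_filter_add_sum_filter_not _ _ _).symm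
  have hfull : ∀ q ∈ full, Nat.card H ≤ (X.filter fun x => m x = q).card := by
    intro q hq
    rw [hfd, Finset.mem_filter] at hq
    obtain ⟨x0, hx0⟩ := hsurj q
    rw [Nat.card_eq_fintype_card, ← Finset.card_univ]
    refine Finset.card_le_card_of_injOn (fun h : H => x0 + (h : G)) ?_ ?_
    · intro h _
      have h1 : m (x0 + (h : G)) = q := by
        rw [← hx0, hm']
        simp
      exact Finset.mem_coe.2 (Finset.mem_filter.2 ⟨hq.2 _ h1, h1⟩)
    · intro h _ h' _ he
      exact Subtype.ext (add_left_cancel he)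
  have hnon : ∀ q ∈ non, c ≤ (X.filter fun x => m x = q).card := by
    intro q _
    obtain ⟨x0, hx0⟩ := hsurj q
    obtain ⟨z0, hz0, hz0'⟩ := hcov x0
    have hz0m : m z0 = q := by
      rw [← hx0, hm', ← neg_sub]
      exact H.neg_mem (hP hz0')
    rcases hc with hc | ⟨hc, h, hhH, hhP⟩
    · rw [hc]
      exact Finset.card_pos.2 ⟨z0, Finset.mem_filter.2 ⟨hz0, hz0m⟩⟩
    · obtain ⟨z1, hz1, hz1'⟩ := hcov (x0 + h)
      have hz1m : m z1 = q := by
        rw [← hx0, hm']
        have e : z1 - x0 = h - (x0 + h - z1) := by abel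
        rw [e]
        exact H.sub_mem hhH (hP hz1')
      have hne : z0 ≠ z1 := by
        intro e
        apply hhP
        have e' : h = (x0 + h - z1) - (x0 - z0) := by
          rw [e]
          abel
        rw [e']
        exact P.sub_mem hz1' hz0'
      rw [hc]
      have h2 : ({z0, z1} : Finset G) ⊆ X.filter fun x => m x = q := by
        intro z hz
        rw [Finset.mem_insert, Finset.mem_singleton] at hz
        rcases hz with rfl | rfl
        · exact Finset.mem_filter.2 ⟨hz0, hz0m⟩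
        · exact Finset.mem_filter.2 ⟨hz1, hz1m⟩
      calc 2 = ({z0, z1} : Finset G).card := (Finset.card_pair hne).symm
        _ ≤ _ := Finset.card_le_card h2
  have hlam : non.card ≤ lam X v := by
    unfold lam
    refine (Finset.card_le_card (t := (X.filter fun b => b + v ∉ X).image m) ?_).trans
      Finset.card_image_le
    intro q hq
    rw [hnd, Finset.mem_filter] at hq
    by_contra hcon
    apply hq.2
    obtain ⟨x0, hx0⟩ := hsurj q
    obtain ⟨z0, hz0, hz0'⟩ := hcov x0
    have hz0m : m z0 = q := by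
      rw [← hx0, hm', ← neg_sub]
      exact H.neg_mem (hP hz0')
    have hstep : ∀ b ∈ X, m b = q → b + v ∈ X := by
      intro b hb hbq
      by_contra hbv
      exact hcon (Finset.mem_image.2 ⟨b, Finset.mem_filter.2 ⟨hb, hbv⟩, hbq⟩)
    have hall : ∀ k : ℕ, z0 + k • v ∈ X ∧ m (z0 + k • v) = q := by
      intro k
      induction k with
      | zero => simpa using ⟨hz0, hz0m⟩
      | succ k ih =>
        have e : z0 + (k + 1) • v = z0 + k • v + v := by
          rw [succ_nsmul, add_assoc]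
        refine ⟨?_, ?_⟩
        · rw [e]
          exact hstep _ ih.1 ih.2
        · rw [← hz0m, hm', add_sub_cancel_left]
          exact H.nsmul_mem hvH _
    intro x hx
    have hxz : x - z0 ∈ H := by
      rw [← hm', hx, hz0m]
    rw [hH] at hxz
    have hxz' : x - z0 ∈ AddSubmonoid.multiples v := by
      rwa [mem_multiples_iff_mem_zmultiples]
    obtain ⟨k, hk⟩ := AddSubmonoid.mem_multiples_iff _ _ |>.1 hxz'
    have e : x = z0 + k • v := by
      rw [hk]
      abel
    rw [e]
    exact (hall k).1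
  refine ⟨full.card, non.card, hsum, ?_, hlam⟩
  rw [hspl]
  refine Nat.add_le_add ?_ ?_
  · rw [mul_comm, ← smul_eq_mul]
    exact Finset.card_nsmul_le_sum _ _ _ hfull
  · rw [mul_comm, ← smul_eq_mul]
    exact Finset.card_nsmul_le_sum _ _ _ hnon

private theorem Sg_num1 {h p x F E l : ℕ} (hp : 5 ≤ p) (hFE : F + E = h)
    (hx : 2 * p * F + 2 * E ≤ x) (hl : E ≤ l) : x + h ≤ x + l + (x - 2 * h) / (2 * p - 2) := by
  have h1 : F ≤ (x - 2 * h) / (2 * p - 2) := by
    rw [Nat.le_div_iff_mul_le (by omega)]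
    obtain ⟨r, rfl⟩ : ∃ r, p = r + 1 := ⟨p - 1, by omega⟩
    have e : 2 * (r + 1) - 2 = 2 * r := by omega
    rw [e]
    have e2 : 2 * (r + 1) * F + 2 * E = F * (2 * r) + 2 * (F + E) := by ring
    rw [e2, hFE] at hx
    omega
  omega

private theorem Sg_num2 {h p x F E l : ℕ} (hp : 5 ≤ p) (hFE : F + E = 2 * h)
    (hx : p * F + E ≤ x) (hxN : x < 2 * h * p) (hl : E ≤ l) :
    x + h ≤ x + l + (x - 2 * h) / (2 * p - 2) := by
  obtain ⟨r, rfl⟩ : ∃ r, p = r + 1 := ⟨p - 1, by omega⟩
  have e : 2 * (r + 1) - 2 = 2 * r := by omega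
  rw [e]
  have e2 : (r + 1) * F + E = r * F + (F + E) := by ring
  rw [e2, hFE] at hx
  obtain ⟨y, rfl⟩ : ∃ y, x = y + 2 * h := ⟨x - 2 * h, by omega⟩
  have e3 : y + 2 * h - 2 * h = y := by omega
  rw [e3]
  obtain ⟨q, hq⟩ : ∃ q, q = y / (2 * r) := ⟨_, rfl⟩
  rw [← hq]
  have h1 : y < (q + 1) * (2 * r) := by
    rw [hq]
    exact Nat.lt_mul_of_div_lt (by omega) (by omega)
  have h2 : q * (2 * r) ≤ y := by
    rw [hq]
    exact Nat.div_mul_le_self _ _
  have hF : F < 2 * (q + 1) := by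
    have h3 : r * F < r * (2 * (q + 1)) := by
      have e4 : (q + 1) * (2 * r) = r * (2 * (q + 1)) := by ring
      omega
    exact Nat.lt_of_mul_lt_mul_left h3
  have hqh : q < h := by
    have h4 : q * (2 * r) < h * (2 * r) := by
      have e5 : 2 * h * (r + 1) = h * (2 * r) + 2 * h := by ring
      omega
    exact Nat.lt_of_mul_lt_mul_right h4
  omega

theorem thm_Sg (h1 : St_Gf1) (_h2 : St_Bs) : St_Sg := by
  intro G ι _ _ a p w y f hF ha hcov hy hfy hne
  obtain ⟨hpc, -, h3, -⟩ := h1 G a p hF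
  obtain ⟨hp, hp5, hN, hkill⟩ := hF
  have hcard : (FS (insert y w) f).card = (FS w f).card + lam (FS w f) (f y) := by
    rw [FS_insert hy, card_union_shift]
  obtain ⟨H, hH⟩ : ∃ H : AddSubgroup G, H = AddSubgroup.zmultiples (f y) := ⟨_, rfl⟩
  have hvH : f y ∈ H := by
    rw [hH]
    exact AddSubgroup.mem_zmultiples _
  have hPH : PP G ≤ H := by
    rcases h3 H with h | h
    · exact h
    · exact absurd (h _ hvH) hfy
  have hd1 : Nat.card H ∣ 2 * p := by
    rw [hH, Nat.card_zmultiples]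
    exact addOrderOf_dvd_of_nsmul_eq_zero (hkill _)
  have hd2 : p ∣ Nat.card H := by
    rw [← hpc]
    exact AddSubgroup.card_dvd_of_le hPH
  obtain ⟨c, hc⟩ := hd2
  have hc2 : c ∣ 2 := by
    rw [hc, mul_comm 2 p] at hd1
    exact Nat.dvd_of_mul_dvd_mul_left hp.pos hd1
  have hidx : H.index * c = 2 ^ a := by
    have h := H.card_mul_index
    rw [hN, hc] at h
    have h' : p * (H.index * c) = p * 2 ^ a := by
      rw [mul_comm p (2 ^ a), ← h]
      ring
    exact Nat.eq_of_mul_eq_mul_left hp.pos h'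
  have hpow : 2 ^ a = 2 * 2 ^ (a - 1) := by
    rw [← pow_succ']
    congr 1
    omega
  obtain ⟨h, hh⟩ : ∃ h : ℕ, h = 2 ^ (a - 1) := ⟨_, rfl⟩
  rw [hcard, hpow, ← hh]
  rw [hpow, ← hh] at hidx
  have hXN : (FS w f).card < 2 * h * p := by
    have _ : Fintype G := Fintype.ofFinite _
    have h5 : 2 * h * p = Fintype.card G := by
      rw [← Nat.card_eq_fintype_card, hN, hpow, ← hh]
    rw [h5]
    obtain ⟨x, hx⟩ := hne
    rw [Finset.card_lt_iff_ne_univ]
    intro e
    rw [e] at hx
    exact hx (Finset.mem_univ _)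
  rcases (Nat.dvd_prime Nat.prime_two).1 hc2 with hc1 | hc1
  · obtain ⟨F, E, hFE, hx, hl⟩ := Sg_main (FS w f) (f y) H (PP G) hH 1 hPH (Or.inl rfl) hcov
    rw [hc1, mul_one] at hc hidx
    rw [hc, one_mul] at hx
    rw [hidx] at hFE
    exact Sg_num2 hp5 hFE hx hXN hl
  · have hex : ∃ z ∈ H, z ∉ PP G := by
      by_contra hcon
      push Not at hcon
      have hle : H ≤ PP G := hcon
      have h6 : Nat.card H ∣ p := by
        rw [← hpc]
        exact AddSubgroup.card_dvd_of_le hle
      have h7 := Nat.le_of_dvd hp.pos h6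
      rw [hc, hc1] at h7
      omega
    obtain ⟨F, E, hFE, hx, hl⟩ := Sg_main (FS w f) (f y) H (PP G) hH 2 hPH
      (Or.inr ⟨rfl, hex⟩) hcov
    rw [hc1] at hc hidx
    have hidx' : H.index = h := by omega
    rw [hc, mul_comm p 2] at hx
    rw [hidx'] at hFE
    exact Sg_num1 hp5 hFE hx hl

end Pool.Agent.SZA
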