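import Pool.Agent.SZA.St

/-!
# SZA, module Sgn: `s` members more than the rank (MP_ec93d3_co)
-/

set_option autoImplicit false

noncomputable section

open Finset Pool.Agent.Helper64.Rho Pool.Agent.SDG Pool.Agent.MDR Pool.Agent.SSC Pool.Agent.SSE Pool.Agent.SSF
open scoped Classical Pointwise

namespace Pool.Agent.SZA

private theorem Sgn_half {a p : ℕ} (hp : p.Prime) (h5 : 5 ≤ p) (ha : 2 ≤ a) (h : 2 ^ (a - 1) ≤ 2 * p) :
    2 ^ (a - 1) ≤ 2 * p - 2 := by
  obtain ⟨b, rfl⟩ : ∃ b, a = b + 2 := ⟨a - 2, by omega⟩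
  have h1 : b + 2 - 1 = b + 1 := by omega
  rw [h1] at h ⊢
  have h2 : 2 ^ (b + 1) = 2 * 2 ^ b := by rw [pow_succ]; ring
  rw [h2] at h ⊢
  have h3 : 2 ^ b ≤ p := by omega
  have h4 : 2 ^ b ≠ p := by
    intro he
    have h6 : p ∣ 2 ^ b := by rw [he]
    have h7 : p ∣ 2 := hp.dvd_of_dvd_pow h6
    have h8 := Nat.le_of_dvd (by norm_num) h7
    omega
  omega

private theorem Sgn_num {h p F F' r : ℕ} (hh : 2 ≤ h) (hp : h ≤ 2 * p - 2)
    (h0 : 2 * h ≤ F) (hS : F + h ≤ F' + (F - 2 * h) / (2 * p - 2))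
    (hI : 2 * (2 * h) + 2 * h * r ≤ 2 * F + r * (r - 1)) :
    2 * (2 * h) + 2 * h * (r + 1) ≤ 2 * F' + (r + 1) * (r + 1 - 1) := by
  have he := Nat.div_mul_le_self (F - 2 * h) (2 * p - 2)
  generalize (F - 2 * h) / (2 * p - 2) = e at hS he
  have hr : r * (r - 1) + 2 * r = (r + 1) * (r + 1 - 1) := by
    cases r with
    | zero => rfl
    | succ n =>
      simp only [Nat.add_sub_cancel]
      ring
  have hx : 2 * h * (r + 1) = 2 * h * r + 2 * h := by ring
  rcases Nat.lt_or_ge r e with hc | hc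
  · -- `e ≥ r + 1`
    have h1 : e * h ≤ e * (2 * p - 2) := Nat.mul_le_mul_left e hp
    have h2 : e * h + 2 * h ≤ F := by omega
    obtain ⟨d, rfl⟩ : ∃ d, e = r + 1 + d := ⟨e - (r + 1), by omega⟩
    have h3 : 2 * (r + 1 + d) ≤ 2 * h * (d + 1) + (r + 1) * (r + 1 - 1) := by
      simp only [Nat.add_sub_cancel]
      nlinarith [Nat.mul_le_mul_right (d + 1) hh, Nat.zero_le (r * r), Nat.le_mul_self r]
    have h4 : 2 * ((r + 1 + d) * h) = 2 * h * r + 2 * h * (d + 1) := by ring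
    omega
  · omega

theorem thm_Sgn : St_Gf1 → St_Bs → St_Sg → St_Sgn := by
  intro _ hBs hSg G ι _ _ a p s u f hFA ha hhp hu hAp hgen hcard
  obtain ⟨hBs1, hBs2, hBs3⟩ := hBs
  have hp := hFA.1
  have h5 := hFA.2.1
  have hh := Sgn_half hp h5 ha hhp
  obtain ⟨b, hbu, hba, hCb⟩ := hBs2 G ι a p u f hFA hgen
  have hpow : 2 ^ a = 2 * 2 ^ (a - 1) := by
    obtain ⟨c, rfl⟩ : ∃ c, a = c + 1 := ⟨a - 1, by omega⟩
    rw [Nat.add_sub_cancel, pow_succ]
    ring
  have h2 : 2 ≤ 2 ^ (a - 1) := by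
    obtain ⟨c, rfl⟩ : ∃ c, a = c + 2 := ⟨a - 2, by omega⟩
    have h1 : c + 2 - 1 = c + 1 := by omega
    rw [h1, pow_succ]
    have := Nat.one_le_two_pow (n := c)
    omega
  -- the sums are not everything
  have hne : ∀ w : Finset ι, w ⊆ u → ∃ x : G, x ∉ FS w f := by
    intro w hw
    by_contra hc
    push Not at hc
    have hall : ∀ g : G, g = 0 := fun g => hAp g fun x _ => FS_mono hw f (hc _)
    have h1 : Nat.card G = 1 := by
      rw [Nat.card_eq_one_iff_unique]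
      exact ⟨⟨fun x y => by rw [hall x, hall y]⟩, ⟨0⟩⟩
    have h3 := hFA.2.2.1
    rw [h1] at h3
    have h4 : 1 ≤ 2 ^ a := Nat.one_le_two_pow
    nlinarith
  have key : ∀ r : ℕ, ∀ w : Finset ι, b ⊆ w → w ⊆ u → w.card = a + r →
      2 * (2 * 2 ^ (a - 1)) + 2 * 2 ^ (a - 1) * r ≤ 2 * (FS w f).card + r * (r - 1) := by
    intro r
    induction r with
    | zero =>
      intro w hbw hwu hw
      have := hBs3 G ι a p w f hFA (hBs1 G ι b w f hCb hbw)
      rw [hpow] at this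
      omega
    | succ r ih =>
      intro w hbw hwu hw
      have hlt : b.card < w.card := by omega
      obtain ⟨y, hyw, hyb⟩ := Finset.exists_mem_notMem_of_card_lt_card hlt
      have hbw' : b ⊆ w.erase y := fun i hi =>
        Finset.mem_erase.2 ⟨fun he => hyb (he ▸ hi), hbw hi⟩
      have hwu' : w.erase y ⊆ u := (Finset.erase_subset y w).trans hwu
      have hw' : (w.erase y).card = a + r := by
        rw [Finset.card_erase_of_mem hyw]
        omega
      have hC := hBs1 G ι b (w.erase y) f hCb hbw'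
      have hS := hSg G ι a p (w.erase y) y f hFA (by omega) hC (Finset.notMem_erase y w)
        (hu y (hwu hyw)) (hne _ hwu')
      rw [Finset.insert_erase hyw] at hS
      have h0 := hBs3 G ι a p (w.erase y) f hFA hC
      rw [hpow] at hS h0
      exact Sgn_num h2 hh h0 hS (ih _ hbw' hwu' hw')
  have hfin := key s u hbu (Finset.Subset.refl u) hcard
  rw [hpow]
  exact hfin

end Pool.Agent.SZA
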