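import Pool.Agent.SZA.St
import Pool.Agent.SSX.Main

/-!
# SZA/Wb: at least `a + 1` members outside every subgroup of index 2 (helper85)
-/

set_option autoImplicit false

noncomputable section

open Finset Pool.Agent.Helper64.Rho Pool.Agent.SDG Pool.Agent.MDR Pool.Agent.SSC Pool.Agent.SSE Pool.Agent.SSF
open scoped Classical Pointwise

namespace Pool.Agent.SZA

private theorem Wb_pow (a : ℕ) (ha : 4 ≤ a) : 4 * a ≤ 2 ^ a := by
  induction a, ha using Nat.le_induction with
  | base => norm_num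
  | succ n hn ih =>
    have h2 : 2 ^ (n + 1) = 2 * 2 ^ n := by ring
    omega

private theorem Wb_sq (n : ℕ) : n ^ 2 ≤ 4 * (n ^ 2 / 4) + 1 := by
  rcases Nat.even_or_odd' n with ⟨k, hk | hk⟩
  · subst hk
    have h : (2 * k) ^ 2 = 4 * k ^ 2 := by ring
    omega
  · subst hk
    have h : (2 * k + 1) ^ 2 = 4 * (k ^ 2 + k) + 1 := by ring
    omega

/-- the numbers -/
private theorem Wb_num (a t c : ℕ) (ha : 3 ≤ a) (ht10 : 10 ≤ t) (hta : 2 ^ a + 1 ≤ t) (h1 : 2 * cf 2 (t - a) ≤ c)
    (h2 : c + 2 ≤ cf 2 t + 2 ^ (a - 1)) : False := by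
  have hlt : a < 2 ^ a := Nat.lt_two_pow_self
  obtain ⟨b, rfl⟩ : ∃ b, t = b + a := ⟨t - a, by omega⟩
  have hb : b + a - a = b := by omega
  rw [hb] at h1
  have hN := SDG.all_Nm1.2.2.1
  rw [hN b] at h1
  rw [hN (b + a)] at h2
  have hp : 2 * 2 ^ (a - 1) = 2 ^ a := by
    rw [← pow_succ']
    congr 1
    omega
  have hs := Wb_sq (b + 1)
  have hd : 4 * ((b + a + 1) ^ 2 / 4) ≤ (b + a + 1) ^ 2 := Nat.mul_div_le _ _
  have hk : 2 * (b + 1) ^ 2 + 10 ≤ (b + a + 1) ^ 2 + 2 * 2 ^ a := by omega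
  rcases Nat.lt_or_ge a 4 with h4 | h4
  · have h3 : a = 3 := by omega
    subst h3
    have hb7 : 7 ≤ b := by omega
    norm_num at hk
    nlinarith
  · have hH := Wb_pow a h4
    obtain ⟨k, hk'⟩ : ∃ k, 2 ^ a = 4 * a + k := ⟨2 ^ a - 4 * a, by omega⟩
    rw [hk'] at hk hta
    obtain ⟨m, rfl⟩ : ∃ m, b = 3 * a + k + 1 + m := ⟨b - (3 * a + k + 1), by omega⟩
    zify at hk
    nlinarith [sq_nonneg ((a : ℤ)), sq_nonneg (m : ℤ), sq_nonneg (k : ℤ), mul_nonneg (Int.natCast_nonneg a) (Int.natCast_nonneg k),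
      mul_nonneg (Int.natCast_nonneg a) (Int.natCast_nonneg m), mul_nonneg (Int.natCast_nonneg m) (Int.natCast_nonneg k)]

theorem thm_Wb : St_Wb := by
  intro G ι _ _ a p t s f M hC ht10 hta hM
  obtain ⟨hFA, ha3, hhp, hst, h0, hcap, hap, hgen, hfew⟩ := hC
  by_contra hlt
  have he : (outs s f M).card ≤ a := by omega
  -- a member outside `M`
  have hout : ∃ y ∈ s, f y ∉ M := by
    by_contra hno
    push Not at hno
    have hle : gen s f ≤ M := by
      refine (AddSubgroup.closure_le _).mpr ?_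
      rintro _ ⟨i, hi, rfl⟩
      exact hno i hi
    rw [hgen, top_le_iff] at hle
    rw [hle, AddSubgroup.index_top] at hM
    omega
  obtain ⟨y, hy, hyM⟩ := hout
  have hsub : ins s f M ⊆ s := Finset.filter_subset _ _
  have hcardio : (ins s f M).card + (outs s f M).card = s.card :=
    Finset.card_filter_add_card_filter_not (s := s) (fun i => f i ∈ M)
  -- the sums of the members in `M`
  have hI : cf 2 (ins s f M).card ≤ (FS (ins s f M) f).card := by
    refine SSX.PAG_all G ι (ins s f M) f (fun i hi => h0 i (hsub hi)) ?_ ((SDG.all_Ba1 G ι f).2.1 s _ hsub hap)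
    intro x
    exact (Finset.card_le_card (Finset.filter_subset_filter _ hsub)).trans (hcap x)
  have hgi : gen (ins s f M) f ≤ M := by
    refine (AddSubgroup.closure_le _).mpr ?_
    rintro _ ⟨i, hi, rfl⟩
    exact (Finset.mem_filter.mp hi).2
  have hyi : y ∉ ins s f M := fun h => hyM (Finset.mem_filter.mp h).2
  have herase : (insert y (ins s f M)).erase y = ins s f M := Finset.erase_insert hyi
  have hdbl : (FS (insert y (ins s f M)) f).card = 2 * (FS (ins s f M) f).card := by
    have h := (SDG.all_Ba1 G ι f).2.2.2.1 (insert y (ins s f M)) y (Finset.mem_insert_self _ _)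
    rw [herase] at h
    exact h fun hc => hyM (hgi hc)
  have hsub2 : insert y (ins s f M) ⊆ s := Finset.insert_subset hy hsub
  have hFS : (FS (insert y (ins s f M)) f).card ≤ (FS s f).card := by
    refine Finset.card_le_card ?_
    unfold FS
    exact Finset.image_subset_image (Finset.powerset_mono.mpr hsub2)
  have hmono : cf 2 (t - a) ≤ cf 2 (ins s f M).card := SDG.all_Nm1.2.2.2.1 2 _ _ (by omega)
  exact Wb_num a t (FS s f).card ha3 ht10 hta (by omega) hfew

end Pool.Agent.SZA
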