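import Pool.Agent.SZA.Gf1
import Pool.Agent.SZA.Gf2
import Pool.Agent.SZA.Bs
import Pool.Agent.SZA.Sg
import Pool.Agent.SZA.Sgn
import Pool.Agent.SZA.B5
import Pool.Agent.SZA.Bt
import Pool.Agent.SZA.Dp
import Pool.Agent.SZA.Av1
import Pool.Agent.SZA.Av2
import Pool.Agent.SZA.Av3
import Pool.Agent.SZA.KhG
import Pool.Agent.SZA.Gt
import Pool.Agent.SZA.La
import Pool.Agent.SZA.Wb
import Pool.Agent.SZA.Clc
import Pool.Agent.SZA.P1A
import Pool.Agent.SZA.Hf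
import Pool.Agent.SZA.B2
import Pool.Agent.SZA.EvB
import Pool.Agent.SZA.Ev
import Pool.Agent.SZA.DrA
import Pool.Agent.SZA.Od
import Pool.Agent.SZA.FinA

/-!
# SZA, assembly (helper97): everything except the module `Al`
-/

set_option autoImplicit false

noncomputable section

open Finset Pool.Agent.Helper64.Rho Pool.Agent.SDG
open scoped Classical Pointwise

namespace Pool.Agent.SZA

theorem all_Gf1 : St_Gf1 := thm_Gf1
theorem all_Gf2 : St_Gf2 := thm_Gf2 all_Gf1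
theorem all_Bs : St_Bs := thm_Bs all_Gf1
theorem all_Sg : St_Sg := thm_Sg all_Gf1 all_Bs
theorem all_Sgn : St_Sgn := thm_Sgn all_Gf1 all_Bs all_Sg
theorem all_B5 : St_B5 := thm_B5 all_Gf1 all_Bs all_Sg
theorem all_Bt : St_Bt := thm_Bt all_Gf1 all_Gf2
theorem all_Dp : St_Dp := thm_Dp all_Gf1 all_Gf2 all_Bt
theorem all_Gt : St_Gt := thm_Gt all_Gf1 all_Gf2 thm_KhG
theorem all_Hf : St_Hf := thm_Hf all_Gf1 all_Gf2 (thm_P1A (thm_Clc all_Gf1))

/-- everything from `Al` -/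
theorem fin_of_Al (hAl : St_Al) : St_FinA :=
  have hLa : St_La := thm_La all_Dp hAl
  have hEvB : St_EvB := thm_EvB all_Gf1 all_Gt thm_Av3 hLa thm_B2
  thm_FinA (thm_Ev all_Gf1 all_Bt all_Gt thm_Av2 hAl hLa thm_Wb all_Hf hEvB)
    (thm_Od all_Gf1 all_Gf2 all_Bt all_Gt thm_Av2 hAl thm_Wb all_Hf thm_DrA)

end Pool.Agent.SZA
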